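import Pool.Agent.MC.Slow
import Pool.Agent.IW.Rev
import Pool.Agent.SIM.TopGeo
import Pool.Agent.PW.Inner

/-!
MC: reversal. Events of the start of the walk are inner functionals of the reversed word.
-/

set_option autoImplicit false

namespace HexObs

namespace MCP

open Finset TS SDN TIW

open Pool.Agent.IW (rvw rvw_app rvw_mem rvw_rvw split_last)

/-- the vertices of the reversed word, seen from the tip -/
lemma rev_key (s : List Bool) : ∃ u : Pt, nrm u = 1 ∧ ∀ j, j ≤ s.length + 1 → vx oo up s (s.length + 1 - j) =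
    tip oo up s + mulE u (vx oo up (rev s) j) := by
  have hd : -(dx up s s.length) ∈ dirs := neg_mem_dirs (dx_mem SDN.up_dirs s s.length)
  obtain ⟨-, he⟩ := SDN.frame_dir hd
  refine ⟨rotTo up (-(dx up s s.length)), nrm_rotTo upd' hd, fun j hj => ?_⟩
  rw [← vx_rev oo up s j hj, ← SDN.vx_frameN, ← he]

/-- distances in the reversed word -/
lemma rev_hn (s : List Bool) {j : ℕ} (hj : j ≤ s.length + 1) :
    hn (vx oo up (rev s) j) = hn (vx oo up s (s.length + 1 - j) - tip oo up s) := by
  obtain ⟨u, hu, h⟩ := rev_key s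
  rw [h j hj, add_sub_cancel_left, hn_mulE hu]

lemma en_snoc (s : List Bool) (c : Bool) : en (s ++ [c]) = tip oo up s := by
  have e : en (s ++ [c]) = vx oo up (s ++ [c]) (s.length + 1) := by
    unfold en
    rw [List.length_append, List.length_singleton]
  rw [e, vx_append (by omega)]
  rfl

/-- the end of the reversed word is as far as the end -/
lemma hn_rvw (t : List Bool) : hn (en (rvw t)) = hn (en t) := by
  rcases t.eq_nil_or_concat' with rfl | ⟨s, c, rfl⟩
  · rfl
  · rw [rvw_app, en_snoc, en_snoc]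
    have h := rev_hn s (j := s.length + 1) le_rfl
    have e : tip oo up (rev s) = vx oo up (rev s) (s.length + 1) := by
      unfold tip
      rw [rev_length]
    rw [e, h, Nat.sub_self]
    have e0 : vx oo up s 0 = oo := rfl
    have e1 : oo - tip oo up s = -(tip oo up s) := zero_sub _
    rw [e0, e1, hn_neg]

lemma hn_step (s : List Bool) : hn (vx oo up s 1) ≤ 2 := by
  have e : vx oo up s 1 = oo + up := rfl
  rw [e]
  decide

/-- **an event of the start is an inner functional of the reversed word** -/
theorem inn_rvw {b : ℕ} {Q : Set (List Bool)} (hQ : StE b Q) : PWN.Inn (b + 2) (fun t => TIP.ind (rvw t ∈ Q)) := by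
  intro A E hA hE
  show TIP.ind (rvw (A ++ E) ∈ Q) = TIP.ind (rvw E ∈ Q)
  rcases E.eq_nil_or_concat' with rfl | ⟨s, c, rfl⟩
  · exfalso
    have e0 : hn (en []) = 0 := by decide
    rw [e0] at hE
    have : (0 : ℤ) < 2 ^ (b + 2) := by positivity
    linarith
  · have hE2 : s ++ [c] ∈ SA := by
      have := SA_drop hA A.length
      rwa [List.drop_left] at this
    have e1 : rvw (A ++ (s ++ [c])) = rev s ++ (rev A ++ [c]) := by
      rw [← List.append_assoc, rvw_app, rev_append, List.append_assoc]
    have e2 : rvw (s ++ [c]) = rev s ++ [c] := rvw_app s c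
    have h1 : rev s ++ (rev A ++ [c]) ∈ SA := by
      rw [← e1]
      exact (rvw_mem (n := (A ++ (s ++ [c])).length) (by simp) ⟨rfl, hA⟩).2
    have h2 : rev s ++ [c] ∈ SA := by
      rw [← e2]
      exact (rvw_mem (n := (s ++ [c]).length) (by simp) ⟨rfl, hE2⟩).2
    have h3 : (2 : ℤ) ^ b ≤ hn (en (rev s)) := by
      have e3 : en (rev s) = vx oo up (rev s) s.length := by
        unfold en
        rw [rev_length]
      rw [e3, rev_hn s (by omega), show s.length + 1 - s.length = 1 by omega]
      rw [en_snoc] at hE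
      have h4 := hn_sub (vx oo up s 1) (vx oo up s 1 - tip oo up s)
      rw [sub_sub_cancel] at h4
      have h5 := hn_step s
      have h6 : (2 : ℤ) ^ (b + 2) = 4 * 2 ^ b := by ring
      have h7 : (1 : ℤ) ≤ 2 ^ b := one_le_pow₀ (by norm_num)
      linarith
    rw [e1, e2]
    exact TIP.ind_congr ((hQ _ _ h1 h3).trans (hQ _ _ h2 h3).symm)

/-- reversal keeps the sums -/
lemma sum_rvw (n : ℕ) (F : List Bool → ℝ) : ∑ t ∈ sawF n, F (rvw t) = ∑ t ∈ sawF n, F t := by
  rcases Nat.eq_zero_or_pos n with rfl | hn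
  · refine sum_congr rfl fun t ht => ?_
    have h := (mem_sawF.1 ht).1
    rw [List.length_eq_zero_iff] at h
    rw [h]
    rfl
  · refine sum_nbij' rvw rvw ?_ ?_ ?_ ?_ ?_
    · intro t ht
      exact mem_sawF.2 (rvw_mem hn (mem_sawF.1 ht))
    · intro t ht
      exact mem_sawF.2 (rvw_mem hn (mem_sawF.1 ht))
    · intro t ht
      exact rvw_rvw hn (mem_sawF.1 ht).1
    · intro t ht
      exact rvw_rvw hn (mem_sawF.1 ht).1
    · intro t _
      rfl

end MCP

end HexObs
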