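import Pool.Agent.MC.Core
import Pool.Agent.PW.SmallNZ

/-!
MC: **`mixN : MixN`**, no hypothesis: the laws of the start of the n-step walk at the scale 2 ^ b are the same for all n of the
scales at least b + C.
-/

set_option autoImplicit false

namespace HexObs

namespace MCP

theorem mixN : MixN := mixN_of PWN.smallN

end MCP

end HexObs
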