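import Pool.Agent.MC.Dict

/-!
MC: the joint form of the coupling, public side (helper11): from `JointM` (helper83) on words: the first m steps of the walk
with n steps, m <= δ n, are asymptotically independent of the curve of the whole walk, and have the law of the infinite walk.
-/

set_option autoImplicit false

open MeasureTheory Filter Topology
open scoped Classical

namespace Pool.Agent.IW

open Res

open HexObs (SawN cS Saw oo up vx dx tf tip xc vx_append)

open HexObs.TOG (Pn)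

open HexObs.MCP

open HexObs.TIW (en hn)

open NTSF (rot om)

open HexObs.TOG (wdN mem_wdN)

open NTF (JJ sw)

namespace MC

/-- the joint form on words -/
def JointM : Prop := ∀ (ε : ℝ) (K : NNReal), 0 < ε → ∃ C k0 : ℕ, ∀ b k n n' : ℕ, k0 ≤ k → b + C ≤ k → HexObs.TIP.Sc k n →
  n ≤ n' → ∀ Q : Set (List Bool), StE b Q → ∀ f : C(unitInterval, ℂ) → ℝ, LipschitzWith K f → (∀ γ, |f γ| ≤ 1) →
    |mw n (fun t => if t ∈ Q then f (Cw n t) else 0) - Pn n' Q * mw n (fun t => f (Cw n t))| ≤ ε ∧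
    |mw n (fun t => f (om • Cw n t)) - mw n (fun t => f (Cw n t))| ≤ ε

/-! ### Means over words -/

lemma mw_congr {n : ℕ} {f g : List Bool → ℝ} (h : ∀ t ∈ SawN n, f t = g t) : mw n f = mw n g := by
  unfold mw
  rw [Finset.sum_congr rfl fun t ht => h t (mem_wdN.1 ht)]

lemma mw_ind (n : ℕ) (Q : Set (List Bool)) : mw n (fun t => if t ∈ Q then 1 else 0) = Pn n Q := by
  unfold mw Pn
  congr 1
  rw [← Finset.sum_filter, Finset.sum_const, nsmul_eq_mul, mul_one, ← Set.ncard_coe_finset]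
  congr 2
  ext t
  simp only [Finset.coe_filter, Set.mem_ofPred_eq, mem_wdN]

lemma mw_dist {n : ℕ} (hn : 0 < n) {f g : List Bool → ℝ} {B : Set (List Bool)} (h : ∀ t ∈ SawN n, t ∉ B → f t = g t)
    (h1 : ∀ t ∈ SawN n, |f t - g t| ≤ 1) : |mw n f - mw n g| ≤ Pn n B := by
  have h0 := cS_pos hn
  rw [← mw_ind]
  unfold mw
  rw [← sub_div, ← Finset.sum_sub_distrib, abs_div, abs_of_pos h0]
  refine div_le_div_of_nonneg_right ((Finset.abs_sum_le_sum_abs _ _).trans (Finset.sum_le_sum fun t ht => ?_)) h0.le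
  by_cases hB : t ∈ B
  · rw [if_pos hB]
    exact h1 t (mem_wdN.1 ht)
  · rw [if_neg hB, h t (mem_wdN.1 ht) hB, sub_self, abs_zero]

lemma mw_one {n : ℕ} (hn : 0 < n) : mw n (fun _ => 1) = 1 := by
  have h0 := cS_pos hn
  unfold mw
  rw [Finset.sum_const, nsmul_eq_mul, mul_one, HexObs.TOG.card_wdN, div_self h0.ne']

lemma mw_le {n : ℕ} (hn : 0 < n) {f : List Bool → ℝ} (h : ∀ t, |f t| ≤ 1) : |mw n f| ≤ 1 := by
  have h0 := cS_pos hn
  unfold mw
  rw [abs_div, abs_of_pos h0, div_le_one h0]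
  refine (Finset.abs_sum_le_sum_abs _ _).trans ((Finset.sum_le_sum fun t _ => h t).trans ?_)
  rw [Finset.sum_const, nsmul_eq_mul, mul_one, HexObs.TOG.card_wdN]

/-! ### One rotation -/

/-- the event turned by a -/
def Wr (a : Fin 3) (W : Set (ℕ → Fin 3)) : Set (ℕ → Fin 3) := {w | (fun i => w i + a) ∈ W}

lemma Wr_loc {m : ℕ} {W : Set (ℕ → Fin 3)} (h : Loc m W) (a : Fin 3) : Loc m (Wr a W) := by
  intro w w' e hw
  exact h _ _ (fun i hi => by show w i + a = w' i + a; rw [e i hi]) hw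

/-- the exit from the ball -/
def Ex (b m : ℕ) : Set (List Bool) := {t | ∃ i, i ≤ m ∧ (2 : ℤ) ^ b ≤ hn (vx oo up t i)}

lemma not_Ex {b m n : ℕ} {t : List Bool} (ht : t ∈ SawN n) (hm : m ≤ n) {W : Set (ℕ → Fin 3)} (hW : Loc m W)
    (h : t ∉ Ex b m) : t ∈ StQ b m W ↔ ext (sw n t) ∈ W := by
  have h' : ∀ i, i ≤ m → hn (vx oo up t i) < 2 ^ b := by
    intro i hi
    by_contra hc
    exact h ⟨i, hi, not_lt.1 hc⟩
  constructor
  · rintro ⟨-, -, h3⟩
    exact (sw_take hW hm t).2 h3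
  · intro h3
    refine ⟨?_, h', (sw_take hW hm t).1 h3⟩
    rw [ht.1]
    exact hm

lemma Pn_near {n m b : ℕ} (hn : 0 < n) (hm : m ≤ n) {W : Set (ℕ → Fin 3)} (hW : Loc m W) :
    |Pn n (StQ b m W) - Pn n {t | ext (sw n t) ∈ W}| ≤ Pn n (Ex b m) := by
  rw [← mw_ind, ← mw_ind]
  refine mw_dist hn (fun t ht hB => ?_) (fun t _ => ?_)
  · have h := not_Ex ht hm hW hB
    by_cases h1 : t ∈ StQ b m W
    · rw [if_pos h1, if_pos (show t ∈ {t | ext (sw n t) ∈ W} from h.1 h1)]
    · rw [if_neg h1, if_neg (show t ∉ {t | ext (sw n t) ∈ W} from fun h2 => h1 (h.2 h2))]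
  · split_ifs <;> norm_num

/-- one rotation -/
lemma one_rot {n n' m b : ℕ} {e : ℝ} (hn : 0 < n) (hnn : n ≤ n') (hm : m ≤ n) {W : Set (ℕ → Fin 3)} (hW : Loc m W)
    {f : C(unitInterval, ℂ) → ℝ} {M : ℝ} (hf : ∀ γ, |f γ| ≤ 1) (hM : |M| ≤ 1)
    (h1 : |mw n (fun t => if t ∈ StQ b m W then f (Cw n t) else 0) - Pn n' (StQ b m W) * mw n (fun t => f (Cw n t))| ≤ e)
    (h2 : |mw n (fun t => f (Cw n t)) - M| ≤ 2 * e) (h3 : Pn n (Ex b m) ≤ e) (h4 : Pn n' (Ex b m) ≤ 2 * e) :
    |mw n (fun t => if ext (sw n t) ∈ W then f (Cw n t) else 0) - Pn n' {t | ext (sw n' t) ∈ W} * M| ≤ 6 * e := by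
  obtain ⟨X, hX⟩ : ∃ X : ℝ, X = mw n (fun t => if ext (sw n t) ∈ W then f (Cw n t) else 0) := ⟨_, rfl⟩
  obtain ⟨Y, hY⟩ : ∃ Y : ℝ, Y = mw n (fun t => if t ∈ StQ b m W then f (Cw n t) else 0) := ⟨_, rfl⟩
  obtain ⟨p, hp⟩ : ∃ p : ℝ, p = Pn n' (StQ b m W) := ⟨_, rfl⟩
  obtain ⟨q, hq⟩ : ∃ q : ℝ, q = Pn n' {t | ext (sw n' t) ∈ W} := ⟨_, rfl⟩
  obtain ⟨Z, hZ⟩ : ∃ Z : ℝ, Z = mw n (fun t => f (Cw n t)) := ⟨_, rfl⟩
  have g1 : |X - Y| ≤ e := by
    rw [hX, hY]
    refine (mw_dist hn (fun t ht hB => ?_) (fun t _ => ?_)).trans h3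
    · have h := not_Ex ht hm hW hB
      by_cases h1 : t ∈ StQ b m W
      · rw [if_pos h1, if_pos (h.1 h1)]
      · rw [if_neg h1, if_neg (fun h2 => h1 (h.2 h2))]
    · have hf1 := hf (Cw n t)
      split_ifs
      · rw [sub_self, abs_zero]
        exact zero_le_one
      · rw [sub_zero]
        exact hf1
      · rw [zero_sub, abs_neg]
        exact hf1
      · rw [sub_self, abs_zero]
        exact zero_le_one
  have g2 : |p - q| ≤ 2 * e := by
    rw [hp, hq]
    exact (Pn_near (by omega) (hm.trans hnn) hW).trans h4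
  have g3 : 0 ≤ p ∧ p ≤ 1 := by
    rw [hp, ← mw_ind]
    have h5 := mw_le (n := n') (by omega) (f := fun t => if t ∈ StQ b m W then (1 : ℝ) else 0)
      (fun t => by show |if t ∈ StQ b m W then (1 : ℝ) else 0| ≤ 1; split_ifs <;> norm_num)
    refine ⟨?_, (abs_le.1 h5).2⟩
    unfold mw
    exact div_nonneg (Finset.sum_nonneg fun t _ => by split_ifs <;> norm_num) (Nat.cast_nonneg _)
  rw [← hX, ← hq]
  rw [← hY, ← hp, ← hZ] at h1
  rw [← hZ] at h2
  have e1 : X - q * M = (X - Y) + (Y - p * Z) + p * (Z - M) + (p - q) * M := by ring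
  have g4 : |p * (Z - M)| ≤ 2 * e := by
    rw [abs_mul, abs_of_nonneg g3.1]
    have h0 := abs_nonneg (Z - M)
    nlinarith
  have g5 : |(p - q) * M| ≤ 2 * e := by
    rw [abs_mul]
    have h0 := abs_nonneg (p - q)
    have h0' := abs_nonneg M
    nlinarith
  rw [e1]
  calc |X - Y + (Y - p * Z) + p * (Z - M) + (p - q) * M|
      ≤ |X - Y| + |Y - p * Z| + |p * (Z - M)| + |(p - q) * M| :=
        (abs_add_le _ _).trans (add_le_add ((abs_add_le _ _).trans (add_le_add (abs_add_le _ _) le_rfl)) le_rfl)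
    _ ≤ 6 * e := by linarith

/-! ### One event -/

lemma law_mean {n m : ℕ} {W : Set (ℕ → Fin 3)} (hW : Loc m W) :
    (law n).real W = mean n (fun s => if ext s ∈ W then 1 else 0) := by
  rw [law_real hW]
  unfold mean
  rw [← Finset.sum_filter, Finset.sum_const, nsmul_eq_mul, mul_one]

lemma ext_rot_iff {n m : ℕ} (hm : m ≤ n) {W : Set (ℕ → Fin 3)} (hW : Loc m W) (s : Fin n → Fin 3) :
    (ext (rot s) ∈ W ↔ ext s ∈ Wr 1 W) ∧ (ext (rot (rot s)) ∈ W ↔ ext s ∈ Wr 2 W) := by
  have e1 : ∀ i, i < m → ext (rot s) i = ext s i + 1 := by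
    intro i hi
    rw [ext_lt _ (by omega), ext_lt _ (by omega)]
    rfl
  have e2 : ∀ i, i < m → ext (rot (rot s)) i = ext s i + 2 := by
    intro i hi
    rw [ext_lt _ (by omega), ext_lt _ (by omega)]
    show s ⟨i, _⟩ + 1 + 1 = s ⟨i, _⟩ + 2
    rw [add_assoc]
    rfl
  exact ⟨⟨hW _ _ e1, hW _ _ fun i hi => (e1 i hi).symm⟩, ⟨hW _ _ e2, hW _ _ fun i hi => (e2 i hi).symm⟩⟩

lemma Wr_zero (W : Set (ℕ → Fin 3)) : Wr 0 W = W := by
  ext w
  show (fun i => w i + 0) ∈ W ↔ w ∈ W
  simp only [add_zero]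

/-- the law of an event as the mean over the words and the rotations -/
lemma law_three {n m : ℕ} (hn : 0 < n) (hm : m ≤ n) {W : Set (ℕ → Fin 3)} (hW : Loc m W) :
    (law n).real W = (Pn n {t | ext (sw n t) ∈ Wr 0 W} + Pn n {t | ext (sw n t) ∈ Wr 1 W} +
      Pn n {t | ext (sw n t) ∈ Wr 2 W}) / 3 := by
  have e1 : mw n (fun t => if ext (rot (sw n t)) ∈ W then (1 : ℝ) else 0) =
      mw n (fun t => if t ∈ {t | ext (sw n t) ∈ Wr 1 W} then (1 : ℝ) else 0) :=
    mw_congr fun t _ => if_congr (ext_rot_iff hm hW (sw n t)).1 rfl rfl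
  have e2 : mw n (fun t => if ext (rot (rot (sw n t))) ∈ W then (1 : ℝ) else 0) =
      mw n (fun t => if t ∈ {t | ext (sw n t) ∈ Wr 2 W} then (1 : ℝ) else 0) :=
    mw_congr fun t _ => if_congr (ext_rot_iff hm hW (sw n t)).2 rfl rfl
  rw [law_mean hW, mean_words hn, ← mw_ind, ← mw_ind, ← mw_ind, Wr_zero, e1, e2]
  rfl

lemma mean_three {n m : ℕ} (hn : 0 < n) (hm : m ≤ n) {W : Set (ℕ → Fin 3)} (hW : Loc m W) (F : C(unitInterval, ℂ) → ℝ) :
    mean n (fun s => if ext s ∈ W then F (Res.curve s) else 0) =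
      (mw n (fun t => if ext (sw n t) ∈ Wr 0 W then F (Cw n t) else 0) +
       mw n (fun t => if ext (sw n t) ∈ Wr 1 W then F (om • Cw n t) else 0) +
       mw n (fun t => if ext (sw n t) ∈ Wr 2 W then F (om • (om • Cw n t)) else 0)) / 3 := by
  have e0 : mw n (fun t => if ext (sw n t) ∈ W then F (Res.curve (sw n t)) else 0) =
      mw n (fun t => if ext (sw n t) ∈ W then F (Cw n t) else 0) := mw_congr fun t _ => by rw [crv_sw]
  have e1 : mw n (fun t => if ext (rot (sw n t)) ∈ W then F (Res.curve (rot (sw n t))) else 0) =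
      mw n (fun t => if ext (sw n t) ∈ Wr 1 W then F (om • Cw n t) else 0) :=
    mw_congr fun t _ => by rw [crv_rot, crv_sw, if_congr (ext_rot_iff hm hW (sw n t)).1 rfl rfl]
  have e2 : mw n (fun t => if ext (rot (rot (sw n t))) ∈ W then F (Res.curve (rot (rot (sw n t)))) else 0) =
      mw n (fun t => if ext (sw n t) ∈ Wr 2 W then F (om • (om • Cw n t)) else 0) :=
    mw_congr fun t _ => by rw [crv_rot, crv_rot, crv_sw, if_congr (ext_rot_iff hm hW (sw n t)).2 rfl rfl]
  rw [mean_words hn, Wr_zero, e0, e1, e2]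

lemma norm_om' : ‖om‖ = 1 := NTSF.om_norm

lemma lip_om {K : NNReal} {F : C(unitInterval, ℂ) → ℝ} (hF : LipschitzWith K F) : LipschitzWith K fun γ => F (om • γ) := by
  refine LipschitzWith.of_dist_le_mul fun x y => (hF.dist_le_mul _ _).trans (mul_le_mul_of_nonneg_left ?_ K.2)
  refine (ContinuousMap.dist_le dist_nonneg).2 fun u => ?_
  have e : dist ((om • x) u) ((om • y) u) = dist (x u) (y u) := by
    show dist (om * x u) (om * y u) = _
    rw [dist_eq_norm, dist_eq_norm, ← mul_sub, norm_mul, norm_om', one_mul]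
  rw [e]
  exact ContinuousMap.dist_apply_le_dist u

/-- **one event** -/
theorem joint_event (hJ : JointM) {ε : ℝ} (K : NNReal) (hε : 0 < ε) : ∃ (δ : ℝ) (n0 : ℕ), 0 < δ ∧ δ ≤ 1 ∧ 1 ≤ n0 ∧
    ∀ n n' m : ℕ, n0 ≤ n → n ≤ n' → (m : ℝ) ≤ δ * n → ∀ F : C(unitInterval, ℂ) → ℝ, LipschitzWith K F → (∀ γ, |F γ| ≤ 1) →
      ∀ W : Set (ℕ → Fin 3), Loc m W → |mean n (fun s => if ext s ∈ W then F (Res.curve s) else 0) -
        (law n').real W * mean n (fun s => F (Res.curve s))| ≤ ε := by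
  obtain ⟨e, he⟩ : ∃ e : ℝ, e = ε / 8 := ⟨_, rfl⟩
  have he0 : 0 < e := by rw [he]; positivity
  obtain ⟨C, k0, hmix⟩ := hJ e K he0
  obtain ⟨δ, k1, hδ, hex⟩ := exitN' e C he0
  obtain ⟨n0, hn0⟩ := HexObs.TIP.NQ.ex_scale (max k0 (max k1 C))
  refine ⟨min δ 1, max n0 1, lt_min hδ one_pos, min_le_right _ _, le_max_right _ _,
    fun n n' m hn hnn hm F hF hF1 W hW => ?_⟩
  have hn1 : 0 < n := by
    have := (le_max_right _ _).trans hn
    omega
  obtain ⟨k, hk, s1, s2⟩ := hn0 n ((le_max_left _ _).trans hn)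
  have hkC : C ≤ k := ((le_max_right _ _).trans (le_max_right _ _)).trans hk
  have hn0' : (0 : ℝ) ≤ n := Nat.cast_nonneg _
  have hmn : m ≤ n := by
    have : (m : ℝ) ≤ n := hm.trans ((mul_le_mul_of_nonneg_right (min_le_right _ _) hn0').trans (by rw [one_mul]))
    exact_mod_cast this
  obtain ⟨b, hb⟩ : ∃ b, b = k - C := ⟨_, rfl⟩
  have hbC : b + C ≤ k := by omega
  have hk0 : k0 ≤ k := (le_max_left _ _).trans hk
  have h3 : Pn n (Ex b m) ≤ e := by
    have h := hex k n m (((le_max_left _ _).trans (le_max_right _ _)).trans hk) ⟨s1, s2⟩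
      (hm.trans (mul_le_mul_of_nonneg_right (min_le_left _ _) hn0'))
    rw [hb]
    exact h
  have key := fun (Q : Set (List Bool)) (hQ : StE b Q) (f : C(unitInterval, ℂ) → ℝ) (hf : LipschitzWith K f)
    (hf1 : ∀ γ, |f γ| ≤ 1) => hmix b k n n' hk0 hbC ⟨s1, s2⟩ hnn Q hQ f hf hf1
  -- the exit for n'
  have h4 : Pn n' (Ex b m) ≤ 2 * e := by
    have hU : Loc m (Set.univ : Set (ℕ → Fin 3)) := fun _ _ _ _ => Set.mem_univ _
    have g1 := (key _ (stE_StQ b m Set.univ) (fun _ => 1) ((LipschitzWith.const (1 : ℝ)).weaken bot_le)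
      (fun _ => by norm_num)).1
    have g2 : mw n (fun _ => (1 : ℝ)) = 1 := mw_one hn1
    rw [g2, mul_one, mw_ind] at g1
    have g3 := Pn_near (b := b) hn1 hmn hU
    have g4 : Pn n {t | ext (sw n t) ∈ (Set.univ : Set (ℕ → Fin 3))} = 1 := by
      rw [← mw_ind]
      exact (mw_congr fun t _ => if_pos (Set.mem_univ (ext (sw n t)))).trans g2
    rw [g4] at g3
    have g5 : Pn n' (Ex b m) + Pn n' (StQ b m Set.univ) ≤ 1 := by
      refine le_of_le_of_eq ?_ (mw_one (n := n') (by omega))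
      rw [← mw_ind, ← mw_ind]
      unfold mw
      rw [← add_div, ← Finset.sum_add_distrib]
      refine div_le_div_of_nonneg_right (Finset.sum_le_sum fun t _ => ?_) (Nat.cast_nonneg _)
      by_cases hE : t ∈ Ex b m
      · have hE' : t ∉ StQ b m Set.univ := by
          obtain ⟨i, i1, i2⟩ := hE
          rintro ⟨-, h5, -⟩
          exact absurd (h5 i i1) (not_lt.2 i2)
        rw [if_pos hE, if_neg hE', add_zero]
      · rw [if_neg hE, zero_add]
        split_ifs <;> norm_num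
    have g6 := (abs_le.1 g1).2
    have g7 := (abs_le.1 g3).1
    linarith
  -- the means of the rotations
  obtain ⟨M, hM⟩ : ∃ M : ℝ, M = mw n (fun t => F (Cw n t)) := ⟨_, rfl⟩
  have hM1 : |M| ≤ 1 := by
    rw [hM]
    exact mw_le hn1 fun t => hF1 _
  have hF2 : LipschitzWith K fun γ => F (om • γ) := lip_om hF
  have hF3 : LipschitzWith K fun γ => F (om • (om • γ)) := lip_om hF2
  have i1 : |mw n (fun t => F (om • Cw n t)) - M| ≤ e := by
    rw [hM]
    exact (key _ (stE_StQ b m Set.univ) F hF hF1).2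
  have i2 : |mw n (fun t => F (om • (om • Cw n t))) - M| ≤ 2 * e := by
    have h5 := (key _ (stE_StQ b m Set.univ) (fun γ => F (om • γ)) hF2 (fun γ => hF1 _)).2
    have e1 : mw n (fun t => F (om • (om • Cw n t))) - M =
        (mw n (fun t => F (om • (om • Cw n t))) - mw n (fun t => F (om • Cw n t))) + (mw n (fun t => F (om • Cw n t)) - M) := by
      ring
    rw [e1]
    refine (abs_add_le _ _).trans ?_
    linarith
  have a0 := one_rot (f := F) (M := M) hn1 hnn hmn (Wr_loc hW 0) hF1 hM1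
    (key _ (stE_StQ b m (Wr 0 W)) F hF hF1).1 (by rw [hM, sub_self, abs_zero]; positivity) h3 h4
  have a1 := one_rot (f := fun γ => F (om • γ)) (M := M) hn1 hnn hmn (Wr_loc hW 1) (fun γ => hF1 _) hM1
    (key _ (stE_StQ b m (Wr 1 W)) _ hF2 (fun γ => hF1 _)).1 (i1.trans (by linarith)) h3 h4
  have a2 := one_rot (f := fun γ => F (om • (om • γ))) (M := M) hn1 hnn hmn (Wr_loc hW 2) (fun γ => hF1 _) hM1
    (key _ (stE_StQ b m (Wr 2 W)) _ hF3 (fun γ => hF1 _)).1 i2 h3 h4
  have hU : Loc m (Set.univ : Set (ℕ → Fin 3)) := fun _ _ _ _ => Set.mem_univ _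
  have e0 : mean n (fun s => F (Res.curve s)) = (mw n (fun t => F (Cw n t)) + mw n (fun t => F (om • Cw n t)) +
      mw n (fun t => F (om • (om • Cw n t)))) / 3 := by
    have h5 := mean_three hn1 hmn hU F
    have h6 : ∀ a, Wr a (Set.univ : Set (ℕ → Fin 3)) = Set.univ := fun a => rfl
    simp only [h6, Set.mem_univ, if_true] at h5
    exact h5
  have hL : (law n').real W ≤ 1 := by
    have := law_prob (NTSF.saw_nonempty n')
    exact measureReal_le_one
  have hL0 : 0 ≤ (law n').real W := measureReal_nonneg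
  have b1 : |mean n (fun s => F (Res.curve s)) - M| ≤ e := by
    rw [e0, ← hM]
    have e1 : (M + mw n (fun t => F (om • Cw n t)) + mw n (fun t => F (om • (om • Cw n t)))) / 3 - M =
        ((mw n (fun t => F (om • Cw n t)) - M) + (mw n (fun t => F (om • (om • Cw n t))) - M)) / 3 := by ring
    rw [e1, abs_div]
    norm_num
    have := abs_add_le (mw n (fun t => F (om • Cw n t)) - M) (mw n (fun t => F (om • (om • Cw n t))) - M)
    linarith
  have b2 : |mean n (fun s => if ext s ∈ W then F (Res.curve s) else 0) - (law n').real W * M| ≤ 6 * e := by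
    rw [mean_three hn1 hmn hW F, law_three (by omega : 0 < n') (hmn.trans hnn) hW]
    have e1 : ∀ x y z p q r : ℝ, (x + y + z) / 3 - (p + q + r) / 3 * M = ((x - p * M) + (y - q * M) + (z - r * M)) / 3 := by
      intros
      ring
    rw [e1, abs_div]
    norm_num
    have h5 := abs_add_le ((mw n (fun t => if ext (sw n t) ∈ Wr 0 W then F (Cw n t) else 0) -
        Pn n' {t | ext (sw n' t) ∈ Wr 0 W} * M) + (mw n (fun t => if ext (sw n t) ∈ Wr 1 W then F (om • Cw n t) else 0) -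
        Pn n' {t | ext (sw n' t) ∈ Wr 1 W} * M)) (mw n (fun t => if ext (sw n t) ∈ Wr 2 W then F (om • (om • Cw n t)) else 0) -
        Pn n' {t | ext (sw n' t) ∈ Wr 2 W} * M)
    have h6 := abs_add_le (mw n (fun t => if ext (sw n t) ∈ Wr 0 W then F (Cw n t) else 0) -
        Pn n' {t | ext (sw n' t) ∈ Wr 0 W} * M) (mw n (fun t => if ext (sw n t) ∈ Wr 1 W then F (om • Cw n t) else 0) -
        Pn n' {t | ext (sw n' t) ∈ Wr 1 W} * M)
    linarith
  have e2 : mean n (fun s => if ext s ∈ W then F (Res.curve s) else 0) - (law n').real W * mean n (fun s => F (Res.curve s)) =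
      (mean n (fun s => if ext s ∈ W then F (Res.curve s) else 0) - (law n').real W * M) -
        (law n').real W * (mean n (fun s => F (Res.curve s)) - M) := by ring
  rw [e2]
  have b3 : |(law n').real W * (mean n (fun s => F (Res.curve s)) - M)| ≤ e := by
    rw [abs_mul, abs_of_nonneg hL0]
    have := abs_nonneg (mean n (fun s => F (Res.curve s)) - M)
    nlinarith
  have b4 := abs_sub (mean n (fun s => if ext s ∈ W then F (Res.curve s) else 0) - (law n').real W * M)
    ((law n').real W * (mean n (fun s => F (Res.curve s)) - M))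
  linarith

/-! ### The sum over the beginnings -/

lemma begins_iff {n m : ℕ} (hm : m ≤ n) (s : Fin n → Fin 3) (η : Fin m → Fin 3) :
    Begins s η ↔ η = fun i : Fin m => ext s i := by
  constructor
  · intro h
    funext j
    rw [ext_lt s (by omega : (j : ℕ) < n)]
    exact (h ⟨j, by omega⟩ j rfl).symm
  · rintro rfl i j hij
    show s i = ext s j
    rw [← hij, ext_lt s i.2]

lemma ext_self {m : ℕ} (η : Fin m → Fin 3) : (fun i : Fin m => ext η i) = η := by
  funext i
  exact ext_lt η i.2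

lemma sum_mean {n m : ℕ} (hm : m ≤ n) {W : Set (ℕ → Fin 3)} (hW : Loc m W) (F : C(unitInterval, ℂ) → ℝ) :
    ∑ η ∈ (Finset.univ : Finset (Fin m → Fin 3)).filter (fun η => ext η ∈ W),
      mean n (fun s => if Begins s η then F (Res.curve s) else 0) =
      mean n (fun s => if ext s ∈ W then F (Res.curve s) else 0) := by
  unfold mean
  rw [← Finset.sum_div, Finset.sum_comm]
  congr 1
  refine Finset.sum_congr rfl fun s _ => ?_
  have h1 : ∀ η : Fin m → Fin 3, (if Begins s η then F (Res.curve s) else 0) =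
      if (fun i : Fin m => ext s i) = η then F (Res.curve s) else 0 := fun η =>
    if_congr ((begins_iff hm s η).trans eq_comm) rfl rfl
  rw [Finset.sum_congr rfl fun η _ => h1 η, Finset.sum_ite_eq]
  have e : ∀ i, i < m → ext (fun i : Fin m => ext s i) i = ext s i := fun i hi => ext_lt _ hi
  by_cases h : ext s ∈ W
  · rw [if_pos (show (fun i : Fin m => ext s i) ∈ Finset.univ.filter (fun η => ext η ∈ W) from
      Finset.mem_filter.2 ⟨Finset.mem_univ _, hW _ _ (fun i hi => (e i hi).symm) h⟩)]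
    exact (if_pos h).symm
  · rw [if_neg (show (fun i : Fin m => ext s i) ∉ Finset.univ.filter (fun η => ext η ∈ W) from
      fun h2 => h (hW _ _ e (Finset.mem_filter.1 h2).2))]
    exact (if_neg h).symm

lemma sum_law {n m : ℕ} (hm : m ≤ n) {W : Set (ℕ → Fin 3)} (hW : Loc m W) :
    ∑ η ∈ (Finset.univ : Finset (Fin m → Fin 3)).filter (fun η => ext η ∈ W), begins n m (ext η) = (law n).real W := by
  have := law_prob (NTSF.saw_nonempty n)
  rw [hW.sum (law n)]
  exact Finset.sum_congr rfl fun η _ => (law_cyl hm _).symm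

/-- the sum over the beginnings, n and n' steps -/
theorem joint_sum (hJ : JointM) {ε : ℝ} (K : NNReal) (hε : 0 < ε) : ∃ (δ : ℝ) (n0 : ℕ), 0 < δ ∧ δ ≤ 1 ∧ 1 ≤ n0 ∧
    ∀ n n' m : ℕ, n0 ≤ n → n ≤ n' → (m : ℝ) ≤ δ * n → ∀ F : C(unitInterval, ℂ) → ℝ, LipschitzWith K F → (∀ γ, |F γ| ≤ 1) →
      ∑ η : Fin m → Fin 3, |mean n (fun s => if Begins s η then F (Res.curve s) else 0) -
        begins n' m (ext η) * mean n (fun s => F (Res.curve s))| ≤ ε := by
  obtain ⟨δ, n0, hδ, hδ1, hn0, hj⟩ := joint_event hJ K (half_pos hε)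
  refine ⟨δ, n0, hδ, hδ1, hn0, fun n n' m hn hnn hm F hF hF1 => ?_⟩
  have hmn : m ≤ n := by
    have h0 : (0 : ℝ) ≤ n := Nat.cast_nonneg _
    have : (m : ℝ) ≤ n := hm.trans ((mul_le_mul_of_nonneg_right hδ1 h0).trans (by rw [one_mul]))
    exact_mod_cast this
  have hmn' := hmn.trans hnn
  obtain ⟨M, hM⟩ : ∃ M : ℝ, M = mean n (fun s => F (Res.curve s)) := ⟨_, rfl⟩
  obtain ⟨d, hd⟩ : ∃ d : (Fin m → Fin 3) → ℝ, d = fun η => mean n (fun s => if Begins s η then F (Res.curve s) else 0) -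
    begins n' m (ext η) * M := ⟨_, rfl⟩
  obtain ⟨W, hWd⟩ : ∃ W : Set (ℕ → Fin 3), W = {w | 0 < d fun i : Fin m => w i} := ⟨_, rfl⟩
  have hW : Loc m W := by
    intro w w' e hw
    rw [hWd] at hw ⊢
    show 0 < d fun i : Fin m => w' i
    have e1 : (fun i : Fin m => w' i) = fun i : Fin m => w i := by
      funext i
      exact (e i i.2).symm
    rw [e1]
    exact hw
  have hmem : ∀ η : Fin m → Fin 3, ext η ∈ W ↔ 0 < d η := by
    intro η
    rw [hWd]
    show 0 < d (fun i : Fin m => ext η i) ↔ _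
    rw [ext_self]
  obtain ⟨V, hV⟩ : ∃ V : Set (ℕ → Fin 3), V = Wᶜ := ⟨_, rfl⟩
  have hVl : Loc m V := by
    rw [hV]
    exact hW.compl
  have hVm : ∀ w, w ∈ V ↔ w ∉ W := fun w => by rw [hV]; exact Iff.rfl
  have s1 := sum_mean hmn hW F
  have s2 := sum_law hmn' hW
  have s3 := sum_mean hmn hVl F
  have s4 := sum_law hmn' hVl
  have j1 := hj n n' m hn hnn hm F hF hF1 W hW
  have j2 := hj n n' m hn hnn hm F hF hF1 V hVl
  rw [← hM] at j1 j2
  have t1 : ∑ η ∈ (Finset.univ : Finset (Fin m → Fin 3)).filter (fun η => ext η ∈ W), d η =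
      mean n (fun s => if ext s ∈ W then F (Res.curve s) else 0) - (law n').real W * M := by
    rw [← s1, ← s2, Finset.sum_mul, ← Finset.sum_sub_distrib, hd]
  have t2 : ∑ η ∈ (Finset.univ : Finset (Fin m → Fin 3)).filter (fun η => ext η ∈ V), d η =
      mean n (fun s => if ext s ∈ V then F (Res.curve s) else 0) - (law n').real V * M := by
    rw [← s3, ← s4, Finset.sum_mul, ← Finset.sum_sub_distrib, hd]
  have t3 : ∑ η : Fin m → Fin 3, |d η| =
      ∑ η ∈ (Finset.univ : Finset (Fin m → Fin 3)).filter (fun η => ext η ∈ W), d η -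
        ∑ η ∈ (Finset.univ : Finset (Fin m → Fin 3)).filter (fun η => ext η ∈ V), d η := by
    have e0 : (Finset.univ : Finset (Fin m → Fin 3)).filter (fun η => ext η ∈ V) =
        (Finset.univ : Finset (Fin m → Fin 3)).filter (fun η => ¬ ext η ∈ W) :=
      Finset.filter_congr fun η _ => hVm _
    rw [e0]
    rw [← Finset.sum_filter_add_sum_filter_not Finset.univ (fun η : Fin m → Fin 3 => ext η ∈ W) (fun η => |d η|), sub_eq_add_neg,
      ← Finset.sum_neg_distrib]
    congr 1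
    · refine Finset.sum_congr rfl fun η hη => ?_
      rw [Finset.mem_filter] at hη
      exact abs_of_pos ((hmem η).1 hη.2)
    · refine Finset.sum_congr rfl fun η hη => ?_
      rw [Finset.mem_filter] at hη
      exact abs_of_nonpos (not_lt.1 fun h => hη.2 ((hmem η).2 h))
  have t4 : ∑ η : Fin m → Fin 3, |mean n (fun s => if Begins s η then F (Res.curve s) else 0) -
      begins n' m (ext η) * mean n (fun s => F (Res.curve s))| = ∑ η : Fin m → Fin 3, |d η| := by
    rw [hd, ← hM]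
  rw [t4, t3, t1, t2]
  have u1 := (abs_le.1 j1).2
  have u2 := (abs_le.1 j2).1
  linarith

/-- **the joint form of the coupling with the infinite walk** -/
theorem joint_of (hJ : JointM) {P : Measure (ℕ → Fin 3)} [IsProbabilityMeasure P]
    (hP : ∀ (η : ℕ → Fin 3) (m : ℕ), Tendsto (fun n => begins n m η) atTop (𝓝 (P.real {w | ∀ i, i < m → w i = η i})))
    {ε : ℝ} (K : NNReal) (hε : 0 < ε) : ∃ δ : ℝ, 0 < δ ∧ ∀ n m : ℕ, (m : ℝ) ≤ δ * n →
      ∀ F : C(unitInterval, ℂ) → ℝ, LipschitzWith K F → (∀ γ, |F γ| ≤ 1) →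
        ∑ η : Fin m → Fin 3, |mean n (fun s => if Begins s η then F (Res.curve s) else 0) -
          P.real {w | ∀ i : Fin m, w i = η i} * mean n (fun s => F (Res.curve s))| ≤ ε := by
  obtain ⟨δ, n0, hδ, hδ1, hn0, hcl⟩ := joint_sum hJ K hε
  have hn0' : (0 : ℝ) < n0 := by exact_mod_cast hn0
  refine ⟨min δ (1 / (2 * n0)), lt_min hδ (by positivity), fun n m hm F hF hF1 => ?_⟩
  have hnn : (0 : ℝ) ≤ n := Nat.cast_nonneg _
  have hcyl : ∀ η : Fin m → Fin 3, {w : ℕ → Fin 3 | ∀ i : Fin m, w i = η i} = {w | ∀ i, i < m → w i = ext η i} := by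
    intro η
    ext w
    constructor
    · intro h i hi
      rw [ext_lt η hi]
      exact h ⟨i, hi⟩
    · intro h i
      have := h i i.2
      rwa [ext_lt η i.2] at this
  rcases le_or_gt n0 n with h | h
  · have hlim : Tendsto (fun n' => ∑ η : Fin m → Fin 3, |mean n (fun s => if Begins s η then F (Res.curve s) else 0) -
        begins n' m (ext η) * mean n (fun s => F (Res.curve s))|) atTop
        (𝓝 (∑ η : Fin m → Fin 3, |mean n (fun s => if Begins s η then F (Res.curve s) else 0) -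
          P.real {w | ∀ i : Fin m, w i = η i} * mean n (fun s => F (Res.curve s))|)) := by
      refine tendsto_finsetSum _ fun η _ => (Tendsto.const_sub _ ((?_ : Tendsto (fun n' => begins n' m (ext η)) atTop
        (𝓝 (P.real {w | ∀ i : Fin m, w i = η i}))).mul_const _)).abs
      rw [hcyl η]
      exact hP (ext η) m
    refine le_of_tendsto hlim ?_
    filter_upwards [eventually_ge_atTop n] with n' hn'
    exact hcl n n' m h hn' (hm.trans (mul_le_mul_of_nonneg_right (min_le_left _ _) hnn)) F hF hF1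
  · -- m = 0
    have h1 : (m : ℝ) < 1 := by
      have h2 : (n : ℝ) < n0 := by exact_mod_cast h
      have h3 : (m : ℝ) ≤ 1 / (2 * n0) * n := hm.trans (mul_le_mul_of_nonneg_right (min_le_right _ _) hnn)
      have h4 : 1 / (2 * (n0 : ℝ)) * n ≤ 1 / (2 * n0) * n0 := mul_le_mul_of_nonneg_left h2.le (by positivity)
      have h5 : 1 / (2 * (n0 : ℝ)) * n0 = 1 / 2 := by field_simp
      linarith
    have h2 : m = 0 := by
      have : m < 1 := by exact_mod_cast h1
      omega
    subst h2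
    rw [Fintype.sum_unique]
    have h3 : ∀ (s : Fin n → Fin 3) (η : Fin 0 → Fin 3), Begins s η := fun s η i j => j.elim0
    have h4 : ∀ η : Fin 0 → Fin 3, {w : ℕ → Fin 3 | ∀ i : Fin 0, w i = η i} = Set.univ := by
      intro η
      ext w
      simp only [Set.mem_univ, iff_true]
      exact fun i => i.elim0
    simp only [h4, h3, if_true, probReal_univ, one_mul, sub_self, abs_zero]
    exact hε.le

end MC

end Pool.Agent.IW
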