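import Pool.Agent.MC.Joint
import Pool.Agent.MC.CoreZ
import Pool.Agent.MC.Pub2

/-!
MC, the joint form (helper83): **`jointM : JointM`** (the literal of the public side), no hypothesis.
-/

set_option autoImplicit false

open MeasureTheory Filter Topology
open scoped Classical

namespace Pool.Agent.IW

open Res

open HexObs (SawN cS)

open HexObs.TOG (Pn wdN mem_wdN)

open HexObs.MCP

open HexObs.TIW (sawF mem_sawF)

open NTSF (om)

open NTSF.Mg (pn cz pT pT_of_le)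

namespace MC

lemma mw_Eu (n : ℕ) (f : List Bool → ℝ) : mw n f = Eu n f := by
  have e : wdN n = sawF n := by
    ext t
    rw [mem_wdN, mem_sawF]
  unfold mw Eu
  rw [e]

lemma Eu_congr {n : ℕ} {f g : List Bool → ℝ} (h : ∀ t, t.length = n → f t = g t) : Eu n f = Eu n g := by
  unfold Eu
  rw [Finset.sum_congr rfl fun t ht => h t (mem_sawF.1 ht).1]

lemma Cw_pT {n : ℕ} {t : List Bool} (h : t.length = n) : Cw n t = pT 1 t n := by
  rw [pT_of_le h.ge]
  rfl

lemma Cw_pT' {n : ℕ} {t : List Bool} (h : t.length = n) : om • Cw n t = pT om t n := by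
  rw [Cw_pT h, ← pT_mul, mul_one]

/-- **the joint form on words** -/
theorem jointM : JointM := by
  intro ε K hε
  obtain ⟨Ca, ka, hJ⟩ := jointN (ε / 2) K (by positivity)
  obtain ⟨Cb, kb, hM⟩ := mixN (ε / 2) (by positivity)
  refine ⟨max Ca Cb, max ka kb, fun b k n n' hk hb hN hn Q hQ f hK hf => ?_⟩
  have ga : ka ≤ k := (le_max_left _ _).trans hk
  have gb : kb ≤ k := (le_max_right _ _).trans hk
  have ca : b + Ca ≤ k := (Nat.add_le_add_left (le_max_left _ _) b).trans hb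
  have cb : b + Cb ≤ k := (Nat.add_le_add_left (le_max_right _ _) b).trans hb
  obtain ⟨k', hk', hN'⟩ := sc_up hN hn
  obtain ⟨h1, h2⟩ := hJ b k n ga ca hN Q hQ f hK hf
  have h3 := hM b k k' n n' gb (gb.trans hk') cb (cb.trans hk') hN hN' Q hQ
  have e1 : mw n (fun t => if t ∈ Q then f (Cw n t) else 0) = Eu n (fun t => HexObs.TIP.ind (t ∈ Q) * f (pT 1 t n)) := by
    rw [mw_Eu]
    refine Eu_congr fun t ht => ?_
    rw [Cw_pT ht]
    by_cases h : t ∈ Q
    · rw [if_pos h, HexObs.TIP.ind_pos h, one_mul]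
    · rw [if_neg h, HexObs.TIP.ind_neg h, zero_mul]
  have e2 : mw n (fun t => f (Cw n t)) = Eu n (fun t => f (pT 1 t n)) := by
    rw [mw_Eu]
    exact Eu_congr fun t ht => by rw [Cw_pT ht]
  have e3 : mw n (fun t => f (om • Cw n t)) = Eu n (fun t => f (pT om t n)) := by
    rw [mw_Eu]
    exact Eu_congr fun t ht => by rw [Cw_pT' ht]
  rw [e1, e2, e3]
  refine ⟨?_, h2.trans (by linarith)⟩
  have h4 : |Eu n (fun t => f (pT 1 t n))| ≤ 1 := Eu_le fun t => hf _
  obtain ⟨X, hX⟩ : ∃ X, X = Eu n (fun t => HexObs.TIP.ind (t ∈ Q) * f (pT 1 t n)) := ⟨_, rfl⟩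
  obtain ⟨Z, hZ⟩ : ∃ Z, Z = Eu n (fun t => f (pT 1 t n)) := ⟨_, rfl⟩
  rw [← hX, ← hZ] at h1
  rw [← hZ] at h4
  rw [← hX, ← hZ]
  have e : X - Pn n' Q * Z = (X - Pn n Q * Z) + (Pn n Q - Pn n' Q) * Z := by ring
  rw [e]
  refine (abs_add_le _ _).trans ?_
  have h5 : |(Pn n Q - Pn n' Q) * Z| ≤ ε / 2 := by
    rw [abs_mul]
    calc _ ≤ ε / 2 * 1 := mul_le_mul h3 h4 (abs_nonneg _) (by positivity)
      _ = ε / 2 := mul_one _
  linarith

/-- **the joint form of the coupling with the infinite walk**, no hypothesis -/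
theorem joint {P : Measure (ℕ → Fin 3)} [IsProbabilityMeasure P]
    (hP : ∀ (η : ℕ → Fin 3) (m : ℕ), Tendsto (fun n => begins n m η) atTop (𝓝 (P.real {w | ∀ i, i < m → w i = η i})))
    {ε : ℝ} (K : NNReal) (hε : 0 < ε) : ∃ δ : ℝ, 0 < δ ∧ ∀ n m : ℕ, (m : ℝ) ≤ δ * n →
      ∀ F : C(unitInterval, ℂ) → ℝ, LipschitzWith K F → (∀ γ, |F γ| ≤ 1) →
        ∑ η : Fin m → Fin 3, |mean n (fun s => if Begins s η then F (Res.curve s) else 0) -
          P.real {w | ∀ i : Fin m, w i = η i} * mean n (fun s => F (Res.curve s))| ≤ ε := joint_of jointM hP K hε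

end MC

end Pool.Agent.IW
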