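import Pool.Agent.MC.Coup
import Pool.Agent.IW.ResJ
import Pool.Agent.NTS.MergeC

/-!
MC: the dictionary between the means over the walks with n steps and the means over the words (helper11).
-/

set_option autoImplicit false

open MeasureTheory Filter Topology
open scoped Classical

namespace Pool.Agent.IW

open Res

open HexObs (SawN cS Saw oo up vx dx tf tip xc vx_append)

open HexObs.TOG (Pn)

open NTSF (rot om)

open NTSF.Mg (pn cz nr poly_congr)

open HexObs.TOG (wdN mem_wdN)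

open NTF (JJ sw)

namespace MC

lemma crv_pn {n : ℕ} (s : Fin n → Fin 3) : Res.curve s = pn (Res.pos s) n := by
  have h0 : Res.pos s 0 = 0 := NTSF.pos_zero s
  have hstep : ∀ i : Fin n, Res.pos s ((i : ℕ) + 1) - Res.pos s (i : ℕ) = step (i : ℕ) (s i) := by
    intro i
    have h := NTSF.pos_succ s i i.2
    have h' : Res.pos s ((i : ℕ) + 1) = Res.pos s (i : ℕ) + step (i : ℕ) (s i) := h
    rw [h', add_sub_cancel_left]
  ext u
  have e1 : pn (Res.pos s) n u = ((nr n)⁻¹ : ℝ) • (Res.pos s 0 + ∑ i ∈ Finset.range n,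
      ((max 0 (min 1 ((u : ℝ) * n - i)) : ℝ) : ℂ) * (Res.pos s (i + 1) - Res.pos s i)) := rfl
  rw [e1, h0, zero_add, Finset.sum_range (fun i => ((max 0 (min 1 ((u : ℝ) * n - i)) : ℝ) : ℂ) * (Res.pos s (i + 1) - Res.pos s i))]
  show ∑ j : Fin n, ((max 0 (min 1 ((u : ℝ) * n - (j : ℕ))) : ℝ) : ℂ) * (step (j : ℕ) (s j) / ((n : ℝ) ^ (3 / 4 : ℝ) : ℝ)) = _
  rw [Finset.smul_sum]
  refine Finset.sum_congr rfl fun j _ => ?_
  rw [hstep j, Complex.real_smul]
  unfold nr
  push_cast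
  ring

lemma crv_word {n : ℕ} {s : Fin n → Fin 3} {c : ℂ} {t : List Bool} (h : ∀ k, k ≤ n → Res.pos s k = cz c t k) :
    Res.curve s = pn (cz c t) n := by
  rw [crv_pn]
  unfold pn
  rw [poly_congr h]

/-- the curve of the word with the first step up -/
noncomputable def Cw (n : ℕ) (t : List Bool) : C(unitInterval, ℂ) := pn (cz 1 t) n

lemma pn_om {n : ℕ} (c : ℂ) (t : List Bool) : pn (cz (om * c) t) n = om • pn (cz c t) n := by
  unfold pn
  ext u
  show ((nr n)⁻¹ : ℝ) • (cz (om * c) t 0 + ∑ i ∈ Finset.range n, ((max 0 (min 1 ((u : ℝ) * n - i)) : ℝ) : ℂ) *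
    (cz (om * c) t (i + 1) - cz (om * c) t i)) = om • (((nr n)⁻¹ : ℝ) • (cz c t 0 + ∑ i ∈ Finset.range n,
      ((max 0 (min 1 ((u : ℝ) * n - i)) : ℝ) : ℂ) * (cz c t (i + 1) - cz c t i)))
  have e : ∀ k, cz (om * c) t k = om * cz c t k := fun k => by unfold cz; ring
  rw [Complex.real_smul, Complex.real_smul, smul_eq_mul]
  have e2 : cz (om * c) t 0 + ∑ i ∈ Finset.range n, ((max 0 (min 1 ((u : ℝ) * n - i)) : ℝ) : ℂ) *
      (cz (om * c) t (i + 1) - cz (om * c) t i) = om * (cz c t 0 + ∑ i ∈ Finset.range n,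
      ((max 0 (min 1 ((u : ℝ) * n - i)) : ℝ) : ℂ) * (cz c t (i + 1) - cz c t i)) := by
    rw [mul_add, Finset.mul_sum, e 0]
    congr 1
    refine Finset.sum_congr rfl fun i _ => ?_
    rw [e, e]
    ring
  rw [e2]
  ring

lemma crv_sw {n : ℕ} (t : List Bool) : Res.curve (sw n t) = Cw n t := crv_word fun k hk => by
  have h : Res.pos (sw n t) k = JJ (vx oo up t k) := NTSF.pos_sw n t k hk
  rw [h]
  unfold cz
  rw [one_mul]

lemma crv_rot {n : ℕ} (s : Fin n → Fin 3) : Res.curve (rot s) = om • Res.curve s := by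
  rw [crv_pn, crv_pn]
  unfold pn
  ext u
  show ((nr n)⁻¹ : ℝ) • (Res.pos (rot s) 0 + ∑ i ∈ Finset.range n, ((max 0 (min 1 ((u : ℝ) * n - i)) : ℝ) : ℂ) *
    (Res.pos (rot s) (i + 1) - Res.pos (rot s) i)) = om • (((nr n)⁻¹ : ℝ) • (Res.pos s 0 + ∑ i ∈ Finset.range n,
      ((max 0 (min 1 ((u : ℝ) * n - i)) : ℝ) : ℂ) * (Res.pos s (i + 1) - Res.pos s i)))
  have e : ∀ k, Res.pos (rot s) k = om * Res.pos s k := fun k => NTSF.pos_rot s k
  rw [Complex.real_smul, Complex.real_smul, smul_eq_mul]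
  have e2 : Res.pos (rot s) 0 + ∑ i ∈ Finset.range n, ((max 0 (min 1 ((u : ℝ) * n - i)) : ℝ) : ℂ) *
      (Res.pos (rot s) (i + 1) - Res.pos (rot s) i) = om * (Res.pos s 0 + ∑ i ∈ Finset.range n,
      ((max 0 (min 1 ((u : ℝ) * n - i)) : ℝ) : ℂ) * (Res.pos s (i + 1) - Res.pos s i)) := by
    rw [mul_add, Finset.mul_sum, e 0]
    congr 1
    refine Finset.sum_congr rfl fun i _ => ?_
    rw [e, e]
    ring
  rw [e2]
  ring

/-- the mean over the words -/
noncomputable def mw (n : ℕ) (f : List Bool → ℝ) : ℝ := (∑ t ∈ wdN n, f t) / (cS n : ℝ)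

/-- **the mean over the walks = the mean over the words and the three rotations** -/
theorem mean_words {n : ℕ} (hn : 0 < n) (g : (Fin n → Fin 3) → ℝ) :
    mean n g = (mw n (fun t => g (sw n t)) + mw n (fun t => g (rot (sw n t))) + mw n (fun t => g (rot (rot (sw n t))))) / 3 := by
  have h1 := NTSF.Mg.sum_rot hn g
  have h2 := NTSF.Mg.sum_first hn fun s => g s + g (rot s) + g (rot (rot s))
  have h3 := NTSF.Mg.card_three hn
  have h4 : (2 : ℝ) * (saw n).card = 3 * cS n := by exact_mod_cast h3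
  have h5 := cS_pos hn
  have h6 : ((saw n).card : ℝ) = 3 / 2 * cS n := by linarith
  have h7 : ∑ s ∈ saw n, g s = 1 / 2 * ∑ t ∈ wdN n, (g (sw n t) + g (rot (sw n t)) + g (rot (rot (sw n t)))) := by
    have h8 : ∑ s ∈ saw n, g s = ∑ s ∈ (saw n).filter (fun s => s ⟨0, hn⟩ = 0), (g s + g (rot s) + g (rot (rot s))) := h1
    have h9 : ∑ t ∈ wdN n, (g (sw n t) + g (rot (sw n t)) + g (rot (rot (sw n t)))) =
        2 * ∑ s ∈ (saw n).filter (fun s => s ⟨0, hn⟩ = 0), (g s + g (rot s) + g (rot (rot s))) := h2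
    rw [h8, h9]
    ring
  unfold mean mw
  rw [h7, h6, Finset.sum_add_distrib, Finset.sum_add_distrib]
  field_simp

end MC

end Pool.Agent.IW
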