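import Pool.Agent.MC.Defs
import Pool.Agent.IW.PS
import Pool.Agent.SLW.SlowFin
import Pool.Agent.TIW.Lim
import Pool.Agent.TIW.Osc
import Pool.Agent.TIW.Tog

/-!
MC: events of the start of the walk hardly see a small even change of the number of steps (from `SLW.slowF`, no hypothesis); the
exit times (`exitN`, from the modulus of continuity).
-/

set_option autoImplicit false

namespace HexObs

namespace MCP

open Finset TS SDN TIW

open NTF (JJ)

lemma JJ_le_hn (p : Pt) : ‖JJ p‖ ≤ hn p := by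
  have h1 := NTF.JJ_norm p
  have h2 := nrm_le_hn p
  have h3 := hn_nonneg p
  have h4 : ((nrm p : ℤ) : ℝ) ≤ (hn p : ℝ) ^ 2 := by exact_mod_cast h2
  have h5 : ‖JJ p‖ ^ 2 ≤ (hn p : ℝ) ^ 2 := by
    rw [h1]
    exact h4
  exact (sq_le_sq₀ (norm_nonneg _) (by exact_mod_cast h3)).1 h5

lemma hn_le_JJ (p : Pt) : (hn p : ℝ) ≤ 2 * ‖JJ p‖ := by
  have h1 := NTF.JJ_norm p
  have h2 := hn_sq_le p
  have h3 := hn_nonneg p
  have h4 : (hn p : ℝ) ^ 2 ≤ 4 * ((nrm p : ℤ) : ℝ) := by exact_mod_cast h2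
  have h5 : (hn p : ℝ) ^ 2 ≤ (2 * ‖JJ p‖) ^ 2 := by
    rw [mul_pow, h1]
    linarith
  exact (sq_le_sq₀ (by exact_mod_cast h3) (by positivity)).1 h5

/-- large scales are large numbers of steps -/
lemma big_n (n0 : ℕ) : ∃ k0 : ℕ, ∀ k n : ℕ, k0 ≤ k → TIP.Sc k n → n0 ≤ n := by
  obtain ⟨c, hc, hlo⟩ := SIM.mlowZ
  obtain ⟨k0, hk0⟩ := exists_nat_ge ((n0 : ℝ) / c)
  refine ⟨k0, fun k n hk hn => ?_⟩
  have h1 : c * (2 : ℝ) ^ (4 / 3 * (k : ℝ)) ≤ n := (hlo k).trans hn.1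
  have h2 : (k : ℝ) ≤ (2 : ℝ) ^ (4 / 3 * (k : ℝ)) := by
    have h3 : (k : ℝ) ≤ (2 : ℝ) ^ (k : ℕ) := by exact_mod_cast Nat.lt_two_pow_self.le
    refine h3.trans ?_
    rw [← Real.rpow_natCast]
    refine Real.rpow_le_rpow_of_exponent_le (by norm_num) ?_
    have : (0 : ℝ) ≤ k := Nat.cast_nonneg k
    linarith
  have h4 : (n0 : ℝ) ≤ c * k := by
    have h5 : (k0 : ℝ) ≤ k := by exact_mod_cast hk
    have h6 := hk0.trans h5
    rw [div_le_iff₀ hc] at h6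
    linarith
  have h5 : (n0 : ℝ) ≤ n := by
    refine h4.trans (le_trans ?_ h1)
    exact mul_le_mul_of_nonneg_left h2 hc.le
  exact_mod_cast h5

/-- the end of the walk is not near its start -/
theorem tip_far {e : ℝ} (he : 0 < e) : ∃ c k0 : ℕ, ∀ k n : ℕ, k0 ≤ k → TIP.Sc k n →
    TOG.Pn n {t | hn (en t) < 2 ^ (k - c)} ≤ e := by
  obtain ⟨c1, hc1, n0, h⟩ := TIP.NQ.ps (θ := 1 / 2) (e := e) (by norm_num) he
  obtain ⟨a, A, ha, hA, hpow⟩ := TIP.NQ.scale_pow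
  obtain ⟨k0, hk0⟩ := big_n (max n0 1)
  obtain ⟨c, hc⟩ := pow_unbounded_of_one_lt (1 / (c1 * a)) (one_lt_two)
  refine ⟨c, max k0 c, fun k n hk hN => ?_⟩
  have hn1 := hk0 k n ((le_max_left _ _).trans hk) hN
  have hk1 : c ≤ k := (le_max_right _ _).trans hk
  have hn0 : n0 ≤ n := (le_max_left _ _).trans hn1
  have hn' : 1 ≤ n := (le_max_right _ _).trans hn1
  refine le_trans (TIP.Nf.Pn_mono fun t ht h2 => ?_) (h n hn0)
  refine ⟨n, ?_, le_rfl, ?_⟩
  · have : (0 : ℝ) ≤ n := Nat.cast_nonneg n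
    linarith
  · have e1 : vx oo up t n = en t := by
      unfold en
      rw [ht.1]
    rw [e1]
    refine (JJ_le_hn _).trans ?_
    have h3 : (hn (en t) : ℝ) < 2 ^ (k - c) := by
      have h4 : hn (en t) < 2 ^ (k - c) := h2
      exact_mod_cast h4
    have h4 : (2 : ℝ) ^ (k - c) * 2 ^ c = 2 ^ k := by
      rw [← pow_add, Nat.sub_add_cancel hk1]
    have h5 := (hpow k n hN.1 hN.2).1
    have h6 : 1 < c1 * a * 2 ^ c := by
      rw [div_lt_iff₀ (by positivity)] at hc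
      linarith
    have h7 : (2 : ℝ) ^ (k - c) ≤ c1 * a * 2 ^ k := by
      rw [← h4]
      have : (0 : ℝ) < 2 ^ (k - c) := by positivity
      nlinarith
    calc (hn (en t) : ℝ) ≤ 2 ^ (k - c) := h3.le
      _ ≤ c1 * (a * 2 ^ k) := by linarith
      _ ≤ c1 * (n : ℝ) ^ (3 / 4 : ℝ) := mul_le_mul_of_nonneg_left h5 hc1.le

/-- **the exit times** -/
theorem exitN : ExitN := by
  intro ε c hε
  obtain ⟨a, A, ha, hA, hpow⟩ := TIP.NQ.scale_pow
  -- r n^(3/4) <= r A 2^k <= 2^(k - c) / 2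
  obtain ⟨θ, hθ, n0, h⟩ := TIP.NQ.pf (r := 1 / (A * 2 ^ (c + 1))) (e := ε) (by positivity) hε
  obtain ⟨k0, hk0⟩ := big_n n0
  refine ⟨min θ 1, max k0 c, lt_min hθ one_pos, fun k n m hk hN hm => ?_⟩
  have hn1 := hk0 k n ((le_max_left _ _).trans hk) hN
  have hk1 : c ≤ k := (le_max_right _ _).trans hk
  refine le_trans (TIP.Nf.Pn_mono fun t ht h2 => ?_) (h n hn1)
  obtain ⟨i, hi, h3⟩ := h2
  have hn0 : (0 : ℝ) ≤ n := Nat.cast_nonneg n
  have hi' : (i : ℝ) ≤ m := by exact_mod_cast hi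
  refine ⟨i, hi'.trans (hm.trans (mul_le_mul_of_nonneg_right (min_le_left _ _) hn0)), ?_, ?_⟩
  · have h4 : (i : ℝ) ≤ n := hi'.trans (hm.trans (le_trans (mul_le_mul_of_nonneg_right (min_le_right _ _) hn0) (by rw [one_mul])))
    exact_mod_cast h4
  · have h4 := (hpow k n hN.1 hN.2).2
    have h5 : (2 : ℝ) ^ (k - c) ≤ 2 * ‖JJ (vx oo up t i)‖ := by
      refine le_trans ?_ (hn_le_JJ _)
      exact_mod_cast h3
    have h6 : (2 : ℝ) ^ (k - c) * 2 ^ c = 2 ^ k := by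
      rw [← pow_add, Nat.sub_add_cancel hk1]
    calc 1 / (A * 2 ^ (c + 1)) * (n : ℝ) ^ (3 / 4 : ℝ) ≤ 1 / (A * 2 ^ (c + 1)) * (A * 2 ^ k) :=
          mul_le_mul_of_nonneg_left h4 (by positivity)
      _ = 2 ^ (k - c) / 2 := by
          rw [← h6, pow_succ]
          field_simp
      _ ≤ ‖JJ (vx oo up t i)‖ := by linarith

/-! ### the cut-off of the end -/

/-- the cut-off of the end -/
noncomputable def psi (R : ℝ) (t : List Bool) : ℝ := max 0 (min 1 ((hn (en t) : ℝ) / R - 1))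

lemma psi_nonneg (R : ℝ) (t : List Bool) : 0 ≤ psi R t := le_max_left _ _

lemma psi_le_one (R : ℝ) (t : List Bool) : psi R t ≤ 1 := max_le zero_le_one (min_le_left _ _)

lemma psi_zero {R : ℝ} (hR : 0 < R) {t : List Bool} (h : (hn (en t) : ℝ) ≤ R) : psi R t = 0 := by
  unfold psi
  refine max_eq_left ((min_le_right _ _).trans ?_)
  rw [sub_nonpos, div_le_one hR]
  exact h

lemma psi_one {R : ℝ} (hR : 0 < R) {t : List Bool} (h : 2 * R ≤ hn (en t)) : psi R t = 1 := by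
  unfold psi
  have h1 : 1 ≤ (hn (en t) : ℝ) / R - 1 := by
    rw [le_sub_iff_add_le, le_div_iff₀ hR]
    linarith
  rw [min_eq_left h1, max_eq_right zero_le_one]

lemma psi_lip {R : ℝ} (hR : 0 < R) (t t' : List Bool) : |psi R t - psi R t'| ≤ |(hn (en t) : ℝ) - hn (en t')| / R := by
  unfold psi
  refine (abs_max_sub_max_le_max _ _ _ _).trans ?_
  rw [sub_self, abs_zero, max_eq_right (abs_nonneg _)]
  refine (abs_min_sub_min_le_max _ _ _ _).trans ?_
  rw [sub_self, abs_zero, max_eq_right (abs_nonneg _), sub_sub_sub_cancel_right, ← sub_div, abs_div, abs_of_pos hR]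

lemma hn_app (A Y : List Bool) : |(hn (en (A ++ Y)) : ℝ) - hn (en A)| ≤ hn (en Y) := by
  have h1 : hn (en (A ++ Y)) ≤ hn (en A) + hn (en Y) := by
    rw [en_app, ← hn_mulE (nrm_rt A) (en Y)]
    exact hn_add _ _
  have h2 : hn (en A) ≤ hn (en (A ++ Y)) + hn (en Y) := by
    have h3 := hn_sub (en (A ++ Y)) (mulE (rt A) (en Y))
    rw [hn_mulE (nrm_rt A)] at h3
    have h4 : en (A ++ Y) - mulE (rt A) (en Y) = en A := by
      rw [en_app, add_sub_cancel_right]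
    rw [h4] at h3
    exact h3
  rw [abs_le]
  constructor
  · have : (hn (en A) : ℝ) ≤ hn (en (A ++ Y)) + hn (en Y) := by exact_mod_cast h2
    linarith
  · have : (hn (en (A ++ Y)) : ℝ) ≤ hn (en A) + hn (en Y) := by exact_mod_cast h1
    linarith

/-- an event of the start with the cut-off of the end hardly sees a small end -/
lemma F_rob {b : ℕ} {Q : Set (List Bool)} (hQ : StE b Q) {R τ : ℝ} {r : ℕ} (hb : (2 : ℝ) ^ b + r ≤ R) (hr : (r : ℝ) ≤ τ * R)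
    {A Y : List Bool} (hA : A ++ Y ∈ SA) (hY : ∀ i, i ≤ Y.length → hn (vx oo up Y i) < r) :
    |TIP.ind (A ++ Y ∈ Q) * psi R (A ++ Y) - TIP.ind (A ∈ Q) * psi R A| ≤ τ := by
  have hR : 0 < R := lt_of_lt_of_le (by positivity) hb
  have h0 : (hn (en Y) : ℝ) < r := by
    have := hY Y.length le_rfl
    exact_mod_cast this
  have h1 := hn_app A Y
  have h2 : |psi R (A ++ Y) - psi R A| ≤ τ := by
    refine (psi_lip hR _ _).trans ?_
    rw [div_le_iff₀ hR]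
    linarith
  rcases le_or_gt ((2 : ℤ) ^ b) (hn (en A)) with h | h
  · rw [TIP.ind_congr (hQ A Y hA h), ← mul_sub, abs_mul, abs_of_nonneg (TIP.ind_nonneg _)]
    calc TIP.ind (A ∈ Q) * |psi R (A ++ Y) - psi R A| ≤ 1 * τ :=
          mul_le_mul (TIP.ind_le_one _) h2 (abs_nonneg _) zero_le_one
      _ = τ := one_mul _
  · have h3 : (hn (en A) : ℝ) < 2 ^ b := by exact_mod_cast h
    have h4 := (abs_le.1 h1).2
    have hr0 : (0 : ℝ) ≤ r := Nat.cast_nonneg r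
    rw [psi_zero hR (by linarith), psi_zero hR (by linarith), mul_zero, mul_zero, sub_zero, abs_zero]
    exact (abs_nonneg _).trans h2

/-- the mean of a function over the words with n letters -/
noncomputable def Eu (n : ℕ) (F : List Bool → ℝ) : ℝ := (∑ t ∈ sawF n, F t) / cS n

lemma Eu_mono {n : ℕ} {F G : List Bool → ℝ} (h : ∀ t, F t ≤ G t) : Eu n F ≤ Eu n G :=
  div_le_div_of_nonneg_right (sum_le_sum fun t _ => h t) (Nat.cast_nonneg _)

lemma Eu_sub (n : ℕ) (F G : List Bool → ℝ) : Eu n (fun t => F t - G t) = Eu n F - Eu n G := by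
  unfold Eu
  rw [sum_sub_distrib, sub_div]

lemma Eu_abs (n : ℕ) (F : List Bool → ℝ) : |Eu n F| ≤ Eu n (fun t => |F t|) := by
  unfold Eu
  rw [abs_div, abs_of_nonneg (Nat.cast_nonneg (cS n) : (0 : ℝ) ≤ _)]
  exact div_le_div_of_nonneg_right (abs_sum_le_sum_abs _ _) (Nat.cast_nonneg _)

lemma cS0 (n : ℕ) : (0 : ℝ) < cS n := by exact_mod_cast TOG.cS_pos n

lemma Eu_one (n : ℕ) : Eu n (fun _ => 1) = 1 := by
  unfold Eu
  rw [sum_const, nsmul_eq_mul, mul_one, card_sawF, div_self (cS0 n).ne']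

lemma Eu_le {n : ℕ} {F : List Bool → ℝ} (h : ∀ t, |F t| ≤ 1) : |Eu n F| ≤ 1 :=
  (Eu_abs n F).trans ((Eu_mono h).trans (Eu_one n).le)

lemma Pn_Eu (n : ℕ) (Q : Set (List Bool)) : TOG.Pn n Q = Eu n (fun t => TIP.ind (t ∈ Q)) := by
  rw [Pn_eq]
  unfold Eu
  rw [← mul_sum, one_div, div_eq_inv_mul]

/-- the slow change for the means -/
lemma slow_E {n h : ℕ} {F : List Bool → ℝ} {e : ℝ} (hF : ∀ t, |F t| ≤ 1)
    (h1 : |xc ^ (n + h) * ∑ t ∈ sawF (n + h), F t - xc ^ n * ∑ t ∈ sawF n, F t| ≤ e * (cS n * xc ^ n))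
    (h2 : |xc ^ (n + h) * ∑ _t ∈ sawF (n + h), (1 : ℝ) - xc ^ n * ∑ _t ∈ sawF n, (1 : ℝ)| ≤ e * (cS n * xc ^ n)) :
    |Eu (n + h) F - Eu n F| ≤ 2 * e := by
  obtain ⟨a, ha⟩ : ∃ a : ℝ, a = cS (n + h) * xc ^ (n + h) := ⟨_, rfl⟩
  obtain ⟨a', ha'⟩ : ∃ a' : ℝ, a' = cS n * xc ^ n := ⟨_, rfl⟩
  have hx := xc_pos
  have c1 := cS0 (n + h)
  have c2 := cS0 n
  have ha0 : 0 < a' := by
    rw [ha']
    positivity
  have e1 : xc ^ (n + h) * ∑ t ∈ sawF (n + h), F t = a * Eu (n + h) F := by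
    rw [ha]
    unfold Eu
    field_simp
  have e2 : xc ^ n * ∑ t ∈ sawF n, F t = a' * Eu n F := by
    rw [ha']
    unfold Eu
    field_simp
  have e3 : xc ^ (n + h) * ∑ _t ∈ sawF (n + h), (1 : ℝ) = a := by
    rw [ha, sum_const, card_sawF, nsmul_eq_mul, mul_one, mul_comm]
  have e4 : xc ^ n * ∑ _t ∈ sawF n, (1 : ℝ) = a' := by
    rw [ha', sum_const, card_sawF, nsmul_eq_mul, mul_one, mul_comm]
  rw [e1, e2, ← ha'] at h1
  rw [e3, e4, ← ha'] at h2
  have h3 : a' * |Eu (n + h) F - Eu n F| ≤ a' * (2 * e) := by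
    have h4 : a' * |Eu (n + h) F - Eu n F| = |(a' - a) * Eu (n + h) F + (a * Eu (n + h) F - a' * Eu n F)| := by
      rw [← abs_of_pos ha0, ← abs_mul, abs_of_pos ha0]
      congr 1
      ring
    have h5 : |(a' - a) * Eu (n + h) F| ≤ e * a' := by
      rw [abs_mul, abs_sub_comm]
      calc |a - a'| * |Eu (n + h) F| ≤ e * a' * 1 :=
            mul_le_mul h2 (Eu_le hF) (abs_nonneg _) ((abs_nonneg _).trans h2)
        _ = e * a' := mul_one _
    rw [h4]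
    refine (abs_add_le _ _).trans ?_
    linarith
  exact le_of_mul_le_mul_left h3 ha0

lemma F_le (Q : Set (List Bool)) (R : ℝ) (t : List Bool) : |TIP.ind (t ∈ Q) * psi R t| ≤ 1 := by
  rw [abs_mul, abs_of_nonneg (TIP.ind_nonneg _), abs_of_nonneg (psi_nonneg _ _)]
  exact mul_le_one₀ (TIP.ind_le_one _) (psi_nonneg _ _) (psi_le_one _ _)

/-- the cut-off costs only the walks with a near end -/
lemma cut_cost (n : ℕ) (Q : Set (List Bool)) (R : ℝ) :
    |TOG.Pn n Q - Eu n (fun t => TIP.ind (t ∈ Q) * psi R t)| ≤ 1 - Eu n (psi R) := by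
  rw [Pn_Eu, ← Eu_sub]
  refine (Eu_abs _ _).trans ?_
  have e : 1 - Eu n (psi R) = Eu n (fun t => 1 - psi R t) := by rw [Eu_sub, Eu_one]
  rw [e]
  refine Eu_mono fun t => ?_
  have h1 := psi_le_one R t
  have e1 : TIP.ind (t ∈ Q) - TIP.ind (t ∈ Q) * psi R t = TIP.ind (t ∈ Q) * (1 - psi R t) := by ring
  rw [e1, abs_mul, abs_of_nonneg (TIP.ind_nonneg _), abs_of_nonneg (by linarith : 0 ≤ 1 - psi R t)]
  calc TIP.ind (t ∈ Q) * (1 - psi R t) ≤ 1 * (1 - psi R t) :=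
        mul_le_mul_of_nonneg_right (TIP.ind_le_one _) (by linarith)
    _ = 1 - psi R t := one_mul _

/-- **events of the start hardly see a small even change of the number of steps** -/
theorem slow_st {ε : ℝ} (hε : 0 < ε) : ∃ C q k0 : ℕ, ∀ b k n h : ℕ, k0 ≤ k → b + C ≤ k → TIP.Sc k n → Even h →
    h * 2 ^ q ≤ n → ∀ Q : Set (List Bool), StE b Q → |TOG.Pn (n + h) Q - TOG.Pn n Q| ≤ ε := by
  obtain ⟨τ, hτ, hS⟩ := SLW.slowF (ε / 8) (by positivity)
  obtain ⟨c3, k3, h3⟩ := tip_far (e := ε / 8) (by positivity)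
  obtain ⟨j, hj⟩ := pow_unbounded_of_one_lt (1 / τ) (one_lt_two)
  obtain ⟨c2, k2, hS⟩ := hS (c3 + 2 + j)
  refine ⟨c3 + 2, c2, max (max k3 k2) (c3 + 2 + j), fun b k n h hk hb hN hh hq Q hQ => ?_⟩
  have g1 : k3 ≤ k := ((le_max_left _ _).trans (le_max_left _ _)).trans hk
  have g2 : k2 ≤ k := ((le_max_right _ _).trans (le_max_left _ _)).trans hk
  have g3 : c3 + 2 + j ≤ k := (le_max_right _ _).trans hk
  obtain ⟨R, hR⟩ : ∃ R : ℝ, R = 2 ^ (k - c3 - 1) := ⟨_, rfl⟩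
  have hR0 : 0 < R := by rw [hR]; positivity
  have e1 : (2 : ℝ) ^ (k - c3) = 2 * R := by
    rw [hR, ← pow_succ']
    congr 1
    omega
  have e2 : R = 2 * 2 ^ (k - c3 - 2) := by
    rw [hR, ← pow_succ']
    congr 1
    omega
  have e3 : (2 : ℝ) ^ (k - c3 - 2) = 2 ^ j * 2 ^ (k - (c3 + 2 + j)) := by
    rw [← pow_add]
    congr 1
    omega
  have hr : (((2 ^ (k - (c3 + 2 + j)) : ℕ) : ℝ)) ≤ τ * R := by
    have h4 : 1 < τ * 2 ^ j := by
      rw [div_lt_iff₀ hτ] at hj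
      linarith
    have h5 : (0 : ℝ) < 2 ^ (k - (c3 + 2 + j)) := by positivity
    push_cast
    rw [e2, e3]
    nlinarith
  have hbR : (2 : ℝ) ^ b + ((2 ^ (k - (c3 + 2 + j)) : ℕ) : ℝ) ≤ R := by
    have h4 : (2 : ℝ) ^ b ≤ 2 ^ (k - c3 - 2) := pow_le_pow_right₀ (by norm_num) (by omega)
    have h5 : (2 : ℝ) ^ (k - (c3 + 2 + j)) ≤ 2 ^ (k - c3 - 2) := pow_le_pow_right₀ (by norm_num) (by omega)
    push_cast
    rw [e2]
    linarith
  have hone := hS k n h g2 hN hh hq (fun _ => 1) (fun _ => by rw [abs_one]) (fun A Y _ _ => by rw [sub_self, abs_zero]; exact hτ.le)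
  have key : ∀ Q : Set (List Bool), StE b Q →
      |Eu (n + h) (fun t => TIP.ind (t ∈ Q) * psi R t) - Eu n (fun t => TIP.ind (t ∈ Q) * psi R t)| ≤ 2 * (ε / 8) := by
    intro Q hQ
    refine slow_E (F_le Q R) (hS k n h g2 hN hh hq _ (F_le Q R) fun A Y hA hY => ?_) hone
    exact F_rob hQ hbR hr hA (fun i hi => by have := hY i hi; push_cast; exact this)
  have hU : StE b Set.univ := fun P Y _ _ => ⟨fun _ => Set.mem_univ _, fun _ => Set.mem_univ _⟩
  have k1 := key Q hQ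
  have k2' := key Set.univ hU
  have e4 : (fun t : List Bool => TIP.ind (t ∈ (Set.univ : Set (List Bool))) * psi R t) = psi R := by
    funext t
    rw [TIP.ind_pos (Set.mem_univ t), one_mul]
  rw [e4] at k2'
  have c1 := cut_cost n Q R
  have c2' := cut_cost (n + h) Q R
  have c3' : 1 - Eu n (psi R) ≤ ε / 8 := by
    refine le_trans ?_ (h3 k n g1 hN)
    rw [Pn_Eu, ← Eu_one n, ← Eu_sub]
    refine Eu_mono fun t => ?_
    by_cases ht : hn (en t) < 2 ^ (k - c3)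
    · rw [TIP.ind_pos (show t ∈ {t | hn (en t) < 2 ^ (k - c3)} from ht)]
      linarith [psi_nonneg R t]
    · have h5 : 2 * R ≤ hn (en t) := by
        rw [← e1]
        push Not at ht
        exact_mod_cast ht
      rw [psi_one hR0 h5, sub_self]
      exact TIP.ind_nonneg _
  have a1 := abs_le.1 k1
  have a2 := abs_le.1 k2'
  have a3 := abs_le.1 c1
  have a4 := abs_le.1 c2'
  rw [abs_le]
  constructor
  · linarith [a1.1, a2.1, a3.2, a4.1]
  · linarith [a1.2, a2.1, a3.1, a4.2]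

end MCP

end HexObs
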