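import Pool.Agent.MC.ZoT
import Pool.Agent.MC.Pub2

/-!
MC, the zero-one law of the infinite self-avoiding walk (helper83): **`zero_one`**: every event that does not see the removal of
the first two steps has probability 0 or 1.
-/

set_option autoImplicit false

open MeasureTheory Filter Topology
open scoped Classical

namespace Pool.Agent.IW

open Res

open HexObs (SawN cS Saw oo up vx dx tf tip xc vx_append)

open HexObs.TOG (Pn)

open HexObs.MCP

open HexObs.TIW (en hn)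

open NTF (sw)

namespace MC

/-! ### Approximation by local events -/

lemma loc_cyl {B : Set (ℕ → Fin 3)} (hB : B ∈ measurableCylinders fun _ : ℕ => Fin 3) : ∃ m : ℕ, Loc m B := by
  obtain ⟨s, S, -, rfl⟩ := (mem_measurableCylinders _).1 hB
  refine ⟨s.sup id + 1, fun w w' e hw => ?_⟩
  have h : s.restrict w = s.restrict w' := by
    funext i
    exact e i (lt_of_le_of_lt (Finset.le_sup (f := id) i.2) (Nat.lt_succ_self _))
  rw [mem_cylinder] at hw ⊢
  rwa [← h]

lemma approx (ν : Measure (ℕ → Fin 3)) [IsFiniteMeasure ν] {A : Set (ℕ → Fin 3)} (hA : MeasurableSet A) {δ : ℝ} (hδ : 0 < δ) :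
    ∃ (m : ℕ) (B : Set (ℕ → Fin 3)), Loc m B ∧ ν.real (symmDiff B A) ≤ δ := by
  obtain ⟨B, hB, h⟩ := exists_measure_symmDiff_lt_of_generateFrom_isSetRing (μ := ν)
    (isSetRing_measurableCylinders (α := fun _ : ℕ => Fin 3))
    ⟨{Set.univ}, Set.countable_singleton _, by
      rw [Set.singleton_subset_iff]
      exact univ_mem_measurableCylinders _, by simp⟩ generateFrom_measurableCylinders.symm hA (ε := ENNReal.ofReal δ)
    (by rwa [ENNReal.ofReal_pos])
  obtain ⟨m, hm⟩ := loc_cyl hB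
  exact ⟨m, B, hm, ENNReal.toReal_le_of_le_ofReal hδ.le h.le⟩

/-! ### Shifts and rotations -/

/-- the first j steps removed, turned by r -/
def Tj (j : ℕ) (r : Fin 3) (w : ℕ → Fin 3) : ℕ → Fin 3 := fun i => w (j + i) + r

lemma meas_Tj (j : ℕ) (r : Fin 3) : Measurable (Tj j r) :=
  measurable_pi_lambda _ fun i => (Measurable.of_discrete (f := fun x : Fin 3 => x + r)).comp (measurable_pi_apply (j + i))

variable {P : Measure (ℕ → Fin 3)} [IsProbabilityMeasure P]

lemma map_rot (hP : ∀ (η : ℕ → Fin 3) (m : ℕ), Tendsto (fun n => begins n m η) atTop (𝓝 (P.real {w | ∀ i, i < m → w i = η i}))) :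
    P.map (Tj 0 1) = P := by
  have : IsProbabilityMeasure (P.map (Tj 0 1)) := Measure.isProbabilityMeasure_map (meas_Tj 0 1).aemeasurable
  refine ext_of_generate_finite (measurableCylinders fun _ : ℕ => Fin 3) generateFrom_measurableCylinders.symm
    isPiSystem_measurableCylinders (fun W hW => ?_) (by rw [measure_univ, measure_univ])
  obtain ⟨m, hm⟩ := loc_cyl hW
  rw [Measure.map_apply (meas_Tj 0 1) hm.meas]
  have h1 := law_lim hP hm
  have h2 := law_lim hP (Wr_loc hm 1)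
  have h3 : Tendsto (fun n => (law n).real (Wr 1 W)) atTop (𝓝 (P.real W)) := by
    refine h1.congr' ?_
    filter_upwards [eventually_ge_atTop m] with n hn
    exact (law_rot1 hm hn).symm
  have h4 := tendsto_nhds_unique h2 h3
  have h5 : Tj 0 1 ⁻¹' W = Wr 1 W := by
    ext w
    show (fun i => w (0 + i) + 1) ∈ W ↔ (fun i => w i + 1) ∈ W
    simp only [zero_add]
  rw [h5]
  exact (measureReal_eq_measureReal_iff).1 h4

lemma real_rot (hP : ∀ (η : ℕ → Fin 3) (m : ℕ), Tendsto (fun n => begins n m η) atTop (𝓝 (P.real {w | ∀ i, i < m → w i = η i})))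
    {A : Set (ℕ → Fin 3)} (hA : MeasurableSet A) : P.real (Wr 1 A) = P.real A := by
  have h5 : Tj 0 1 ⁻¹' A = Wr 1 A := by
    ext w
    show (fun i => w (0 + i) + 1) ∈ A ↔ (fun i => w i + 1) ∈ A
    simp only [zero_add]
  conv_rhs => rw [← map_rot hP]
  rw [map_measureReal_apply (meas_Tj 0 1) hA, h5]

/-! ### The walks with the first step in the direction 0 -/

/-- the probability for the walks with the first step in the direction 0 -/
noncomputable def p0 (P : Measure (ℕ → Fin 3)) (W : Set (ℕ → Fin 3)) : ℝ := 3 * P.real (W ∩ {w | w 0 = 0})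

lemma Pn_congr {n : ℕ} {A B : Set (List Bool)} (h : ∀ t ∈ SawN n, t ∈ A ↔ t ∈ B) : Pn n A = Pn n B :=
  le_antisymm (HexObs.TIP.Nf.Pn_mono fun t ht => (h t ht).1) (HexObs.TIP.Nf.Pn_mono fun t ht => (h t ht).2)

lemma lb_sw {n i : ℕ} (hi : i < n) (t : List Bool) : ext (sw n t) i = lb t i := by
  rw [ext_lt _ hi]
  rfl

lemma lb_zero (t : List Bool) : lb t 0 = 0 := by
  have e : lb t 0 = NTF.aa up := rfl
  rw [e]
  decide

lemma lb_iff {n m : ℕ} (hm : m ≤ n) {W : Set (ℕ → Fin 3)} (hW : Loc m W) (t : List Bool) :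
    ext (sw n t) ∈ W ↔ (fun i => lb t i) ∈ W :=
  ⟨hW _ _ fun i hi => lb_sw (by omega) t, hW _ _ fun i hi => (lb_sw (by omega) t).symm⟩

theorem lim_p0 (hP : ∀ (η : ℕ → Fin 3) (m : ℕ), Tendsto (fun n => begins n m η) atTop (𝓝 (P.real {w | ∀ i, i < m → w i = η i})))
    {m : ℕ} {W : Set (ℕ → Fin 3)} (hW : Loc m W) : Tendsto (fun n => Pn n {t | (fun i => lb t i) ∈ W}) atTop (𝓝 (p0 P W)) := by
  have hW' : Loc (m + 1) (W ∩ {w | w 0 = 0}) := by
    intro w w' e hw
    refine ⟨hW _ _ (fun i hi => e i (by omega)) hw.1, ?_⟩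
    show w' 0 = 0
    rw [← e 0 (by omega)]
    exact hw.2
  have h1 := (law_lim hP hW').const_mul 3
  refine h1.congr' ?_
  filter_upwards [eventually_ge_atTop (m + 1)] with n hn
  rw [law_three (by omega) hn hW']
  have e0 : Pn n {t | ext (sw n t) ∈ Wr 0 (W ∩ {w | w 0 = 0})} = Pn n {t | (fun i => lb t i) ∈ W} := by
    refine Pn_congr fun t _ => ?_
    rw [Wr_zero]
    show ext (sw n t) ∈ W ∧ ext (sw n t) 0 = 0 ↔ (fun i => lb t i) ∈ W
    rw [lb_sw (by omega : 0 < n) t, lb_zero, lb_iff (by omega) hW]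
    exact ⟨fun h => h.1, fun h => ⟨h, rfl⟩⟩
  have e1 : ∀ a : Fin 3, a ≠ 0 → Pn n {t | ext (sw n t) ∈ Wr a (W ∩ {w | w 0 = 0})} = 0 := by
    intro a ha
    have h2 : Pn n {t | ext (sw n t) ∈ Wr a (W ∩ {w | w 0 = 0})} = Pn n ∅ := by
      refine Pn_congr fun t _ => ⟨fun h => ?_, fun h => absurd h (Set.notMem_empty t)⟩
      have h3 : ext (sw n t) 0 + a = 0 := h.2
      rw [lb_sw (by omega : 0 < n) t, lb_zero, zero_add] at h3
      exact absurd h3 ha
    rw [h2]
    unfold HexObs.TOG.Pn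
    simp
  rw [e0, e1 1 (by decide), e1 2 (by decide)]
  ring

/-! ### The limit -/

/-- the asymptotic independence, local events -/
theorem zo_loc (hP : ∀ (η : ℕ → Fin 3) (m : ℕ), Tendsto (fun n => begins n m η) atTop (𝓝 (P.real {w | ∀ i, i < m → w i = η i})))
    {ε : ℝ} (hε : 0 < ε) {m0 : ℕ} {W : Set (ℕ → Fin 3)} (hW : Loc m0 W) : ∃ (e : ℝ) (J : ℕ), 0 < e ∧
      ∀ (m : ℕ) (B : Set (ℕ → Fin 3)), Loc m B → p0 P (Wr 1 (BadB B J)) + p0 P (Wr 2 (BadB B J)) < e →
        |p0 P (Wr 1 B ∩ W) - p0 P W * ((p0 P (Wr 1 B) + p0 P (Wr 2 B)) / 2)| ≤ ε := by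
  have hb : 2 * m0 < 2 ^ (2 * m0) := Nat.lt_two_pow_self
  obtain ⟨e, J, he, h⟩ := zo_word hε (stE_StQ (2 * m0) m0 W)
  refine ⟨e, J, he, fun m B hB hbad => ?_⟩
  obtain ⟨n0, hn0⟩ := h m B hB
  have hBad : Loc (m + J) (BadB B J) := by
    rintro w w' hww ⟨j, hj, hj2, hne⟩
    refine ⟨j, hj, hj2, fun hc => hne ?_⟩
    have e1 : w ∈ B ↔ w' ∈ B := ⟨hB _ _ fun i hi => hww i (by omega), hB _ _ fun i hi => (hww i (by omega)).symm⟩
    have e2 : (fun i => w (j + i)) ∈ B ↔ (fun i => w' (j + i)) ∈ B :=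
      ⟨hB _ _ fun i hi => hww (j + i) (by omega), hB _ _ fun i hi => (hww (j + i) (by omega)).symm⟩
    rw [e1, e2]
    exact hc
  have l1 := (lim_p0 hP (Wr_loc hBad 1)).add (lim_p0 hP (Wr_loc hBad 2))
  have l2 := l1.eventually (gt_mem_nhds hbad)
  rw [eventually_atTop] at l2
  obtain ⟨n1, hn1⟩ := l2
  have hWW : Loc (max m m0) (Wr 1 B ∩ W) := by
    intro w w' hww hw
    exact ⟨Wr_loc hB 1 _ _ (fun i hi => hww i (lt_of_lt_of_le hi (le_max_left _ _))) hw.1,
      hW _ _ (fun i hi => hww i (lt_of_lt_of_le hi (le_max_right _ _))) hw.2⟩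
  have lim : Tendsto (fun n => |Pn n {t | (fun i => lb t i) ∈ Wr 1 B ∩ W} - Pn n {t | (fun i => lb t i) ∈ W} *
      ((Pn n {t | (fun i => lb t i) ∈ Wr 1 B} + Pn n {t | (fun i => lb t i) ∈ Wr 2 B}) / 2)|) atTop
      (𝓝 |p0 P (Wr 1 B ∩ W) - p0 P W * ((p0 P (Wr 1 B) + p0 P (Wr 2 B)) / 2)|) :=
    ((lim_p0 hP hWW).sub ((lim_p0 hP hW).mul (((lim_p0 hP (Wr_loc hB 1)).add (lim_p0 hP (Wr_loc hB 2))).div_const 2))).abs
  refine le_of_tendsto lim ?_
  filter_upwards [eventually_ge_atTop (max (max n0 n1) m0)] with n hnn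
  have g0 : n0 ≤ n := ((le_max_left _ _).trans (le_max_left _ _)).trans hnn
  have g1 : n1 ≤ n := ((le_max_right _ _).trans (le_max_left _ _)).trans hnn
  have g2 : m0 ≤ n := (le_max_right _ _).trans hnn
  have key := hn0 n g0 (fun M hM => (hn1 M (g1.trans hM)).le)
  have hQ : ∀ t ∈ SawN n, t ∈ StQ (2 * m0) m0 W ↔ (fun i => lb t i) ∈ W := by
    intro t ht
    constructor
    · rintro ⟨-, -, h3⟩
      exact (lb_iff g2 hW t).1 ((sw_take hW g2 t).2 h3)
    · intro h3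
      refine ⟨by rw [ht.1]; exact g2, fun i hi => ?_, (sw_take hW g2 t).1 ((lb_iff g2 hW t).2 h3)⟩
      refine lt_of_le_of_lt (hn_vx_le t i) ?_
      have h4 : (2 * (i : ℤ)) ≤ ((2 * m0 : ℕ) : ℤ) := by
        push_cast
        omega
      exact lt_of_le_of_lt h4 (by exact_mod_cast hb)
  have k1 : Pn n {t | (fun i => lb t i + 1) ∈ B ∧ t ∈ StQ (2 * m0) m0 W} = Pn n {t | (fun i => lb t i) ∈ Wr 1 B ∩ W} :=
    Pn_congr fun t ht => and_congr Iff.rfl (hQ t ht)
  have k2 : Pn n (StQ (2 * m0) m0 W) = Pn n {t | (fun i => lb t i) ∈ W} := Pn_congr hQ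
  rw [k1, k2] at key
  exact key

omit [IsProbabilityMeasure P] in
lemma p0_diff [IsFiniteMeasure P] (A B W : Set (ℕ → Fin 3)) :
    |p0 P (B ∩ W) - p0 P (A ∩ W)| ≤ 3 * P.real (symmDiff B A) := by
  have key : ∀ A B : Set (ℕ → Fin 3), P.real ((B ∩ W) ∩ {w | w 0 = 0}) ≤ P.real ((A ∩ W) ∩ {w | w 0 = 0}) + P.real (symmDiff B A) := by
    intro A B
    refine (measureReal_mono ?_).trans (measureReal_union_le _ _)
    rintro w ⟨⟨h1, h2⟩, h3⟩
    by_cases h : w ∈ A
    · exact Or.inl ⟨⟨h, h2⟩, h3⟩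
    · exact Or.inr (Or.inl ⟨h1, h⟩)
  have k1 := key A B
  have k2 := key B A
  rw [symmDiff_comm A B] at k2
  unfold p0
  rw [abs_le]
  constructor <;> linarith

/-! ### The zero-one law -/

/-- the event does not see the removal of the first two steps -/
def Inv2 (A : Set (ℕ → Fin 3)) : Prop := ∀ w : ℕ → Fin 3, (fun i => w (i + 2)) ∈ A ↔ w ∈ A

lemma Inv2.even {A : Set (ℕ → Fin 3)} (h : Inv2 A) {j : ℕ} (hj : Even j) (w : ℕ → Fin 3) : (fun i => w (j + i)) ∈ A ↔ w ∈ A := by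
  obtain ⟨l, rfl⟩ := hj
  induction l with
  | zero => simp only [add_zero, zero_add]
  | succ l ih =>
    have e : (fun i => w (l + 1 + (l + 1) + i)) = fun i => (fun i => w (l + l + i)) (i + 2) := by
      funext i
      show w _ = w _
      congr 1
      omega
    rw [e]
    exact (h (fun i => w (l + l + i))).trans ih

lemma Inv2.rot {A : Set (ℕ → Fin 3)} (h : Inv2 A) (a : Fin 3) : Inv2 (Wr a A) := fun w => h fun i => w i + a

lemma p0_abs (W : Set (ℕ → Fin 3)) : |p0 P W| ≤ 3 := by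
  unfold p0
  have h1 : P.real (W ∩ {w | w 0 = 0}) ≤ 1 := measureReal_le_one
  have h2 : 0 ≤ P.real (W ∩ {w | w 0 = 0}) := measureReal_nonneg
  rw [abs_le]
  constructor <;> linarith

lemma Tj_zero (r : Fin 3) (w : ℕ → Fin 3) : Tj 0 r w = fun i => w i + r := by
  funext i
  unfold Tj
  rw [zero_add]

/-- the asymptotic independence, invariant events -/
theorem zo_inv (hP : ∀ (η : ℕ → Fin 3) (m : ℕ), Tendsto (fun n => begins n m η) atTop (𝓝 (P.real {w | ∀ i, i < m → w i = η i})))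
    {A : Set (ℕ → Fin 3)} (hA : MeasurableSet A) (hinv : Inv2 A) {m0 : ℕ} {W : Set (ℕ → Fin 3)} (hW : Loc m0 W) :
    p0 P (Wr 1 A ∩ W) = p0 P W * ((p0 P (Wr 1 A) + p0 P (Wr 2 A)) / 2) := by
  refine eq_of_abs_sub_le_all fun ε hε => ?_
  obtain ⟨e, J, he, h⟩ := zo_loc hP (half_pos hε) hW
  obtain ⟨δ, hδ⟩ : ∃ δ : ℝ, δ = min (e / (24 * (J + 1))) (ε / 24) := ⟨_, rfl⟩
  have hδ0 : 0 < δ := by rw [hδ]; exact lt_min (by positivity) (by positivity)
  have hδ1 : δ * (24 * (J + 1)) ≤ e := by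
    have h1 : δ ≤ e / (24 * (J + 1)) := by rw [hδ]; exact min_le_left _ _
    rwa [le_div_iff₀ (by positivity)] at h1
  have hδ2 : δ ≤ ε / 24 := by rw [hδ]; exact min_le_right _ _
  obtain ⟨ν, hν⟩ : ∃ ν : Measure (ℕ → Fin 3), ν = ∑ j ∈ Finset.range (J + 1), ∑ r : Fin 3, P.map (Tj j r) := ⟨_, rfl⟩
  have hfin : IsFiniteMeasure ν := by
    rw [hν]
    infer_instance
  obtain ⟨m, B, hB, hBA⟩ := approx ν hA hδ0
  have hD : MeasurableSet (symmDiff B A) := hB.meas.symmDiff hA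
  have key : ∀ j, j ≤ J → ∀ r : Fin 3, P.real (Tj j r ⁻¹' (symmDiff B A)) ≤ δ := by
    intro j hj r
    rw [← map_measureReal_apply (meas_Tj j r) hD]
    refine le_trans ?_ hBA
    unfold Measure.real
    refine ENNReal.toReal_mono (measure_ne_top _ _) ?_
    rw [hν, Measure.finsetSum_apply]
    refine le_trans ?_ (Finset.single_le_sum (f := fun j => (∑ r : Fin 3, P.map (Tj j r)) (symmDiff B A)) (fun _ _ => zero_le)
      (Finset.mem_range.2 (Nat.lt_succ_of_le hj)))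
    rw [Measure.finsetSum_apply]
    exact Finset.single_le_sum (f := fun r => (P.map (Tj j r)) (symmDiff B A)) (fun _ _ => zero_le) (Finset.mem_univ r)
  -- the bad walks
  have bad : ∀ r : Fin 3, p0 P (Wr r (BadB B J)) ≤ 6 * (J + 1) * δ := by
    intro r
    have h1 : P.real (Wr r (BadB B J) ∩ {w | w 0 = 0}) ≤ ∑ j ∈ Finset.range (J + 1), 2 * δ := by
      have hsub : Wr r (BadB B J) ∩ {w | w 0 = 0} ⊆ ⋃ j ∈ Finset.range (J + 1),
          (Tj 0 r ⁻¹' (symmDiff B A) ∪ Tj j r ⁻¹' (symmDiff B A)) := by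
        rintro w ⟨⟨j, hj, hj2, hne⟩, -⟩
        rw [Set.mem_iUnion₂]
        refine ⟨j, Finset.mem_range.2 (Nat.lt_succ_of_le hj), ?_⟩
        by_contra hc
        rw [Set.mem_union, not_or] at hc
        obtain ⟨h2, h3⟩ := hc
        refine hne ?_
        rw [Set.mem_preimage, Tj_zero, Set.mem_symmDiff] at h2
        rw [Set.mem_preimage, Set.mem_symmDiff] at h3
        have h4 : (fun i => w i + r) ∈ A ↔ Tj j r w ∈ A := (hinv.even hj2 (fun i => w i + r)).symm
        have h5 : Tj j r w ∈ B ↔ (fun i => w (j + i) + r) ∈ B := Iff.rfl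
        tauto
      refine (measureReal_mono hsub (measure_ne_top _ _)).trans ((measureReal_biUnion_finset_le _ _).trans (Finset.sum_le_sum fun j hj => ?_))
      refine (measureReal_union_le _ _).trans ?_
      have a1 := key 0 (Nat.zero_le J) r
      have a2 := key j (Nat.le_of_lt_succ (Finset.mem_range.1 hj)) r
      linarith
    rw [Finset.sum_const, Finset.card_range, nsmul_eq_mul] at h1
    push_cast at h1
    unfold p0
    linarith
  have h1 := h m B hB (by
    have b1 := bad 1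
    have b2 := bad 2
    have : (0 : ℝ) < (J + 1) * δ := by positivity
    linarith)
  -- back to A
  have d : ∀ (r : Fin 3) (V : Set (ℕ → Fin 3)), |p0 P (Wr r B ∩ V) - p0 P (Wr r A ∩ V)| ≤ 3 * δ := by
    intro r V
    refine (p0_diff (Wr r A) (Wr r B) V).trans ?_
    have h2 : symmDiff (Wr r B) (Wr r A) = Tj 0 r ⁻¹' (symmDiff B A) := by
      ext w
      rw [Set.mem_preimage, Tj_zero, Set.mem_symmDiff, Set.mem_symmDiff]
      rfl
    rw [h2]
    have := key 0 (Nat.zero_le J) r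
    linarith
  have d1 := d 1 W
  have d2 := d 1 Set.univ
  have d3 := d 2 Set.univ
  simp only [Set.inter_univ] at d2 d3
  have hw := p0_abs (P := P) W
  have d4 : |p0 P W * ((p0 P (Wr 1 B) + p0 P (Wr 2 B)) / 2 - (p0 P (Wr 1 A) + p0 P (Wr 2 A)) / 2)| ≤ 9 * δ := by
    have h2 : |(p0 P (Wr 1 B) + p0 P (Wr 2 B)) / 2 - (p0 P (Wr 1 A) + p0 P (Wr 2 A)) / 2| ≤ 3 * δ := by
      have h3 := abs_le.1 d2
      have h4 := abs_le.1 d3
      rw [abs_le]
      constructor <;> linarith [h3.1, h3.2, h4.1, h4.2]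
    rw [abs_mul]
    calc _ ≤ 3 * (3 * δ) := mul_le_mul hw h2 (abs_nonneg _) (by norm_num)
      _ = 9 * δ := by ring
  have h2 := abs_le.1 h1
  have h3 := abs_le.1 d1
  have h4 := abs_le.1 d4
  rw [abs_le]
  constructor <;> linarith [h2.1, h2.2, h3.1, h3.2, h4.1, h4.2]

lemma p0_univ (hP : ∀ (η : ℕ → Fin 3) (m : ℕ), Tendsto (fun n => begins n m η) atTop (𝓝 (P.real {w | ∀ i, i < m → w i = η i}))) :
    p0 P Set.univ = 1 := by
  have h := lim_p0 hP (m := 0) (W := Set.univ) fun _ _ _ _ => Set.mem_univ _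
  refine tendsto_nhds_unique h ?_
  refine tendsto_const_nhds.congr fun n => ?_
  have e : {t : List Bool | (fun i => lb t i) ∈ (Set.univ : Set (ℕ → Fin 3))} = Set.univ := by
    ext t
    simp
  rw [e, Pn_Eu, ← Eu_one n]
  congr 1
  funext t
  exact (HexObs.TIP.ind_pos (Set.mem_univ t)).symm

lemma Wr_meas {A : Set (ℕ → Fin 3)} (hA : MeasurableSet A) (r : Fin 3) : MeasurableSet (Wr r A) := by
  have h : Wr r A = Tj 0 r ⁻¹' A := by
    ext w
    rw [Set.mem_preimage, Tj_zero]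
    rfl
  rw [h]
  exact meas_Tj 0 r hA

/-- the event as the mean over the rotations -/
lemma real_p0 (hP : ∀ (η : ℕ → Fin 3) (m : ℕ), Tendsto (fun n => begins n m η) atTop (𝓝 (P.real {w | ∀ i, i < m → w i = η i})))
    {A : Set (ℕ → Fin 3)} (hA : MeasurableSet A) : P.real A = (p0 P A + p0 P (Wr 1 A) + p0 P (Wr 2 A)) / 3 := by
  have hm : ∀ a : Fin 3, MeasurableSet {w : ℕ → Fin 3 | w 0 = a} := fun a =>
    measurableSet_eq_fun (measurable_pi_apply 0) measurable_const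
  have e1 : P.real (A ∩ {w | w 0 = 1}) = P.real (Wr 1 A ∩ {w | w 0 = 0}) := by
    rw [← real_rot hP (hA.inter (hm 1))]
    congr 1
    ext w
    show (_ ∈ A ∧ w 0 + 1 = 1) ↔ (_ ∈ A ∧ w 0 = 0)
    have : ∀ x : Fin 3, x + 1 = 1 ↔ x = 0 := by decide
    rw [this]
  have e2 : P.real (A ∩ {w | w 0 = 2}) = P.real (Wr 2 A ∩ {w | w 0 = 0}) := by
    rw [← real_rot hP (hA.inter (hm 2)), ← real_rot hP (Wr_meas (hA.inter (hm 2)) 1)]
    congr 1
    ext w
    show ((fun i => w i + 1 + 1) ∈ A ∧ w 0 + 1 + 1 = 2) ↔ ((fun i => w i + 2) ∈ A ∧ w 0 = 0)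
    have : ∀ x : Fin 3, x + 1 + 1 = 2 ↔ x = 0 := by decide
    have h2 : ∀ x : Fin 3, x + 1 + 1 = x + 2 := by decide
    rw [this]
    simp only [h2]
  have e3 : A = (A ∩ {w | w 0 = 0}) ∪ ((A ∩ {w | w 0 = 1}) ∪ (A ∩ {w | w 0 = 2})) := by
    ext w
    have : ∀ x : Fin 3, x = 0 ∨ x = 1 ∨ x = 2 := by decide
    constructor
    · intro h
      rcases this (w 0) with h1 | h1 | h1
      · exact Or.inl ⟨h, h1⟩
      · exact Or.inr (Or.inl ⟨h, h1⟩)
      · exact Or.inr (Or.inr ⟨h, h1⟩)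
    · rintro (h | h | h) <;> exact h.1
  have d1 : Disjoint (A ∩ {w : ℕ → Fin 3 | w 0 = 1}) (A ∩ {w | w 0 = 2}) := by
    refine Set.disjoint_left.2 fun w h1 h2 => ?_
    have h3 : w 0 = 1 := h1.2
    have h4 : w 0 = 2 := h2.2
    rw [h3] at h4
    exact absurd h4 (by decide)
  have d2 : Disjoint (A ∩ {w : ℕ → Fin 3 | w 0 = 0}) ((A ∩ {w : ℕ → Fin 3 | w 0 = 1}) ∪ (A ∩ {w | w 0 = 2})) := by
    refine Set.disjoint_left.2 fun w h1 h2 => ?_
    have h3 : w 0 = 0 := h1.2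
    rcases h2 with h2 | h2
    · have h4 : w 0 = 1 := h2.2
      rw [h3] at h4
      exact absurd h4 (by decide)
    · have h4 : w 0 = 2 := h2.2
      rw [h3] at h4
      exact absurd h4 (by decide)
  have e4 : P.real A = P.real (A ∩ {w | w 0 = 0}) + (P.real (A ∩ {w | w 0 = 1}) + P.real (A ∩ {w | w 0 = 2})) := by
    conv_lhs => rw [e3]
    rw [measureReal_union d2 ((hA.inter (hm 1)).union (hA.inter (hm 2))), measureReal_union d1 (hA.inter (hm 2))]
  rw [e4, e1, e2]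
  unfold p0
  ring

/-- **the zero-one law of the infinite self-avoiding walk**: an event that does not see the removal of the first two steps has
probability 0 or 1 -/
theorem zero_one (hP : ∀ (η : ℕ → Fin 3) (m : ℕ), Tendsto (fun n => begins n m η) atTop (𝓝 (P.real {w | ∀ i, i < m → w i = η i})))
    {A : Set (ℕ → Fin 3)} (hA : MeasurableSet A) (hinv : ∀ w : ℕ → Fin 3, (fun i => w (i + 2)) ∈ A ↔ w ∈ A) :
    P A = 0 ∨ P A = 1 := by
  have hU : Loc 0 (Set.univ : Set (ℕ → Fin 3)) := fun _ _ _ _ => Set.mem_univ _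
  have two : ∀ A : Set (ℕ → Fin 3), MeasurableSet A → Inv2 A → p0 P (Wr 1 A) = p0 P (Wr 2 A) := by
    intro A hA hinv
    have h := zo_inv hP hA hinv hU
    rw [Set.inter_univ, p0_univ hP, one_mul] at h
    linarith
  have h12 := two A hA hinv
  have h20 : p0 P (Wr 2 A) = p0 P A := by
    have h := two (Wr 1 A) (Wr_meas hA 1) (Inv2.rot hinv 1)
    have e1 : Wr 1 (Wr 1 A) = Wr 2 A := by
      ext w
      show (fun i => w i + 1 + 1) ∈ A ↔ (fun i => w i + 2) ∈ A
      have h2 : ∀ x : Fin 3, x + 1 + 1 = x + 2 := by decide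
      simp only [h2]
    have e2 : Wr 2 (Wr 1 A) = A := by
      ext w
      show (fun i => w i + 2 + 1) ∈ A ↔ w ∈ A
      have h2 : ∀ x : Fin 3, x + 2 + 1 = x := by decide
      simp only [h2]
    rwa [e1, e2] at h
  obtain ⟨c, hc⟩ : ∃ c : ℝ, c = p0 P (Wr 1 A) := ⟨_, rfl⟩
  have hreal : P.real A = c := by
    rw [real_p0 hP hA, ← h20, ← h12, ← hc]
    ring
  -- c = c * c
  have hcc : c = c * c := by
    refine eq_of_abs_sub_le_all fun ε hε => ?_
    obtain ⟨δ, hδ⟩ : ∃ δ : ℝ, δ = ε / 12 := ⟨_, rfl⟩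
    have hδ0 : 0 < δ := by rw [hδ]; positivity
    obtain ⟨m, B, hB, hBA⟩ := approx P (Wr_meas hA 1) hδ0
    have h := zo_inv hP hA hinv hB
    rw [← h12, ← hc, show (c + c) / 2 = c by ring] at h
    have a1 := p0_diff (P := P) (Wr 1 A) B Set.univ
    have a2 := p0_diff (P := P) (Wr 1 A) B (Wr 1 A)
    rw [Set.inter_univ, Set.inter_univ, ← hc] at a1
    rw [Set.inter_self, Set.inter_comm B, h, ← hc] at a2
    have hc3 : |c| ≤ 3 := by rw [hc]; exact p0_abs _
    have a3 : |(p0 P B - c) * c| ≤ 9 * δ := by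
      rw [abs_mul]
      calc _ ≤ 3 * δ * 3 := mul_le_mul (a1.trans (by linarith)) hc3 (abs_nonneg _) (by positivity)
        _ = 9 * δ := by ring
    have h1 := abs_le.1 (a2.trans (by linarith : 3 * P.real (symmDiff B (Wr 1 A)) ≤ 3 * δ))
    have h2 := abs_le.1 a3
    have e : c - c * c = (p0 P B - c) * c - (p0 P B * c - c) := by ring
    rw [e, abs_le]
    constructor <;> linarith [h1.1, h1.2, h2.1, h2.2]
  have h01 : c = 0 ∨ c = 1 := by
    have : c * (c - 1) = 0 := by linarith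
    rcases mul_eq_zero.1 this with h | h
    · exact Or.inl h
    · exact Or.inr (by linarith)
  rw [← hreal] at h01
  rcases h01 with h | h
  · exact Or.inl ((measureReal_eq_zero_iff).1 h)
  · right
    have h1 : P.real A = P.real Set.univ := by rw [h, probReal_univ]
    rw [(measureReal_eq_measureReal_iff).1 h1, measure_univ]

end MC

end Pool.Agent.IW
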