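import Pool.Agent.MC.Rev
import Pool.Agent.PW.DefU
import Pool.Agent.PW.LevAF
import Pool.Agent.PW.SlowA

/-!
MC: the macroscopic coupling on words, `MixN`, from the row `SmallN` of PW (few words have a small sum of weights): two plane
ensembles on common levels (`PWN.T_tip` of helper45), trivial chain; `slow_st` goes from the ensembles to the exact numbers of
letters.
-/

set_option autoImplicit false

namespace HexObs

namespace MCP

open Finset TS SDN TIW PWN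

open Pool.Agent.IW (rvw)

/-- few words have a small sum of weights (row P6 of PW) -/
def SmallN : Prop := ∀ ε : ℝ, 0 < ε → ∃ c : ℝ, 0 < c ∧ ∀ (w : ℝ) (s : ℕ), 0 < w → ∃ M0 : ℕ, ∀ M : ℕ, M0 ≤ M →
  ∃ s0 : ℕ, ∀ s' : ℕ, s0 ≤ s' → ∃ c0 l0 : ℕ, ∀ (k n : ℕ) (lv : ℕ → ℕ) (Ch : ℕ → Set (List Bool)), TIP.Sc k n →
    LvS M lv s s' w Ch → l0 ≤ lv 0 → (∀ i, i < M → lv i + s + c0 ≤ k) →
    ∑ t ∈ sawF n, smI c (fun i => N0 (lv i) (lv i + s) (Ch i) t / PWN.UT (lv i) (lv i + s) (Ch i) / M) M ≤ ε * cS n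

/-! ### the trivial chain -/

/-- the trivial chain -/
def C0 : Set (List Bool) := {[]}

lemma chn0 (L : ℕ) : SLW.Chn L C0 where
  bu := by
    rintro V hV
    rw [Set.mem_singleton_iff.1 hV]
    exact ⟨0, nil_mem_Brd⟩
  size := by
    rintro V hV i hi
    rw [Set.mem_singleton_iff.1 hV] at hi ⊢
    have h0 : i = 0 := by simpa using hi
    rw [h0]
    have e : vx oo up ([] : List Bool) 0 = oo := rfl
    have e2 : hn oo = 0 := by decide
    rw [e, e2, mul_zero]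
    positivity
  uniq := by
    rintro V hV V' hV' E E' _ _ _
    rw [Set.mem_singleton_iff.1 hV, Set.mem_singleton_iff.1 hV']
  even := by
    rintro V hV
    rw [Set.mem_singleton_iff.1 hV]
    exact Even.zero

lemma wD0 : wD C0 = 1 := by
  unfold wD C0
  have e : gf {([] : List Bool)} = 1 := by
    unfold gf
    rw [tsum_singleton ([] : List Bool) wE]
    unfold wE
    simp
  rw [e, ENNReal.toReal_one]

lemma UT0 (l : ℕ) : PWN.UT l l C0 = Ub l := by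
  unfold PWN.UT
  rw [wD0, one_mul, mul_div_assoc, div_self (xr_pos l).ne', mul_one]

/-! ### a narrow bump -/

/-- the bump -/
noncomputable def gB (q : ℕ) (u : ℝ) : ℝ := max 0 (1 - |u - (1 + 1 / 2 ^ (q + 1))| * 2 ^ (q + 1))

lemma gB_zero {q : ℕ} {u : ℝ} (h : 1 / 2 ^ (q + 1) ≤ |u - (1 + 1 / 2 ^ (q + 1))|) : gB q u = 0 := by
  unfold gB
  refine max_eq_left ?_
  have h1 : (1 : ℝ) / 2 ^ (q + 1) * 2 ^ (q + 1) ≤ |u - (1 + 1 / 2 ^ (q + 1))| * 2 ^ (q + 1) :=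
    mul_le_mul_of_nonneg_right h (by positivity)
  rw [div_mul_cancel₀ _ (by positivity)] at h1
  linarith

lemma gB_bump (q : ℕ) : Bump (2 ^ (q + 1)) (gB q) where
  nn := fun u => le_max_left _ _
  le := fun u => by
    unfold gB
    refine max_le zero_le_one ?_
    have : 0 ≤ |u - (1 + 1 / 2 ^ (q + 1))| * 2 ^ (q + 1) := by positivity
    linarith
  lip := fun u v => by
    unfold gB
    refine (abs_max_sub_max_le_max _ _ _ _).trans (max_le (by rw [sub_self, abs_zero]; positivity) ?_)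
    have e : 1 - |u - (1 + 1 / 2 ^ (q + 1))| * 2 ^ (q + 1) - (1 - |v - (1 + 1 / 2 ^ (q + 1))| * 2 ^ (q + 1)) =
        (|v - (1 + 1 / 2 ^ (q + 1))| - |u - (1 + 1 / 2 ^ (q + 1))|) * 2 ^ (q + 1) := by ring
    rw [e, abs_mul, abs_of_nonneg (by positivity : (0 : ℝ) ≤ 2 ^ (q + 1)), mul_comm]
    refine mul_le_mul_of_nonneg_left ?_ (by positivity)
    refine (abs_abs_sub_abs_le_abs_sub _ _).trans (le_of_eq ?_)
    rw [abs_sub_comm]
    congr 1
    ring
  lo := fun u hu => gB_zero (by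
    rw [abs_of_nonpos]
    · linarith
    · have : (0 : ℝ) < 1 / 2 ^ (q + 1) := by positivity
      linarith)
  hi := fun u hu => gB_zero (by
    have h1 : (1 : ℝ) / 2 ^ (q + 1) ≤ 1 / 2 := by
      refine one_div_le_one_div_of_le (by norm_num) ?_
      calc (2 : ℝ) = 2 ^ 1 := by norm_num
        _ ≤ 2 ^ (q + 1) := pow_le_pow_right₀ (by norm_num) (by omega)
    rw [abs_of_nonneg (by linarith)]
    linarith)

lemma gB_one (q : ℕ) : gB q (1 + 1 / 2 ^ (q + 1)) = 1 := by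
  unfold gB
  rw [sub_self, abs_zero, zero_mul, sub_zero, max_eq_right zero_le_one]

lemma gB_narrow (q : ℕ) (u : ℝ) (h : 1 + 1 / 2 ^ q < u) : gB q u = 0 := by
  refine gB_zero ?_
  have e : (1 : ℝ) / 2 ^ q = 1 / 2 ^ (q + 1) + 1 / 2 ^ (q + 1) := by
    rw [pow_succ]
    field_simp
    norm_num
  have h1 : (0 : ℝ) < 1 / 2 ^ (q + 1) := by positivity
  rw [abs_of_nonneg (by linarith)]
  linarith

/-! ### scales -/

lemma sc_up {k n m : ℕ} (h : TIP.Sc k n) (hm : n ≤ m) : ∃ K : ℕ, k ≤ K ∧ TIP.Sc K m := by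
  classical
  have hex : ∃ K : ℕ, k ≤ K ∧ (m : ℝ) < PW.mZ (2 ^ (K + 1)) := by
    obtain ⟨j, hj⟩ := pow_unbounded_of_one_lt ((m : ℝ) / PW.mZ (2 ^ 0)) (one_lt_two : (1 : ℝ) < 2)
    have h6 : 0 < PW.mZ (2 ^ 0) := NTA.mlow_M.pos 0
    rw [div_lt_iff₀ h6] at hj
    refine ⟨k + j, Nat.le_add_right _ _, ?_⟩
    have h5 := NTA.MLow.two NTA.mlow_M 0 (k + j + 1)
    rw [zero_add] at h5
    have h7 : (2 : ℝ) ^ j ≤ 2 ^ (k + j + 1) := pow_le_pow_right₀ (by norm_num) (by omega)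
    nlinarith
  obtain ⟨h1, h2⟩ := Nat.find_spec hex
  refine ⟨Nat.find hex, h1, ?_, h2⟩
  rcases h1.eq_or_lt with h3 | h3
  · rw [← h3]
    exact h.1.trans (by exact_mod_cast hm)
  · have h4 := Nat.find_min hex (m := Nat.find hex - 1) (by omega)
    push Not at h4
    have h5 := h4 (by omega)
    rw [Nat.sub_add_cancel (by omega)] at h5
    exact h5

lemma mZ_ratio {k n l c : ℕ} (h : TIP.Sc k n) (hl : l + c ≤ k) : PW.mZ (2 ^ l) / n ≤ 1 / 2 ^ c := by
  have h1 : 0 < PW.mZ (2 ^ l) := NTA.mlow_M.pos l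
  have h2 := NTA.MLow.two NTA.mlow_M l c
  have h3 := (NTA.MLow.mono NTA.mlow_M hl).trans h.1
  have hn : (0 : ℝ) < n := lt_of_lt_of_le (NTA.mlow_M.pos (l + c)) h3
  rw [div_le_div_iff₀ hn (by positivity), one_mul, mul_comm]
  exact h2.trans h3

/-! ### the plane ensemble -/

/-- the plane ensemble sees the events of the start as the words with n letters do -/
lemma near {q n : ℕ} (hn : 1 ≤ n) {Q : Set (List Bool)} {e : ℝ}
    (h : ∀ j : ℕ, Even j → j * 2 ^ q ≤ n → |TOG.Pn (n + j) Q - TOG.Pn n Q| ≤ e) :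
    |∑ t ∈ AAF n, pA (gB q) n t * TIP.ind (rvw t ∈ Q) - MA (gB q) n * TOG.Pn n Q| ≤ e * MA (gB q) n := by
  have hg := gB_bump q
  rw [sum_AA, MA_eq, sum_mul, mul_sum, ← sum_sub_distrib]
  refine (abs_sum_le_sum_abs _ _).trans (sum_le_sum fun m _ => ?_)
  by_cases h0 : wA (gB q) n m = 0
  · rw [h0, zero_mul, zero_mul, zero_mul, mul_zero, sub_zero, abs_zero]
  · obtain ⟨j, hj1, hj2, rfl⟩ := wA_ne hg (gB_narrow q) hn h0
    have e1 : ∑ t ∈ sawF (n + j), xc ^ (n + j) * TIP.ind (rvw t ∈ Q) = cS (n + j) * xc ^ (n + j) * TOG.Pn (n + j) Q := by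
      rw [← mul_sum, sum_rvw (n + j) (fun t => TIP.ind (t ∈ Q)), Pn_Eu]
      unfold Eu
      have := cS0 (n + j)
      field_simp
    have hw := wA_nonneg hg n (n + j)
    have hc := cS0 (n + j)
    have hx : 0 ≤ xc ^ (n + j) := pow_nonneg xc_pos.le _
    have e2 : wA (gB q) n (n + j) * (cS (n + j) * xc ^ (n + j) * TOG.Pn (n + j) Q) -
        wA (gB q) n (n + j) * (cS (n + j) * xc ^ (n + j)) * TOG.Pn n Q =
        wA (gB q) n (n + j) * (cS (n + j) * xc ^ (n + j)) * (TOG.Pn (n + j) Q - TOG.Pn n Q) := by ring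
    rw [e1, e2, abs_mul, abs_of_nonneg (mul_nonneg hw (mul_nonneg hc.le hx)), mul_comm e]
    exact mul_le_mul_of_nonneg_left (h j hj1 hj2) (mul_nonneg hw (mul_nonneg hc.le hx))

/-- the data of the ensemble -/
lemma ensD {q n k M s' c0 l0 : ℕ} {C c x : ℝ} {lv : ℕ → ℕ} (hn : 1 ≤ n) (hM1 : 1 ≤ M) (hN : TIP.Sc k n) (hMA : 0 < MA (gB q) n)
    (hmom : MomAS C) (hgap : ∀ i j, i < j → j < 3 * M → lv i + 0 + s' ≤ lv j) (hlv : l0 ≤ lv 0)
    (htop : ∀ i, i < 3 * M → lv i + c0 ≤ k)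
    (hS : ∀ (k n : ℕ) (lv : ℕ → ℕ) (Ch : ℕ → Set (List Bool)), TIP.Sc k n → LvS M lv 0 s' 1 Ch → l0 ≤ lv 0 →
      (∀ i, i < M → lv i + 0 + c0 ≤ k) → ∑ t ∈ sawF n, smI c (fun i => N0 (lv i) (lv i + 0) (Ch i) t /
        PWN.UT (lv i) (lv i + 0) (Ch i) / M) M ≤ x * cS n) :
    EnsD (AAF n) (pA (gB q) n) M (3 * M) lv 0 (fun _ => C0) (fun _ _ => 1) (fun i => Ub (lv i)) (MA (gB q) n) 1 (C ^ 2) c x where
  g0 := hMA
  p0 := pA_nonneg (gB_bump q) n
  sa := fun t ht => (mem_AAF.1 ht).1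
  mass := by
    rw [one_mul]
    exact le_rfl
  th := fun _ _ => zero_le_one
  u0 := fun i => (SLW.OG.Ub_pos _).le
  u1 := fun i _ => SLW.OG.Ub_pos _
  mom := fun i _ => by
    have h1 := (hmom _ _ (gB_bump q) n (lv i) (lv i + 0) C0 (by omega) (chn0 _)).1
    refine le_trans (sum_le_sum fun t _ => ?_) (h1.trans (le_of_eq (by rw [add_zero, mul_pow])))
    refine mul_le_mul_of_nonneg_left (pow_le_pow_left₀ (OW.NQW_nonneg _ _ _ (fun _ => zero_le_one) t)
      (OW.NQW_le _ _ _ (fun _ => le_rfl) t) 2) (pA_nonneg (gB_bump q) n t)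
  small := by
    intro e he1 he2
    rw [sum_AA, MA_eq, mul_sum]
    refine sum_le_sum fun m _ => ?_
    by_cases h0 : wA (gB q) n m = 0
    · rw [h0, zero_mul, zero_mul, mul_zero]
    · obtain ⟨j, hj1, hj2, rfl⟩ := wA_ne (gB_bump q) (gB_narrow q) hn h0
      obtain ⟨K, hK, hKm⟩ := sc_up hN (Nat.le_add_right n j)
      have hw := wA_nonneg (gB_bump q) n (n + j)
      have hx : 0 ≤ xc ^ (n + j) := pow_nonneg xc_pos.le _
      have hM : ∀ a, a < 3 * M → lv 0 ≤ lv a := by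
        intro a ha
        rcases Nat.eq_zero_or_pos a with rfl | h
        · exact le_rfl
        · have := hgap 0 a h ha
          omega
      have h3 := hS K (n + j) (fun i => lv (e i)) (fun _ => C0) hKm
        ⟨fun a b hab hb => by
          have := hgap _ _ (he2 a b hab hb) (he1 b hb)
          omega, fun _ _ => chn0 _, fun _ _ => by rw [wD0]⟩
        (hlv.trans (hM _ (he1 0 (by omega)))) (fun i hi => by
          have := htop _ (he1 i hi)
          omega)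
      have e1 : ∑ t ∈ sawF (n + j), xc ^ (n + j) * smI c (fun j => NW (lv (e j)) (lv (e j) + 0) C0 (fun _ => 1)
          (fun _ => 1) t / Ub (lv (e j)) / M) M ≤ xc ^ (n + j) * (x * cS (n + j)) := by
        rw [← mul_sum]
        refine mul_le_mul_of_nonneg_left (le_trans (le_of_eq (sum_congr rfl fun t _ => ?_)) h3) hx
        simp only [add_zero, UT0]
        rfl
      calc wA (gB q) n (n + j) * ∑ t ∈ sawF (n + j), xc ^ (n + j) * smI c (fun j => NW (lv (e j)) (lv (e j) + 0) C0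
            (fun _ => 1) (fun _ => 1) t / Ub (lv (e j)) / M) M
          ≤ wA (gB q) n (n + j) * (xc ^ (n + j) * (x * cS (n + j))) := mul_le_mul_of_nonneg_left e1 hw
        _ = x * (wA (gB q) n (n + j) * (cS (n + j) * xc ^ (n + j))) := by ring

/-- the level identity -/
lemma levE {q n k M c5 l1 : ℕ} {C : ℝ} {lv : ℕ → ℕ} {f : List Bool → ℝ} (hC : 0 ≤ C) (hf : ∀ t, |f t| ≤ 1) (hN : TIP.Sc k n)
    (hlow : ∀ i, i < 3 * M → l1 ≤ lv i) (htop : ∀ i, i < 3 * M → lv i + c5 ≤ k)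
    (h : ∀ (n k l L : ℕ) (Ch : Set (List Bool)) (q' Ψ er : List Bool → ℝ), TIP.Sc k n → l1 ≤ l →
      l ≤ L → L ≤ k → SLW.Chn L Ch → (∀ E ∈ Hc l, |q' E| ≤ 1) → (∀ t, |Ψ t| ≤ 1) → RM.Rob (2 ^ (L + 1)) Ψ er →
      |∑ t ∈ AAF n, pA (gB q) n t * (Ψ t * (NW l L Ch (fun _ => 1) q' t - nu l q' * N0 l L Ch t))| ≤
        2 * ∑ t ∈ AAF n, pA (gB q) n t * (N0 l L Ch t * er t) + C * (PW.mZ (2 ^ l) / n) * Ub L * MA (gB q) n) :
    LevE (AAF n) (pA (gB q) n) (3 * M) lv 0 (fun _ => C0) (fun _ _ => 1) (fun i => Ub (lv i)) (C / 2 ^ c5 * MA (gB q) n) f := by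
  intro i hi Ψ er hΨ her hR
  have h1 := h n k (lv i) (lv i + 0) C0 f Ψ er hN (hlow i hi) (by omega) (by have := htop i hi; omega) (chn0 _)
    (fun E _ => hf E) hΨ hR
  refine h1.trans (add_le_add le_rfl ?_)
  have h2 := mZ_ratio hN (htop i hi)
  have h3 := MA_nonneg (gB_bump q) n
  have h4 := SLW.OG.Ub_pos (lv i)
  rw [add_zero]
  calc C * (PW.mZ (2 ^ lv i) / n) * Ub (lv i) * MA (gB q) n ≤ C * (1 / 2 ^ c5) * Ub (lv i) * MA (gB q) n := by
        refine mul_le_mul_of_nonneg_right (mul_le_mul_of_nonneg_right (mul_le_mul_of_nonneg_left h2 hC) h4.le) h3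
    _ = C / 2 ^ c5 * MA (gB q) n * Ub (lv i) := by ring

/-- **the macroscopic coupling on words from the row on small sums** -/
theorem mixN_of (hS : SmallN) : MixN := by
  intro ε hε
  obtain ⟨e, he⟩ : ∃ e : ℝ, e = min (ε / 16) (1 / 4) := ⟨_, rfl⟩
  have he0 : 0 < e := by rw [he]; exact lt_min (by positivity) (by norm_num)
  have he1 : e ≤ ε / 16 := by rw [he]; exact min_le_left _ _
  have he2 : e ≤ 1 / 4 := by rw [he]; exact min_le_right _ _
  obtain ⟨C1, q, k1, hslow⟩ := slow_st he0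
  obtain ⟨c, hc, hS⟩ := hS (e / 4) (by positivity)
  obtain ⟨Cm, hCm, hmom⟩ := momA (SLW.momU SLW.aReg)
  obtain ⟨M0, hS⟩ := hS 1 0 one_pos
  obtain ⟨M1, hM1⟩ := exists_nat_ge (4 * Cm ^ 2 / (c ^ 2 * e))
  obtain ⟨M, hM⟩ : ∃ M : ℕ, M = max M0 (max M1 1) := ⟨_, rfl⟩
  have hMM0 : M0 ≤ M := by rw [hM]; exact le_max_left _ _
  have hMM1 : M1 ≤ M := by rw [hM]; exact (le_max_left _ _).trans (le_max_right _ _)
  have hM1' : 1 ≤ M := by rw [hM]; exact (le_max_right _ _).trans (le_max_right _ _)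
  obtain ⟨s0, hS⟩ := hS M hMM0
  obtain ⟨s1, hs1⟩ := pow_unbounded_of_one_lt (512 * Cm ^ 2 / (c ^ 2 * e)) (one_lt_two)
  obtain ⟨s', hs'⟩ : ∃ s' : ℕ, s' = max s0 (max s1 8) := ⟨_, rfl⟩
  have hss0 : s0 ≤ s' := by rw [hs']; exact le_max_left _ _
  have hss1 : s1 ≤ s' := by rw [hs']; exact (le_max_left _ _).trans (le_max_right _ _)
  have hss8 : 8 ≤ s' := by rw [hs']; exact (le_max_right _ _).trans (le_max_right _ _)
  obtain ⟨c0, l0, hS⟩ := hS s' hss0
  obtain ⟨CL, l1, hCL, hlev⟩ := levAe SLW.aReg (gB_bump q) (gB_one q)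
  obtain ⟨cA, nA, hcA, hMA⟩ := LA.MA_low SLW.aReg (gB_bump q) (gB_one q)
  obtain ⟨c5, hc5⟩ := pow_unbounded_of_one_lt (4 * CL / (c * e)) (one_lt_two)
  obtain ⟨kA, hkA⟩ := big_n (max nA 1)
  refine ⟨max C1 (7 + l0 + l1 + 3 * M * s' + c0 + c5), max k1 kA,
    fun b k k' n n' hk hk' hb hb' hN hN' Q hQ => ?_⟩
  -- the levels
  obtain ⟨lv, hlv⟩ : ∃ lv : ℕ → ℕ, lv = fun i => b + 7 + l0 + l1 + i * s' := ⟨_, rfl⟩
  have hlv' : ∀ i, lv i = b + 7 + l0 + l1 + i * s' := fun i => by rw [hlv]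
  have hlvi : ∀ i, i < 3 * M → i * s' ≤ 3 * M * s' := fun i hi => Nat.mul_le_mul_right _ hi.le
  have hgap : ∀ i j, i < j → j < 3 * M → lv i + 0 + s' ≤ lv j := by
    intro i j hij _
    rw [hlv', hlv']
    have : i * s' + s' ≤ j * s' := by
      calc i * s' + s' = (i + 1) * s' := by ring
        _ ≤ j * s' := Nat.mul_le_mul_right _ hij
    omega
  have hC1 : ∀ K : ℕ, b + max C1 (7 + l0 + l1 + 3 * M * s' + c0 + c5) ≤ K → b + C1 ≤ K ∧
      ∀ i, i < 3 * M → lv i + c0 ≤ K ∧ lv i + c5 ≤ K := by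
    intro K hK
    have h1 := le_max_left C1 (7 + l0 + l1 + 3 * M * s' + c0 + c5)
    have h2 := le_max_right C1 (7 + l0 + l1 + 3 * M * s' + c0 + c5)
    refine ⟨by omega, fun i hi => ?_⟩
    have h3 := hlvi i hi
    rw [hlv']
    omega
  obtain ⟨g1, g2⟩ := hC1 k hb
  obtain ⟨g1', g2'⟩ := hC1 k' hb'
  have hl0 : l0 ≤ lv 0 := by
    rw [hlv']
    omega
  have hl1 : ∀ i, i < 3 * M → l1 ≤ lv i := by
    intro i _
    rw [hlv']
    omega
  have hn1 := hkA k n ((le_max_right _ _).trans hk) hN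
  have hn1' := hkA k' n' ((le_max_right _ _).trans hk') hN'
  have hn2 : 1 ≤ n := (le_max_right _ _).trans hn1
  have hn2' : 1 ≤ n' := (le_max_right _ _).trans hn1'
  have hpos : ∀ m : ℕ, max nA 1 ≤ m → 0 < MA (gB q) m := by
    intro m hm
    refine lt_of_lt_of_le ?_ (hMA m ((le_max_left _ _).trans hm))
    have h1 : (0 : ℝ) < m := by
      have : 1 ≤ m := (le_max_right _ _).trans hm
      exact_mod_cast this
    have h2 := cS0 m
    have h3 : (0 : ℝ) < xc ^ m := pow_pos xc_pos _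
    positivity
  -- the numbers
  obtain ⟨B, hB⟩ : ∃ B : ℝ, B = Cm ^ 2 := ⟨_, rfl⟩
  have hB0 : 0 < B := by rw [hB]; positivity
  have hMr : (0 : ℝ) < M := by exact_mod_cast hM1'
  have n1 : B / (c ^ 2 * M) ≤ e / 4 := by
    have h1 : (M1 : ℝ) ≤ M := by exact_mod_cast hMM1
    have h2 := hM1.trans h1
    rw [← hB, div_le_iff₀ (by positivity)] at h2
    rw [div_le_iff₀ (by positivity)]
    nlinarith
  have n2 : 2 * (64 / 2 ^ s' * B / c) / c ≤ e / 4 := by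
    have h1 : (2 : ℝ) ^ s1 ≤ 2 ^ s' := pow_le_pow_right₀ (by norm_num) hss1
    have h2 := hs1.le.trans h1
    rw [← hB, div_le_iff₀ (by positivity)] at h2
    have e1 : 2 * (64 / 2 ^ s' * B / c) / c = 128 * B / (c ^ 2 * 2 ^ s') := by
      field_simp
      norm_num
    rw [e1, div_le_iff₀ (by positivity)]
    nlinarith
  have n3 : CL / 2 ^ c5 / c ≤ e / 4 := by
    have h2 := hc5.le
    rw [div_le_iff₀ (by positivity)] at h2
    rw [div_div, div_le_iff₀ (by positivity)]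
    nlinarith
  have hf1 : ∀ t : List Bool, |TIP.ind (rvw t ∈ Q)| ≤ 1 := fun t => by
    rw [abs_of_nonneg (TIP.ind_nonneg _)]
    exact TIP.ind_le_one _
  have key := T_tip (M := M) (s := 0) (s' := s') (lv := lv) (c := c) (c' := c) (x := e / 4) (x' := e / 4) (ε' := e) (τ := 0)
    (g := MA (gB q) n) (g' := MA (gB q) n') (m0 := 1) (B := B) (B' := B) (β := CL / 2 ^ c5) (β' := CL / 2 ^ c5)
    (err := 6 * e) (r0 := 2 ^ (b + 7 + l0 + l1 + 3 * M * s' + 1)) (Ch := fun _ => C0) (S := AAF n) (S' := AAF n')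
    (p := pA (gB q) n) (p' := pA (gB q) n') (q := fun t => TIP.ind (rvw t ∈ Q)) (Φ := fun _ => 1) (er := fun _ => 0)
    (θ := fun _ _ => 1) (θ' := fun _ _ => 1) (U := fun i => Ub (lv i)) (U' := fun i => Ub (lv i)) hgap hss8 hM1'
    (fun i hi => Nat.pow_le_pow_right (by norm_num) (by have h3 := hlvi i hi; rw [hlv']; omega))
    (by rw [hB]; exact ensD hn2 hM1' hN (hpos n hn1) hmom hgap hl0 (fun i hi => (g2 i hi).1) hS) rfl
    (levE hCL.le hf1 hN hl1 (fun i hi => (g2 i hi).2) hlev)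
    (by rw [hB]; exact ensD hn2' hM1' hN' (hpos n' hn1') hmom hgap hl0 (fun i hi => (g2' i hi).1) hS)
    (levE hCL.le hf1 hN' hl1 (fun i hi => (g2' i hi).2) hlev)
    (by positivity) hf1 (innQ (b := b + 2) (fun i _ => by rw [hlv']; omega) (inn_rvw hQ)) hc hc he0
    (by
      rw [add_div]
      linarith) he2 le_rfl (fun _ => by rw [abs_one])
    (fun A Y _ _ _ => by rw [sub_self, abs_zero]) (fun _ => le_rfl) (by simp)
    (by
      rw [zero_mul, zero_add, add_div]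
      nlinarith)
  have a1 := near hn2 (Q := Q) (e := e) (q := q) (fun j hj1 hj2 => hslow b k n j ((le_max_left _ _).trans hk) g1 hN hj1 hj2 Q hQ)
  have a2 := near hn2' (Q := Q) (e := e) (q := q) (fun j hj1 hj2 =>
    hslow b k' n' j ((le_max_left _ _).trans hk') g1' hN' hj1 hj2 Q hQ)
  have p1 := hpos n hn1
  have p2 := hpos n' hn1'
  obtain ⟨X, hX⟩ : ∃ X : ℝ, X = (∑ t ∈ AAF n, pA (gB q) n t * TIP.ind (rvw t ∈ Q)) / MA (gB q) n := ⟨_, rfl⟩
  obtain ⟨X', hX'⟩ : ∃ X' : ℝ, X' = (∑ t ∈ AAF n', pA (gB q) n' t * TIP.ind (rvw t ∈ Q)) / MA (gB q) n' := ⟨_, rfl⟩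
  have b1 : |X - TOG.Pn n Q| ≤ e := by
    have h1 : X - TOG.Pn n Q = (∑ t ∈ AAF n, pA (gB q) n t * TIP.ind (rvw t ∈ Q) - MA (gB q) n * TOG.Pn n Q) / MA (gB q) n := by
      rw [hX]
      field_simp
    rw [h1, abs_div, abs_of_pos p1, div_le_iff₀ p1]
    exact a1
  have b2 : |X' - TOG.Pn n' Q| ≤ e := by
    have h1 : X' - TOG.Pn n' Q = (∑ t ∈ AAF n', pA (gB q) n' t * TIP.ind (rvw t ∈ Q) - MA (gB q) n' * TOG.Pn n' Q) /
        MA (gB q) n' := by
      rw [hX']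
      field_simp
    rw [h1, abs_div, abs_of_pos p2, div_le_iff₀ p2]
    exact a2
  have b3 : |X' - X| ≤ 6 * e := by
    have h1 : ∑ t ∈ AAF n', pA (gB q) n' t * (1 : ℝ) = MA (gB q) n' := by
      unfold MA
      exact sum_congr rfl fun t _ => mul_one _
    simp only [one_mul] at key
    rw [h1, ← hX] at key
    have h2 : X' - X = (∑ t ∈ AAF n', pA (gB q) n' t * TIP.ind (rvw t ∈ Q) - X * MA (gB q) n') / MA (gB q) n' := by
      rw [hX']
      field_simp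
    rw [h2, abs_div, abs_of_pos p2, div_le_iff₀ p2]
    exact key
  have d1 := abs_le.1 b1
  have d2 := abs_le.1 b2
  have d3 := abs_le.1 b3
  rw [abs_le]
  constructor
  · linarith [d1.1, d2.2, d3.1]
  · linarith [d1.2, d2.1, d3.2]

end MCP

end HexObs
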