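import Pool.Agent.MC.Exit
import Pool.Agent.IW.Loc

/-!
MC: from the mixing of the starts on words (`MixN`) to the total variation distance between the first m steps of the walk with
n steps and of the infinite walk, m of the order of n (helper11).
-/

set_option autoImplicit false

open MeasureTheory Filter Topology
open scoped Classical

namespace Pool.Agent.IW

open Res

open HexObs (SawN cS Saw oo up vx dx tf tip xc vx_append)

open HexObs.TOG (Pn)

open HexObs.MCP

open HexObs.TIW (en hn)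

namespace MC

/-- the walk stays in the ball of radius 2 ^ b for its first m steps, which are in W -/
def StQ (b m : ℕ) (W : Set (ℕ → Fin 3)) : Set (List Bool) :=
  {t | m ≤ t.length ∧ (∀ i, i ≤ m → hn (vx oo up t i) < 2 ^ b) ∧ ext (NTF.sw m (t.take m)) ∈ W}

lemma stE_StQ (b m : ℕ) (W : Set (ℕ → Fin 3)) : StE b (StQ b m W) := by
  intro P Y _ hP
  constructor
  · rintro ⟨h1, h2, h3⟩
    rcases le_or_gt m P.length with h | h
    · refine ⟨h, fun i hi => ?_, ?_⟩
      · have h4 := h2 i hi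
        rwa [vx_append (by omega)] at h4
      · rwa [List.take_append_of_le_length h] at h3
    · exfalso
      have h4 := h2 P.length h.le
      rw [vx_append (Nat.le_succ _)] at h4
      exact absurd h4 (not_lt.2 hP)
  · rintro ⟨h1, h2, h3⟩
    refine ⟨by rw [List.length_append]; omega, fun i hi => ?_, ?_⟩
    · rw [vx_append (by omega)]
      exact h2 i hi
    · rwa [List.take_append_of_le_length h1]

lemma law_low {n m b : ℕ} {W : Set (ℕ → Fin 3)} (hm : m ≤ n) (hn : 0 < n) (hW : Loc m W)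
    (hr : ∀ w : ℕ → Fin 3, (fun i => w i + 1) ∈ W ↔ w ∈ W) :
    (law n).real W ≤ Pn n (StQ b m W) + Pn n {t | ∃ i, i ≤ m ∧ (2 : ℤ) ^ b ≤ HexObs.TIW.hn (vx oo up t i)} := by
  rw [law_Pn hW hm hn hr]
  refine (HexObs.TIP.Nf.Pn_mono fun t ht h => ?_).trans (HexObs.TIP.Nf.Pn_union n _ _)
  by_cases hc : ∃ i, i ≤ m ∧ (2 : ℤ) ^ b ≤ HexObs.TIW.hn (vx oo up t i)
  · exact Or.inr hc
  · push Not at hc
    refine Or.inl ⟨?_, hc, (sw_take hW hm t).1 h⟩
    rw [ht.1]
    exact hm

lemma law_up {n m b : ℕ} {W : Set (ℕ → Fin 3)} (hm : m ≤ n) (hn : 0 < n) (hW : Loc m W)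
    (hr : ∀ w : ℕ → Fin 3, (fun i => w i + 1) ∈ W ↔ w ∈ W) : Pn n (StQ b m W) ≤ (law n).real W := by
  rw [law_Pn hW hm hn hr]
  exact HexObs.TIP.Nf.Pn_mono fun t _ h => (sw_take hW hm t).2 h.2.2

/-- the laws of the first m steps, rotation invariant events -/
theorem law_close (hM : MixN) {ε : ℝ} (hε : 0 < ε) : ∃ (δ : ℝ) (n0 : ℕ), 0 < δ ∧ δ ≤ 1 ∧ 1 ≤ n0 ∧
    ∀ n n' m : ℕ, n0 ≤ n → n ≤ n' → (m : ℝ) ≤ δ * n → ∀ W : Set (ℕ → Fin 3), Loc m W →
      (∀ w : ℕ → Fin 3, (fun i => w i + 1) ∈ W ↔ w ∈ W) → (law n).real W - (law n').real W ≤ ε := by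
  obtain ⟨C, k0, hmix⟩ := hM (ε / 2) (half_pos hε)
  obtain ⟨δ, k1, hδ, hex⟩ := exitN' (ε / 2) C (half_pos hε)
  obtain ⟨n0, hn0⟩ := HexObs.TIP.NQ.ex_scale (max k0 (max k1 C))
  refine ⟨min δ 1, max n0 1, lt_min hδ one_pos, min_le_right _ _, le_max_right _ _, fun n n' m hn hnn hm W hW hr => ?_⟩
  have hn1 : 0 < n := by
    have := (le_max_right _ _).trans hn
    omega
  obtain ⟨k, hk, s1, s2⟩ := hn0 n ((le_max_left _ _).trans hn)
  obtain ⟨k', hk', s1', s2'⟩ := hn0 n' (((le_max_left _ _).trans hn).trans hnn)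
  have hkC : C ≤ k := ((le_max_right _ _).trans (le_max_right _ _)).trans hk
  have hkk : k ≤ k' := by
    by_contra hc
    have h1 : HexObs.PW.mZ (2 ^ (k' + 1)) ≤ HexObs.PW.mZ (2 ^ k) := HexObs.PW.mZ_mono (Nat.pow_le_pow_right (by norm_num) (by omega))
    have h2 : (n : ℝ) ≤ n' := by exact_mod_cast hnn
    linarith
  have hn0' : (0 : ℝ) ≤ n := Nat.cast_nonneg _
  have hmn : m ≤ n := by
    have : (m : ℝ) ≤ n := hm.trans ((mul_le_mul_of_nonneg_right (min_le_right _ _) hn0').trans (by rw [one_mul]))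
    exact_mod_cast this
  have h1 := law_low (b := k - C) hmn hn1 hW hr
  have h2 := law_up (b := k - C) (hmn.trans hnn) (by omega) hW hr
  have h3 := hmix (k - C) k k' n n' ((le_max_left _ _).trans hk) ((le_max_left _ _).trans hk') (by omega) (by omega)
    ⟨s1, s2⟩ ⟨s1', s2'⟩ _ (stE_StQ (k - C) m W)
  have h4 := hex k n m (((le_max_left _ _).trans (le_max_right _ _)).trans hk) ⟨s1, s2⟩
    (hm.trans (mul_le_mul_of_nonneg_right (min_le_left _ _) hn0'))
  have h5 := (abs_le.1 h3).2
  linarith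

lemma begins_loc {n m : ℕ} {η η' : ℕ → Fin 3} (h : ∀ i, i < m → η i = η' i) : begins n m η = begins n m η' := by
  unfold begins
  congr 3
  ext s
  simp only [Finset.mem_filter, and_congr_right_iff]
  intro _
  exact ⟨fun h1 i hi => (h1 i hi).trans (h i hi), fun h1 i hi => (h1 i hi).trans (h i hi).symm⟩

lemma begins_rot {n m : ℕ} (hm : m ≤ n) (η : ℕ → Fin 3) : begins n m (fun i => η i + 1) = begins n m η := by
  rw [← law_cyl hm, ← law_cyl hm]
  have hl : Loc m (cyl m (fun i => η i + 1)) := by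
    intro w w' e hw i hi
    rw [← e i hi]
    exact hw i hi
  rw [← law_rot1 hl hm]
  congr 1
  ext w
  exact ⟨fun h i hi => add_right_cancel (h i hi), fun h i hi => by show w i + 1 = η i + 1; rw [h i hi]⟩

lemma cyl_loc (m : ℕ) (η : ℕ → Fin 3) : Loc m (cyl m η) := by
  intro w w' e hw i hi
  rw [← e i hi]
  exact hw i hi

lemma sum_begins {n m : ℕ} (hm : m ≤ n) : ∑ f : Fin m → Fin 3, begins n m (ext f) = 1 := by
  haveI := law_prob (NTSF.saw_nonempty n)
  have h : Loc m (Set.univ : Set (ℕ → Fin 3)) := fun _ _ _ _ => Set.mem_univ _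
  have h1 := h.sum (law n)
  rw [probReal_univ] at h1
  rw [h1]
  simp only [Set.mem_univ, Finset.filter_true]
  exact Finset.sum_congr rfl fun f _ => (law_cyl hm _).symm

/-- the total variation distance between the first m steps for n and n' steps -/
theorem tv_close (hM : MixN) {ε : ℝ} (hε : 0 < ε) : ∃ (δ : ℝ) (n0 : ℕ), 0 < δ ∧ δ ≤ 1 ∧ 1 ≤ n0 ∧
    ∀ n n' m : ℕ, n0 ≤ n → n ≤ n' → (m : ℝ) ≤ δ * n →
      ∑ f : Fin m → Fin 3, |begins n m (ext f) - begins n' m (ext f)| ≤ ε := by
  obtain ⟨δ, n0, hδ, hδ1, hn0, hcl⟩ := law_close hM (half_pos hε)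
  refine ⟨δ, n0, hδ, hδ1, hn0, fun n n' m hn hnn hm => ?_⟩
  have hmn : m ≤ n := by
    have h0 : (0 : ℝ) ≤ n := Nat.cast_nonneg _
    have : (m : ℝ) ≤ n := hm.trans ((mul_le_mul_of_nonneg_right hδ1 h0).trans (by rw [one_mul]))
    exact_mod_cast this
  have hmn' := hmn.trans hnn
  obtain ⟨W, hWd⟩ : ∃ W : Set (ℕ → Fin 3), W = {w | 0 < begins n m w - begins n' m w} := ⟨_, rfl⟩
  have hW : Loc m W := by
    intro w w' e hw
    rw [hWd] at hw ⊢
    show 0 < begins n m w' - begins n' m w'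
    rw [← begins_loc e, ← begins_loc e]
    exact hw
  have hr : ∀ w : ℕ → Fin 3, (fun i => w i + 1) ∈ W ↔ w ∈ W := by
    intro w
    rw [hWd]
    show 0 < begins n m (fun i => w i + 1) - begins n' m (fun i => w i + 1) ↔ 0 < begins n m w - begins n' m w
    rw [begins_rot hmn, begins_rot hmn']
  haveI := law_prob (NTSF.saw_nonempty n)
  haveI := law_prob (NTSF.saw_nonempty n')
  have h1 := hcl n n' m hn hnn hm W hW hr
  have e1 : (law n).real W = ∑ f ∈ (Finset.univ : Finset (Fin m → Fin 3)).filter (fun f => ext f ∈ W), begins n m (ext f) := by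
    rw [hW.sum (law n)]
    exact Finset.sum_congr rfl fun f _ => law_cyl hmn _
  have e2 : (law n').real W = ∑ f ∈ (Finset.univ : Finset (Fin m → Fin 3)).filter (fun f => ext f ∈ W),
      begins n' m (ext f) := by
    rw [hW.sum (law n')]
    exact Finset.sum_congr rfl fun f _ => law_cyl hmn' _
  have e3 := sum_begins (m := m) hmn
  have e4 := sum_begins (m := m) hmn'
  have key : ∀ f : Fin m → Fin 3, |begins n m (ext f) - begins n' m (ext f)| =
      2 * (if ext f ∈ W then begins n m (ext f) - begins n' m (ext f) else 0) -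
        (begins n m (ext f) - begins n' m (ext f)) := by
    intro f
    by_cases h : ext f ∈ W
    · rw [if_pos h]
      have h2 : 0 < begins n m (ext f) - begins n' m (ext f) := by
        rw [hWd] at h
        exact h
      rw [abs_of_pos h2]
      ring
    · rw [if_neg h]
      have h2 : ¬ 0 < begins n m (ext f) - begins n' m (ext f) := by
        rw [hWd] at h
        exact h
      rw [abs_of_nonpos (not_lt.1 h2)]
      ring
  calc ∑ f : Fin m → Fin 3, |begins n m (ext f) - begins n' m (ext f)|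
      = 2 * ((law n).real W - (law n').real W) := by
        rw [Finset.sum_congr rfl fun f _ => key f, Finset.sum_sub_distrib, Finset.sum_sub_distrib, e3, e4, sub_self, sub_zero,
          ← Finset.mul_sum, ← Finset.sum_filter, Finset.sum_sub_distrib, e1, e2]
    _ ≤ ε := by linarith

/-- **the coupling with the infinite walk**: the total variation distance between the first m steps -/
theorem coupling_of (hM : MixN) {P : Measure (ℕ → Fin 3)} [IsProbabilityMeasure P]
    (hP : ∀ (η : ℕ → Fin 3) (m : ℕ), Tendsto (fun n => begins n m η) atTop (𝓝 (P.real {w | ∀ i, i < m → w i = η i})))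
    {ε : ℝ} (hε : 0 < ε) : ∃ δ : ℝ, 0 < δ ∧ δ ≤ 1 ∧ ∀ n m : ℕ, (m : ℝ) ≤ δ * n →
      ∑ f : Fin m → Fin 3, |begins n m (ext f) - P.real (cyl m (ext f))| ≤ ε := by
  obtain ⟨δ, n0, hδ, hδ1, hn0, hcl⟩ := tv_close hM hε
  have hn0' : (0 : ℝ) < n0 := by exact_mod_cast hn0
  refine ⟨min δ (1 / (2 * n0)), lt_min hδ (by positivity), (min_le_left _ _).trans hδ1, fun n m hm => ?_⟩
  have hnn : (0 : ℝ) ≤ n := Nat.cast_nonneg _
  -- the same for all large step numbers
  have key : ∀ n' : ℕ, max n n0 ≤ n' → ∑ f : Fin m → Fin 3, |begins n m (ext f) - begins n' m (ext f)| ≤ ε := by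
    intro n' hn'
    rcases le_or_gt n0 n with h | h
    · exact hcl n n' m h ((le_max_left _ _).trans hn') (hm.trans (mul_le_mul_of_nonneg_right (min_le_left _ _) hnn))
    · -- m = 0
      have h1 : (m : ℝ) < 1 := by
        have h2 : (n : ℝ) < n0 := by exact_mod_cast h
        have h3 : (m : ℝ) ≤ 1 / (2 * n0) * n := hm.trans (mul_le_mul_of_nonneg_right (min_le_right _ _) hnn)
        have h4 : 1 / (2 * (n0 : ℝ)) * n ≤ 1 / (2 * n0) * n0 := mul_le_mul_of_nonneg_left h2.le (by positivity)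
        have h5 : 1 / (2 * (n0 : ℝ)) * n0 = 1 / 2 := by field_simp
        linarith
      have h2 : m = 0 := by
        have : m < 1 := by exact_mod_cast h1
        omega
      subst h2
      have h3 := sum_begins (m := 0) (Nat.zero_le n)
      have h4 := sum_begins (m := 0) (Nat.zero_le n')
      rw [Fintype.sum_unique] at h3 h4 ⊢
      rw [h3, h4, sub_self, abs_zero]
      exact hε.le
  have hlim : Tendsto (fun n' => ∑ f : Fin m → Fin 3, |begins n m (ext f) - begins n' m (ext f)|) atTop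
      (𝓝 (∑ f : Fin m → Fin 3, |begins n m (ext f) - P.real (cyl m (ext f))|)) :=
    tendsto_finsetSum _ fun f _ => ((hP (ext f) m).const_sub _).abs
  exact le_of_tendsto hlim (by filter_upwards [eventually_ge_atTop (max n n0)] with n' hn' using key n' hn')

end MC

end Pool.Agent.IW
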