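import Pool.Agent.TIW.Lit
import Pool.Agent.TIP.DefsS

/-!
MC (macroscopic coupling of the n-step walk with the infinite walk, doc nu34/MC_83, helper83): literals.
Words start with the direction up; `en P` is the end of `P`.

* `StE b Q` : the event `Q` is decided before the walk has left the ball of radius `2 ^ b` about its start;
* `MixN` : the goal on words: the laws of the start up to the scale `2 ^ b` are the same for all numbers of steps of the scales
  `k ≥ b + C`;
* `ExitN` : few walks leave the ball of radius `2 ^ (k - c)` before the time `m_k / 2 ^ c1`.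
-/

set_option autoImplicit false

namespace HexObs

namespace MCP

open Finset TS SDN TIW

/-- events decided before the walk has left the ball of radius 2 ^ b about its start -/
def StE (b : ℕ) (Q : Set (List Bool)) : Prop := ∀ P Y : List Bool, P ++ Y ∈ SA → (2 : ℤ) ^ b ≤ hn (en P) →
  (P ++ Y ∈ Q ↔ P ∈ Q)

/-- **the goal on words** -/
def MixN : Prop := ∀ ε : ℝ, 0 < ε → ∃ C k0 : ℕ, ∀ b k k' n n' : ℕ, k0 ≤ k → k0 ≤ k' → b + C ≤ k → b + C ≤ k' →
  TIP.Sc k n → TIP.Sc k' n' → ∀ Q : Set (List Bool), StE b Q → |TOG.Pn n Q - TOG.Pn n' Q| ≤ ε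

/-- the first steps stay near the start -/
def ExitN : Prop := ∀ (ε : ℝ) (c : ℕ), 0 < ε → ∃ (δ : ℝ) (k0 : ℕ), 0 < δ ∧ ∀ k n m : ℕ, k0 ≤ k → TIP.Sc k n →
  (m : ℝ) ≤ δ * n → TOG.Pn n {t | ∃ i, i ≤ m ∧ (2 : ℤ) ^ (k - c) ≤ hn (vx oo up t i)} ≤ ε

end MCP

end HexObs
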