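import Pool.Agent.MC.Slow
import Pool.Agent.SLW.PubC

/-!
MC (macroscopic coupling, doc nu34/MC_83, helper83): literal of the joint form. `pT c t n` is the curve of the word `t`, turned by
`c`, in the scaling of the walks with `n` steps.
-/

set_option autoImplicit false

namespace HexObs

namespace MCP

open Finset TS SDN TIW

open NTSF (om)

open NTSF.Mg (pT)

/-- **the joint form on words**: the events of the start and the functions of the curve are asymptotically independent, and the
law of the curve does not see a rotation by 120 degrees -/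
def JointN : Prop := ∀ (ε : ℝ) (K : NNReal), 0 < ε → ∃ C k0 : ℕ, ∀ b k n : ℕ, k0 ≤ k → b + C ≤ k → TIP.Sc k n →
  ∀ Q : Set (List Bool), StE b Q → ∀ f : C(unitInterval, ℂ) → ℝ, LipschitzWith K f → (∀ γ, |f γ| ≤ 1) →
    |Eu n (fun t => TIP.ind (t ∈ Q) * f (pT 1 t n)) - TOG.Pn n Q * Eu n (fun t => f (pT 1 t n))| ≤ ε ∧
      |Eu n (fun t => f (pT om t n)) - Eu n (fun t => f (pT 1 t n))| ≤ ε

end MCP

end HexObs
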