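import Pool.Agent.MC.Last
import Pool.Agent.PW.TipNF

/-!
MC (helper83): the events of the start, read backwards from the tip, have in the plane ensembles the same probability as for the
walks with `n` steps, and the last letter is fair and asymptotically independent of them: **`ea_rvw`**, **`ea_last`**.
-/

set_option autoImplicit false

namespace HexObs

namespace MCP

open Finset TS SDN TIW

open Pool.Agent.IW (rvw rvw_app rvw_mem rvw_rvw split_last)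

lemma psi_rob {R : ℝ} (hR : 0 < R) {r : ℕ} {A Y : List Bool} (hY : ∀ i, i ≤ Y.length → hn (vx oo up Y i) < (r : ℤ)) :
    |psi R (A ++ Y) - psi R A| ≤ r / R := by
  have h0 : (hn (en Y) : ℝ) ≤ r := by
    have := (hY Y.length le_rfl).le
    exact_mod_cast this
  exact (psi_lip hR _ _).trans (div_le_div_of_nonneg_right ((hn_app A Y).trans h0) hR.le)

/-- the common form -/
theorem ea_of {Lg : ℝ} {g : ℝ → ℝ} (hg : PWN.Bump Lg g) {u : ℝ} (hu : g u = 1) {ε : ℝ} (hε : 0 < ε) : ∃ C k0 : ℕ,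
    ∀ b k n : ℕ, k0 ≤ k → b + C ≤ k → TIP.Sc k n → ∀ Q : Set (List Bool), StE b Q → ∀ (q : List Bool → ℝ) (a : ℝ), |a| ≤ 1 →
      (∀ t, |q t| ≤ 1) → PWN.Inn (b + 2) q →
      (∀ R : ℝ, (2 : ℝ) ^ b + 2 ≤ R → ∀ m, ∑ t ∈ sawF m, a * (TIP.ind (t ∈ Q) * psi R t) = ∑ t ∈ sawF m, psi R t * q t) →
      |PWN.EA g n q - a * TOG.Pn n Q| ≤ ε := by
  obtain ⟨δ, hδ⟩ : ∃ δ : ℝ, δ = ε / 3 := ⟨_, rfl⟩
  have hδ0 : 0 < δ := by rw [hδ]; positivity
  obtain ⟨τ, hτ, hT⟩ := PWN.tipN hg hu δ hδ0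
  obtain ⟨c3, k3, h3⟩ := tip_far (e := δ) hδ0
  obtain ⟨j, hj⟩ := pow_unbounded_of_one_lt (1 / τ) (one_lt_two)
  rw [div_lt_iff₀ hτ] at hj
  obtain ⟨c1, hc1⟩ : ∃ c1 : ℕ, c1 = c3 + 2 + j := ⟨_, rfl⟩
  obtain ⟨C1, hT⟩ := hT c1
  obtain ⟨C0, hC0⟩ : ∃ C0 : ℕ, C0 = max C1 c1 := ⟨_, rfl⟩
  have g1 : C1 ≤ C0 := by rw [hC0]; exact le_max_left _ _
  have g3 : c1 ≤ C0 := by rw [hC0]; exact le_max_right _ _
  obtain ⟨k1, hT⟩ := hT C0 (C0 + C1) g1 le_rfl
  obtain ⟨kM, hM⟩ := PWN.MA_pos SLW.aReg hg hu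
  refine ⟨C0 + C1 + 2 + c3, k3 + k1 + kM + C0 + c3 + 3, fun b k n hk hb hN Q hQ q a ha hq hI hs => ?_⟩
  obtain ⟨R, hR⟩ : ∃ R : ℝ, R = 2 ^ (k - c3 - 1) := ⟨_, rfl⟩
  have hR0 : 0 < R := by rw [hR]; positivity
  have e1 : (2 : ℝ) ^ (k - c3) = 2 * R := by
    rw [hR, ← pow_succ']
    congr 1
    omega
  have e2 : R = 2 * 2 ^ (k - c3 - 2) := by
    rw [hR, ← pow_succ']
    congr 1
    omega
  have e3 : (2 : ℝ) ^ (k - c3 - 2) = 2 ^ j * 2 ^ (k - c1) := by
    rw [← pow_add]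
    congr 1
    omega
  have hr1 : (2 : ℝ) ^ (k - c1) / R ≤ τ := by
    have h5 : (0 : ℝ) < 2 ^ (k - c1) := by positivity
    rw [div_le_iff₀ hR0, e2, e3]
    nlinarith
  have hr0 : (2 : ℝ) ^ (k - C0) ≤ 2 ^ (k - c1) := pow_le_pow_right₀ (by norm_num) (by omega)
  have hr2 : (2 : ℝ) ^ (k - C0) / R ≤ τ := (div_le_div_of_nonneg_right hr0 hR0.le).trans hr1
  have hbR : (2 : ℝ) ^ b ≤ 2 ^ (k - c3 - 2) := pow_le_pow_right₀ (by norm_num) (by omega)
  have hb2 : (2 : ℝ) ≤ 2 ^ (k - c3 - 2) := by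
    calc (2 : ℝ) = 2 ^ 1 := (pow_one _).symm
      _ ≤ 2 ^ (k - c3 - 2) := pow_le_pow_right₀ (by norm_num) (by omega)
  have hb3 : (2 : ℝ) ^ (k - c1) ≤ 2 ^ (k - c3 - 2) := pow_le_pow_right₀ (by norm_num) (by omega)
  have h4 := hT k n k n (by omega) le_rfl hN hN q (psi R) (fun _ => (2 : ℝ) ^ (k - C0) / R)
      (fun t => a * (TIP.ind (t ∈ Q) * psi R t)) (psi R) hq (psi_abs R)
      (fun t => by
        rw [abs_mul]
        exact mul_le_one₀ ha (abs_nonneg _) (F_le Q R t))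
      (psi_abs R) (fun A E hA hE => hI A E hA ((pow_le_pow_right₀ (by norm_num) (by omega)).trans hE))
      (fun A Y _ _ hY => by
        have := psi_rob hR0 (A := A) hY
        push_cast at this
        exact this)
      (fun _ => by positivity)
      (fun m _ _ => by
        rw [sum_const, card_sawF, nsmul_eq_mul, mul_comm]
        refine mul_le_mul_of_nonneg_right ?_ (cS0 m).le
        exact pow_le_pow_left₀ (by positivity) hr2 2)
      (fun m => hs R (by linarith) m) (fun _ => rfl)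
      (fun A Y hA hY => by
        have h5 := F_rob hQ (R := R) (τ := τ) (r := 2 ^ (k - c1))
          (by push_cast; linarith) (by push_cast; rw [← div_le_iff₀ hR0]; exact hr1) hA
          (fun i hi => by have := hY i hi; push_cast; exact this)
        rw [← mul_sub, abs_mul]
        calc _ ≤ 1 * τ := mul_le_mul ha h5 (abs_nonneg _) zero_le_one
          _ = τ := one_mul _)
      (fun A Y _ hY => by
        have := psi_rob hR0 (A := A) (r := 2 ^ (k - c1)) (Y := Y) (fun i hi => by have := hY i hi; push_cast; exact this)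
        push_cast at this
        exact this.trans hr1)
  have e4 : PWN.En n (fun t => a * (TIP.ind (t ∈ Q) * psi R t)) = a * Eu n (fun t => TIP.ind (t ∈ Q) * psi R t) := by
    unfold PWN.En Eu
    rw [← mul_sum, mul_div_assoc]
  have e5 : PWN.En n (psi R) = Eu n (psi R) := rfl
  rw [e4, e5] at h4
  have c3' : 1 - Eu n (psi R) ≤ δ := by
    refine le_trans ?_ (h3 k n (by omega) hN)
    rw [Pn_Eu, ← Eu_one n, ← Eu_sub]
    refine Eu_mono fun t => ?_
    by_cases ht : hn (en t) < 2 ^ (k - c3)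
    · rw [TIP.ind_pos (show t ∈ {t | hn (en t) < 2 ^ (k - c3)} from ht)]
      linarith [psi_nonneg R t]
    · have h5 : 2 * R ≤ hn (en t) := by
        rw [← e1]
        push Not at ht
        exact_mod_cast ht
      rw [psi_one hR0 h5, sub_self]
      exact TIP.ind_nonneg _
  have c4 : Eu n (psi R) ≤ 1 := by
    rw [← Eu_one n]
    exact Eu_mono fun t => psi_le_one R t
  have b1 := cut_cost n Q R
  have b8 := PWN.EA_abs hg (hM k n (by omega) hN.1) hq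
  obtain ⟨y, hy⟩ : ∃ y, y = PWN.EA g n q := ⟨_, rfl⟩
  obtain ⟨P, hP⟩ : ∃ P, P = TOG.Pn n Q := ⟨_, rfl⟩
  obtain ⟨E1, hE1⟩ : ∃ E1, E1 = Eu n (fun t => TIP.ind (t ∈ Q) * psi R t) := ⟨_, rfl⟩
  obtain ⟨E2, hE2⟩ : ∃ E2, E2 = Eu n (psi R) := ⟨_, rfl⟩
  rw [← hE1, ← hE2, ← hy] at h4
  rw [← hP, ← hE1, ← hE2] at b1
  rw [← hE2] at c3' c4
  rw [← hy] at b8
  rw [← hy, ← hP]
  have d1 : |y * (1 - E2)| ≤ δ := by
    rw [abs_mul, abs_of_nonneg (by linarith : 0 ≤ 1 - E2)]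
    calc |y| * (1 - E2) ≤ 1 * δ := mul_le_mul b8 c3' (by linarith) zero_le_one
      _ = δ := one_mul _
  have d2 : |a * (P - E1)| ≤ δ := by
    rw [abs_mul]
    calc _ ≤ 1 * δ := mul_le_mul ha (b1.trans c3') (abs_nonneg _) zero_le_one
      _ = δ := one_mul _
  have e : y - a * P = y * (1 - E2) - (a * E1 - y * E2) - a * (P - E1) := by ring
  have h5 := abs_le.1 d1
  have h6 := abs_le.1 d2
  have h7 := abs_le.1 h4
  have h8 : ε = 3 * δ := by
    rw [hδ]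
    ring
  rw [e, abs_le, h8]
  constructor <;> linarith [h5.1, h5.2, h6.1, h6.2, h7.1, h7.2]

/-- **the events of the start, read backwards from the tip, in the plane ensembles** -/
theorem ea_rvw {Lg : ℝ} {g : ℝ → ℝ} (hg : PWN.Bump Lg g) {u : ℝ} (hu : g u = 1) {ε : ℝ} (hε : 0 < ε) : ∃ C k0 : ℕ,
    ∀ b k n : ℕ, k0 ≤ k → b + C ≤ k → TIP.Sc k n → ∀ Q : Set (List Bool), StE b Q →
      |PWN.EA g n (fun t => TIP.ind (rvw t ∈ Q)) - TOG.Pn n Q| ≤ ε := by
  obtain ⟨C, k0, h⟩ := ea_of hg hu hε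
  refine ⟨C, k0, fun b k n hk hb hN Q hQ => ?_⟩
  have h1 := h b k n hk hb hN Q hQ (fun t => TIP.ind (rvw t ∈ Q)) 1 (by rw [abs_one]) (fun t => ind_abs _) (inn_rvw hQ)
    (fun R _ m => by
      rw [← sum_rvw m (fun t => psi R t * TIP.ind (rvw t ∈ Q))]
      rcases Nat.eq_zero_or_pos m with rfl | hm
      · refine sum_congr rfl fun t ht => ?_
        rw [sawF_zero ht]
        have e : rvw [] = [] := rfl
        rw [e, e]
        ring
      · refine sum_congr rfl fun t ht => ?_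
        rw [rvw_rvw hm (mem_sawF.1 ht).1, psi_rvw]
        ring)
  rwa [one_mul] at h1

/-- **the same with the last letter** -/
theorem ea_last {Lg : ℝ} {g : ℝ → ℝ} (hg : PWN.Bump Lg g) {u : ℝ} (hu : g u = 1) {ε : ℝ} (hε : 0 < ε) : ∃ C k0 : ℕ,
    ∀ b k n : ℕ, k0 ≤ k → b + C ≤ k → TIP.Sc k n → ∀ Q : Set (List Bool), StE b Q → ∀ c : Bool,
      |PWN.EA g n (fun t => TIP.ind (rvw t ∈ Q) * TIP.ind (t.getLast? = some c)) - TOG.Pn n Q / 2| ≤ ε := by
  obtain ⟨C, k0, h⟩ := ea_of hg hu hε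
  refine ⟨C, k0, fun b k n hk hb hN Q hQ c => ?_⟩
  have h1 := h b k n hk hb hN Q hQ (qE Q c) (1 / 2) (by rw [abs_of_pos (by norm_num)]; norm_num) (qE_abs Q c)
    (qE_inn hQ le_rfl c) (fun R hR m => by
      have h2 := sum_q hQ (n := 0) (fun _ => 1) hR c m
      unfold Hc PhE at h2
      simp only [mul_one, one_mul] at h2
      rw [← h2]
      exact sum_congr rfl fun t _ => by ring)
  have e : 1 / 2 * TOG.Pn n Q = TOG.Pn n Q / 2 := by ring
  rwa [e] at h1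

end MCP

end HexObs
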