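import Pool.Agent.MC.Defs
import Pool.Agent.IW.PS
import Pool.Agent.TIP.NfM

/-!
MC: the first steps stay near the start (helper11; from the modulus of continuity of the uniform walks).
-/

set_option autoImplicit false

namespace HexObs

namespace MCP

open Finset TS SDN TIW

open NTF (JJ)

lemma hn_le_JJ' (p : Pt) : ((hn p : ℤ) : ℝ) ≤ 2 * ‖JJ p‖ := by
  have key : ∀ q : Pt, q = up ∨ q = rotL up ∨ q = rotR up → |((ip p q : ℤ) : ℝ)| ≤ 2 * ‖JJ p‖ := by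
    intro q hq
    have h1 : ((ip p q : ℤ) : ℝ) ^ 2 ≤ 4 * ‖JJ p‖ ^ 2 := by
      rw [NTF.JJ_norm]
      have : ip p q ^ 2 ≤ 4 * nrm p := by
        rcases hq with rfl | rfl | rfl <;> simp only [ip, nrm, up, rotL, rotR] <;>
          nlinarith [sq_nonneg p.1, sq_nonneg p.2, sq_nonneg (p.1 + p.2)]
      exact_mod_cast this
    apply abs_le_of_sq_le_sq _ (by positivity)
    rw [mul_pow]
    norm_num
    exact h1
  unfold hn
  push_cast
  exact max_le (key _ (Or.inl rfl)) (max_le (key _ (Or.inr (Or.inl rfl))) (key _ (Or.inr (Or.inr rfl))))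

/-- **the first steps stay near the start** -/
theorem exitN' : ExitN := by
  intro ε c hε
  obtain ⟨a, A, ha, hA, hpow⟩ := TIP.NQ.scale_pow
  obtain ⟨θ, hθ, n1, hpf⟩ := TIP.NQ.pf (r := 1 / (2 * 2 ^ c * A)) (e := ε) (by positivity) hε
  obtain ⟨c0, hc0, hlo⟩ := SIM.mlowZ
  obtain ⟨k1, hk1⟩ := pow_unbounded_of_one_lt ((n1 : ℝ) / c0) (one_lt_two (α := ℝ))
  refine ⟨min θ 1, max k1 c, lt_min hθ one_pos, fun k n m hk hsc hm => ?_⟩
  have hk1' : k1 ≤ k := (le_max_left _ _).trans hk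
  have hkc : c ≤ k := (le_max_right _ _).trans hk
  obtain ⟨-, hp⟩ := hpow k n hsc.1 hsc.2
  have hn1 : n1 ≤ n := by
    have h1 := hlo k
    rw [div_lt_iff₀ hc0] at hk1
    have h2 : (2 : ℝ) ^ k1 ≤ (2 : ℝ) ^ (4 / 3 * (k : ℝ)) := by
      rw [← Real.rpow_natCast]
      refine Real.rpow_le_rpow_of_exponent_le (by norm_num) ?_
      have h3 : (k1 : ℝ) ≤ k := by exact_mod_cast hk1'
      have h4 : (0 : ℝ) ≤ k := Nat.cast_nonneg _
      linarith
    have h5 : (n1 : ℝ) ≤ n := by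
      have h6 := hsc.1
      have h7 : (2 : ℝ) ^ k1 * c0 ≤ (2 : ℝ) ^ (4 / 3 * (k : ℝ)) * c0 := mul_le_mul_of_nonneg_right h2 hc0.le
      have h8 : c0 * (2 : ℝ) ^ (4 / 3 * (k : ℝ)) ≤ PW.mZ (2 ^ k) := h1
      linarith
    exact_mod_cast h5
  have hn0 : (0 : ℝ) ≤ n := Nat.cast_nonneg _
  refine (TIP.Nf.Pn_mono fun t ht h => ?_).trans (hpf n hn1)
  obtain ⟨i, i1, i2⟩ := h
  have hmθ : (m : ℝ) ≤ θ * n := hm.trans (mul_le_mul_of_nonneg_right (min_le_left _ _) hn0)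
  have hmn : m ≤ n := by
    have : (m : ℝ) ≤ n := hm.trans ((mul_le_mul_of_nonneg_right (min_le_right _ _) hn0).trans (by rw [one_mul]))
    exact_mod_cast this
  refine ⟨i, ?_, i1.trans hmn, ?_⟩
  · have : (i : ℝ) ≤ m := by exact_mod_cast i1
    linarith
  · have h1 := hn_le_JJ' (vx oo up t i)
    have h2 : (2 : ℝ) ^ (k - c) ≤ ((hn (vx oo up t i) : ℤ) : ℝ) := by exact_mod_cast i2
    have h3 : (2 : ℝ) ^ k = 2 ^ (k - c) * 2 ^ c := by
      rw [← pow_add, Nat.sub_add_cancel hkc]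
    have h4 : (0 : ℝ) < 2 ^ c := by positivity
    rw [one_div, inv_mul_le_iff₀ (by positivity)]
    calc (n : ℝ) ^ (3 / 4 : ℝ) ≤ A * 2 ^ k := hp
      _ = A * (2 ^ (k - c) * 2 ^ c) := by rw [h3]
      _ ≤ A * ((2 * ‖JJ (vx oo up t i)‖) * 2 ^ c) := by
          refine mul_le_mul_of_nonneg_left (mul_le_mul_of_nonneg_right (h2.trans h1) h4.le) hA.le
      _ = 2 * 2 ^ c * A * ‖JJ (vx oo up t i)‖ := by ring

end MCP

end HexObs
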