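import Pool.Agent.MC.Rev
import Pool.Agent.PW.ThDef
import Pool.Agent.PW.CurveG

/-!
MC, the joint form (helper83): the path of the reversed word seen from its end, in the frame of its last direction, is the path
of the word up to a rotation that depends on the last letter only.
-/

set_option autoImplicit false

namespace HexObs

namespace MCP

open Finset TS SDN TIW

open NTSF (uE JJ_mulE uE_norm pE om om_cube om_norm om_ne)

open NTF (JJ JJ_sub)

open Pool.Agent.IW (rvw rvw_app rvw_mem rvw_rvw split_last)

lemma uE_mulE (u v : Pt) : uE (mulE u v) = uE u * uE v := by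
  have h3 : (√3 : ℝ) * √3 = 3 := Real.mul_self_sqrt (by norm_num)
  apply Complex.ext
  · rw [Complex.mul_re]
    simp only [mulE, uE]
    push_cast
    linear_combination (1 / 4 * ((u.2 : ℝ) * v.2)) * h3
  · rw [Complex.mul_im]
    simp only [mulE, uE]
    push_cast
    ring

lemma om_uE : om = uE (-1, 1) := by
  unfold om uE
  have e : 2 * (Real.pi : ℂ) * Complex.I / 3 = ((2 * Real.pi / 3 : ℝ) : ℂ) * Complex.I := by
    push_cast
    ring
  have e2 : 2 * Real.pi / 3 = Real.pi - Real.pi / 3 := by ring
  rw [e]
  apply Complex.ext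
  · rw [Complex.exp_ofReal_mul_I_re, e2, Real.cos_pi_sub, Real.cos_pi_div_three]
    push_cast
    ring
  · rw [Complex.exp_ofReal_mul_I_im, e2, Real.sin_pi_sub, Real.sin_pi_div_three]
    push_cast
    ring

/-- the frame: inverse of the last direction -/
noncomputable def fr (s : List Bool) : ℂ := (uE (rt s))⁻¹

lemma fr_norm (s : List Bool) : ‖fr s‖ = 1 := by
  unfold fr
  rw [norm_inv, uE_norm (nrm_rt s), inv_one]

/-- the rotation that belongs to the last letter -/
noncomputable def kap (c : Bool) : ℂ := (uE (rotTo up (turn c (-up))))⁻¹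

lemma kap_true : kap true = om := by
  have e : rotTo up (turn true (-up)) = mulE (-1, 1) (-1, 1) := by decide
  unfold kap
  rw [e, uE_mulE, ← om_uE]
  refine inv_eq_of_mul_eq_one_right ?_
  rw [mul_assoc]
  exact om_cube

lemma kap_false : kap false = om * om := by
  have e : rotTo up (turn false (-up)) = (-1, 1) := by decide
  unfold kap
  rw [e, ← om_uE]
  exact inv_eq_of_mul_eq_one_right om_cube

lemma kap_norm (c : Bool) : ‖kap c‖ = 1 := by
  cases c
  · rw [kap_false, norm_mul, om_norm, one_mul]
  · rw [kap_true, om_norm]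

/-- **the frame of the reversed word** -/
theorem frame_rvw (s : List Bool) (c : Bool) {i : ℕ} (hi : i ≤ s.length + 1) :
    fr (rvw (s ++ [c])) * pE (s.length + 1) (rvw (s ++ [c])) i = kap c * JJ (vx oo up (s ++ [c]) i) := by
  obtain ⟨u, hu, hk⟩ := rev_key s
  have hl : (rev s).length = s.length := rev_length s
  rw [rvw_app]
  -- the path
  have h0 := hk (s.length + 1) le_rfl
  rw [Nat.sub_self] at h0
  have h1 := hk (s.length + 1 - i) (Nat.sub_le _ _)
  rw [show s.length + 1 - (s.length + 1 - i) = i by omega] at h1
  have hv0 : vx oo up s 0 = 0 := rfl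
  have hp : vx oo up (s ++ [c]) i = mulE u (vx oo up (rev s) (s.length + 1 - i) - vx oo up (rev s) (s.length + 1)) := by
    rw [vx_append hi, h1, mulE_sub]
    have h2 : tip oo up s = -mulE u (vx oo up (rev s) (s.length + 1)) := by
      rw [hv0] at h0
      exact eq_neg_of_add_eq_zero_left h0.symm
    rw [h2]
    abel
  have hE : pE (s.length + 1) (rev s ++ [c]) i =
      JJ (vx oo up (rev s) (s.length + 1 - i) - vx oo up (rev s) (s.length + 1)) := by
    unfold pE
    rw [vx_append (by rw [hl]; omega), vx_append (by rw [hl]), JJ_sub]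
  -- the last direction
  have hd : mulE u (de (rev s)) = -up := by
    have h3 := hk s.length (by omega)
    rw [show s.length + 1 - s.length = 1 by omega] at h3
    have h4 : vx oo up s 1 = up := by
      have : vx oo up s 1 = oo + up := rfl
      rw [this]
      exact zero_add _
    have h5 : vx oo up (rev s) (s.length + 1) = vx oo up (rev s) s.length + de (rev s) := by
      rw [vx_succ]
      unfold de
      rw [hl]
    rw [h5, mulE_add, hv0] at h0
    rw [h4] at h3
    have h6 : up + mulE u (de (rev s)) = 0 := by
      calc up + mulE u (de (rev s)) = tip oo up s + mulE u (vx oo up (rev s) s.length) + mulE u (de (rev s)) := by rw [← h3]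
        _ = 0 := by rw [add_assoc]; exact h0.symm
    exact eq_neg_of_add_eq_zero_right h6
  have hde : de (rev s ++ [c]) = turn c (de (rev s)) := by
    have e1 : (rev s ++ [c]).length = (rev s).length + 1 := by simp
    unfold de
    rw [e1, dx_succ, dx_append le_rfl]
    congr 1
    have := tf_append_right (t := rev s) (s := [c]) 0
    rw [add_zero] at this
    rw [this]
    rfl
  have hrt : mulE u (rt (rev s ++ [c])) = rotTo up (turn c (-up)) := by
    unfold rt
    rw [hde]
    unfold rotTo
    rw [mulE_assoc, mulE_turn, hd]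
  have hne : uE (rt (rev s ++ [c])) ≠ 0 := norm_ne_zero_iff.1 (by rw [uE_norm (nrm_rt _)]; norm_num)
  have hne' : uE (rotTo up (turn c (-up))) ≠ 0 := by
    rw [← hrt, uE_mulE]
    refine mul_ne_zero ?_ hne
    exact norm_ne_zero_iff.1 (by rw [uE_norm hu]; norm_num)
  rw [hE, hp, JJ_mulE]
  unfold fr kap
  have h7 := uE_mulE u (rt (rev s ++ [c]))
  rw [hrt] at h7
  rw [h7]
  have hu0 : uE u ≠ 0 := norm_ne_zero_iff.1 (by rw [uE_norm hu]; norm_num)
  field_simp

/-- the curve of the word seen from its end, in the frame of its last direction, in the scaling of n -/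
noncomputable def crE (n : ℕ) (s : List Bool) : C(unitInterval, ℂ) :=
  NTSF.Mg.pn (fun k => fr s * NTSF.Cg.cut s.length (pE s.length s) k) n

/-- **the curve of the reversed word** -/
theorem crE_rvw (n : ℕ) (s : List Bool) (c : Bool) : crE n (rvw (s ++ [c])) = NTSF.Mg.pT (kap c) (s ++ [c]) n := by
  have hl : (rvw (s ++ [c])).length = s.length + 1 := by
    rw [rvw_app]
    simp [rev_length]
  unfold crE NTSF.Mg.pT
  congr 1
  funext k
  unfold NTSF.Cg.cut NTSF.Mg.czT NTSF.Mg.cz
  rw [hl, frame_rvw s c (min_le_right _ _)]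
  have e : (s ++ [c]).length = s.length + 1 := by simp
  rw [e]

end MCP

end HexObs
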