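import Pool.Agent.MC.Last
import Pool.Agent.PW.CurveP
import Pool.Agent.PW.TipNF

/-!
MC, the joint form (helper83): **`jointN : JointN`**. Far functional = function of the curve seen from the end in the frame of
the last direction (class 0 ends do not change the frame), inner functional = the event of the start and the last letter.
-/

set_option autoImplicit false

namespace HexObs

namespace MCP

open Finset TS SDN TIW

open NTSF (om om_cube om_norm)

open NTSF.Mg (pT czT cz pn nr nr_pos)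

open NTSF.Cg (BadC badC_few crvE_dist)

/-- the error function -/
noncomputable def erJ (r L : ℕ) (η x : ℝ) (t : List Bool) : ℝ := 2 * TIP.ind (BadC r L η t) + x

lemma erJ_sq {r L m : ℕ} {η x e : ℝ} (h : TOG.Pn m {t | BadC r L η t} ≤ e) :
    ∑ t ∈ sawF m, erJ r L η x t ^ 2 ≤ (8 * e + 2 * x ^ 2) * cS m := by
  have h1 : ∑ t ∈ sawF m, TIP.ind (BadC r L η t) ≤ e * cS m := by
    have h2 := h
    rw [Pn_Eu] at h2
    unfold Eu at h2
    rw [div_le_iff₀ (cS0 m)] at h2
    exact h2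
  have h3 : ∑ t ∈ sawF m, erJ r L η x t ^ 2 ≤ ∑ t ∈ sawF m, (8 * TIP.ind (BadC r L η t) + 2 * x ^ 2) := by
    refine sum_le_sum fun t _ => ?_
    unfold erJ
    have h4 := TIP.ind_nonneg (BadC r L η t)
    have h5 := TIP.ind_le_one (BadC r L η t)
    nlinarith [sq_nonneg (2 * TIP.ind (BadC r L η t) - x)]
  refine h3.trans ?_
  rw [sum_add_distrib, ← mul_sum, sum_const, card_sawF, nsmul_eq_mul]
  linarith

/-- **the functional of the end hardly sees a small end of class 0** -/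
theorem PhE_rob {f : C(unitInterval, ℂ) → ℝ} {K : NNReal} (hK : LipschitzWith K f) (hf : ∀ γ, |f γ| ≤ 1) {n : ℕ} (hn1 : 1 ≤ n)
    {r L : ℕ} {η : ℝ} (hη : 0 ≤ η) {R : ℝ} (hR : 0 < R) :
    PWN.RM.Rob r (PhE n f R) (erJ r L η (K * ((r + η) / nr n) + r / R)) := by
  intro A Y hA hde hY
  have hp := nr_pos hn1
  have hK0 : (0 : ℝ) ≤ K := K.2
  have h0 : (hn (en Y) : ℝ) ≤ r := by
    have := (hY Y.length le_rfl).le
    exact_mod_cast this
  have h1 : |psi R (A ++ Y) - psi R A| ≤ r / R :=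
    (psi_lip hR _ _).trans (div_le_div_of_nonneg_right ((hn_app A Y).trans h0) hR.le)
  have hfr : fr (A ++ Y) = fr A := by
    unfold fr
    have e : rt (A ++ Y) = rt A := by
      have e1 : de (A ++ Y) = de A := by rw [PWN.de_app, hde, rt_up]
      unfold rt
      rw [e1]
    rw [e]
  unfold erJ
  by_cases hb : BadC r L η (A ++ Y)
  · rw [TIP.ind_pos hb]
    have h2 := abs_le.1 (PhE_abs hf R (A ++ Y) (n := n))
    have h3 := abs_le.1 (PhE_abs hf R A (n := n))
    have h4 : 0 ≤ (K : ℝ) * ((r + η) / nr n) := by positivity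
    have h5 : (0 : ℝ) ≤ r / R := by positivity
    rw [abs_le]
    constructor <;> linarith [h2.1, h2.2, h3.1, h3.2]
  · rw [TIP.ind_neg hb, mul_zero, zero_add]
    have h2 : |f (crE n (A ++ Y)) - f (crE n A)| ≤ K * ((r + η) / nr n) := by
      rw [← Real.dist_eq]
      refine (hK.dist_le_mul _ _).trans (mul_le_mul_of_nonneg_left ?_ hK0)
      unfold crE
      rw [hfr]
      exact crvE_dist le_rfl hη hY hb hn1 (fr_norm A)
    have e : PhE n f R (A ++ Y) - PhE n f R A =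
        (f (crE n (A ++ Y)) - f (crE n A)) * psi R (A ++ Y) + f (crE n A) * (psi R (A ++ Y) - psi R A) := by
      unfold PhE
      ring
    rw [e]
    refine (abs_add_le _ _).trans (add_le_add ?_ ?_)
    · rw [abs_mul]
      calc _ ≤ K * ((r + η) / nr n) * 1 := mul_le_mul h2 (psi_abs _ _) (abs_nonneg _) ((abs_nonneg _).trans h2)
        _ = _ := mul_one _
    · rw [abs_mul]
      calc _ ≤ 1 * (r / R) := mul_le_mul (hf _) h1 (abs_nonneg _) zero_le_one
        _ = _ := one_mul _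

lemma Eu_add (n : ℕ) (F G : List Bool → ℝ) : Eu n (fun t => F t + G t) = Eu n F + Eu n G := by
  unfold Eu
  rw [sum_add_distrib, add_div]

lemma Eu_half (n : ℕ) (F : List Bool → ℝ) : Eu n (fun t => F t / 2) = Eu n F / 2 := by
  unfold Eu
  rw [← sum_div, div_right_comm]

/-- the cut-off costs only the walks with a near end -/
lemma cut_cost' (n : ℕ) {g : List Bool → ℝ} (hg : ∀ t, |g t| ≤ 1) (R : ℝ) :
    |Eu n g - Eu n (fun t => g t * psi R t)| ≤ 1 - Eu n (psi R) := by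
  rw [← Eu_sub]
  refine (Eu_abs _ _).trans ?_
  have e : 1 - Eu n (psi R) = Eu n (fun t => 1 - psi R t) := by rw [Eu_sub, Eu_one]
  rw [e]
  refine Eu_mono fun t => ?_
  have h1 := psi_le_one R t
  have e1 : g t - g t * psi R t = g t * (1 - psi R t) := by ring
  rw [e1, abs_mul, abs_of_nonneg (by linarith : 0 ≤ 1 - psi R t)]
  calc |g t| * (1 - psi R t) ≤ 1 * (1 - psi R t) := mul_le_mul_of_nonneg_right (hg t) (by linarith)
    _ = 1 - psi R t := one_mul _

/-- the final computation -/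
lemma alg {y P E1 E2 X X' I1 I2 G1 G2 δ : ℝ} (hδ : 0 ≤ δ) (b1 : |P - E1| ≤ 1 - E2) (a2 : |E1 / 2 - y * ((E2 + E2) / 2)| ≤ δ)
    (c3 : 1 - E2 ≤ δ) (c4 : E2 ≤ 1) (b5 : |X - X'| ≤ 1 - E2) (b6 : |I1 - G1| ≤ 1 - E2) (b7 : |I2 - G2| ≤ 1 - E2)
    (a1 : |X' / 2 - y * ((G1 + G2) / 2)| ≤ δ) (b8 : |y| ≤ 1) (b9 : |I1| ≤ 1) (b10 : |I2| ≤ 1) :
    |X - P * ((I1 + I2) / 2)| ≤ 16 * δ := by
  have d1 : |2 * y - P| ≤ 5 * δ := by
    have e : 2 * y - P = 2 * (y * (1 - E2)) - 2 * (E1 / 2 - y * ((E2 + E2) / 2)) + (E1 - P) := by ring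
    have h4 : |y * (1 - E2)| ≤ δ := by
      rw [abs_mul, abs_of_nonneg (by linarith : 0 ≤ 1 - E2)]
      calc |y| * (1 - E2) ≤ 1 * δ := mul_le_mul b8 c3 (by linarith) zero_le_one
        _ = δ := one_mul _
    have h5 := abs_le.1 h4
    have h6 := abs_le.1 a2
    have h7 := abs_le.1 b1
    rw [e, abs_le]
    constructor <;> linarith [h5.1, h5.2, h6.1, h6.2, h7.1, h7.2]
  have d2 : |(2 * y - P) * ((I1 + I2) / 2)| ≤ 5 * δ := by
    have h4 : |(I1 + I2) / 2| ≤ 1 := by
      have h5 := abs_le.1 b9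
      have h6 := abs_le.1 b10
      rw [abs_le]
      constructor <;> linarith [h5.1, h5.2, h6.1, h6.2]
    rw [abs_mul]
    calc _ ≤ 5 * δ * 1 := mul_le_mul d1 h4 (abs_nonneg _) (by positivity)
      _ = 5 * δ := mul_one _
  have d3 : |y * ((G1 + G2) / 2 - (I1 + I2) / 2)| ≤ δ := by
    have h4 : |(G1 + G2) / 2 - (I1 + I2) / 2| ≤ δ := by
      have h5 := abs_le.1 b6
      have h6 := abs_le.1 b7
      rw [abs_le]
      constructor <;> linarith [h5.1, h5.2, h6.1, h6.2]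
    rw [abs_mul]
    calc _ ≤ 1 * δ := mul_le_mul b8 h4 (abs_nonneg _) zero_le_one
      _ = δ := one_mul _
  have e : X - P * ((I1 + I2) / 2) = (X - X') + 2 * (X' / 2 - y * ((G1 + G2) / 2)) + 2 * (y * ((G1 + G2) / 2 - (I1 + I2) / 2)) +
      (2 * y - P) * ((I1 + I2) / 2) := by ring
  have h5 := abs_le.1 b5
  have h6 := abs_le.1 a1
  have h7 := abs_le.1 d2
  have h8 := abs_le.1 d3
  rw [e, abs_le]
  constructor <;> linarith [h5.1, h5.2, h6.1, h6.2, h7.1, h7.2, h8.1, h8.2]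

/-- **the core** -/
theorem joint_core (ε : ℝ) (K : NNReal) (hε : 0 < ε) : ∃ C k0 : ℕ, ∀ b k n : ℕ, k0 ≤ k → b + C ≤ k → TIP.Sc k n →
    ∀ Q : Set (List Bool), StE b Q → ∀ f : C(unitInterval, ℂ) → ℝ, LipschitzWith K f → (∀ γ, |f γ| ≤ 1) →
      |Eu n (fun t => TIP.ind (t ∈ Q) * f (pT om t n)) -
        TOG.Pn n Q * ((Eu n (fun t => f (pT om t n)) + Eu n (fun t => f (pT (om * om) t n))) / 2)| ≤ ε := by
  obtain ⟨δ, hδ⟩ : ∃ δ : ℝ, δ = ε / 16 := ⟨_, rfl⟩
  have hδ0 : 0 < δ := by rw [hδ]; positivity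
  obtain ⟨τ, hτ, hT⟩ := PWN.tipN0 δ hδ0
  obtain ⟨c3, k3, h3⟩ := tip_far (e := δ) hδ0
  obtain ⟨a, A', ha, hA', hpow⟩ := TIP.NQ.scale_pow
  have hK0 : (0 : ℝ) ≤ K := K.2
  obtain ⟨j, hj⟩ := pow_unbounded_of_one_lt ((2 + 2 * K / a) / τ) (one_lt_two)
  rw [div_lt_iff₀ hτ] at hj
  have hj1 : 2 < 2 ^ j * τ := by
    have : 0 ≤ 2 * (K : ℝ) / a := by positivity
    linarith
  have hj2 : 2 * (K : ℝ) / a < 2 ^ j * τ := by linarith
  obtain ⟨c1, hc1⟩ : ∃ c1 : ℕ, c1 = c3 + 2 + j := ⟨_, rfl⟩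
  obtain ⟨C1, hT⟩ := hT c1
  obtain ⟨κ, hκ⟩ : ∃ κ : ℝ, κ = τ / (16 * (K + 1)) := ⟨_, rfl⟩
  have hκ0 : 0 < κ := by rw [hκ]; positivity
  obtain ⟨C0', kB, hB⟩ := badC_few (ε := τ ^ 2 / 16) (κ := κ) (by positivity) hκ0
  obtain ⟨C0, hC0⟩ : ∃ C0 : ℕ, C0 = max C1 (max C0' c1) := ⟨_, rfl⟩
  have g1 : C1 ≤ C0 := by rw [hC0]; exact le_max_left _ _
  have g2 : C0' ≤ C0 := by rw [hC0]; exact (le_max_left _ _).trans (le_max_right _ _)
  have g3 : c1 ≤ C0 := by rw [hC0]; exact (le_max_right _ _).trans (le_max_right _ _)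
  obtain ⟨k1, hT⟩ := hT C0 (C0 + C1) g1 le_rfl
  obtain ⟨kM, hM⟩ := PWN.MA_pos SLW.aReg (PWN.tent_bump 0) (PWN.tent_one 0)
  obtain ⟨kn, hkn⟩ := big_n 1
  refine ⟨C0 + C1 + 2 + c3, k3 + kB + k1 + kM + kn + C0 + c3 + 3, fun b k n hk hb hN Q hQ f hK hf => ?_⟩
  have hn1 : 1 ≤ n := hkn k n (by omega) hN
  have hp := nr_pos hn1
  -- the scales
  obtain ⟨R, hR⟩ : ∃ R : ℝ, R = 2 ^ (k - c3 - 1) := ⟨_, rfl⟩
  have hR0 : 0 < R := by rw [hR]; positivity
  have e1 : (2 : ℝ) ^ (k - c3) = 2 * R := by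
    rw [hR, ← pow_succ']
    congr 1
    omega
  have e2 : R = 2 * 2 ^ (k - c3 - 2) := by
    rw [hR, ← pow_succ']
    congr 1
    omega
  have e3 : (2 : ℝ) ^ (k - c3 - 2) = 2 ^ j * 2 ^ (k - c1) := by
    rw [← pow_add]
    congr 1
    omega
  have hr1 : (2 : ℝ) ^ (k - c1) / R ≤ τ / 4 := by
    have h5 : (0 : ℝ) < 2 ^ (k - c1) := by positivity
    rw [div_le_iff₀ hR0, e2, e3]
    nlinarith
  have hr0 : (2 : ℝ) ^ (k - C0) ≤ 2 ^ (k - c1) := pow_le_pow_right₀ (by norm_num) (by omega)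
  have hr2 : (K : ℝ) * (2 ^ (k - c1) / nr n) ≤ τ / 2 := by
    have h4 := (hpow k n hN.1 hN.2).1
    have h5 : (2 : ℝ) ^ (k - c1) * 2 ^ j ≤ 2 ^ k := by
      rw [← pow_add]
      exact pow_le_pow_right₀ (by norm_num) (by omega)
    have h6 : (0 : ℝ) < 2 ^ (k - c1) := by positivity
    have h7 : a * ((2 : ℝ) ^ (k - c1) * 2 ^ j) ≤ nr n := (mul_le_mul_of_nonneg_left h5 ha.le).trans h4
    rw [← mul_div_assoc, div_le_iff₀ hp]
    have h8 : 2 * (K : ℝ) < 2 ^ j * τ * a := by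
      rw [div_lt_iff₀ ha] at hj2
      exact hj2
    nlinarith
  have hbR : (2 : ℝ) ^ b ≤ 2 ^ (k - c3 - 2) := pow_le_pow_right₀ (by norm_num) (by omega)
  have hb2 : (2 : ℝ) ≤ 2 ^ (k - c3 - 2) := by
    calc (2 : ℝ) = 2 ^ 1 := (pow_one _).symm
      _ ≤ 2 ^ (k - c3 - 2) := pow_le_pow_right₀ (by norm_num) (by omega)
  have hb3 : (2 : ℝ) ^ (k - c1) ≤ 2 ^ (k - c3 - 2) := pow_le_pow_right₀ (by norm_num) (by omega)
  -- the error function
  obtain ⟨hκn, L, hL⟩ := hB C0 k n g2 (by omega) (by omega) hN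
  obtain ⟨x, hx⟩ : ∃ x : ℝ, x = K * (((2 ^ (k - C0) : ℕ) + κ * nr n) / nr n) + (2 ^ (k - C0) : ℕ) / R := ⟨_, rfl⟩
  have hx0 : 0 ≤ x := by rw [hx]; positivity
  have hx1 : x ≤ τ / 2 := by
    have h4 : (((2 ^ (k - C0) : ℕ) : ℝ) + κ * nr n) / nr n ≤ 2 * κ := by
      rw [div_le_iff₀ hp]
      push_cast
      linarith
    have h5 : (K : ℝ) * (2 * κ) ≤ τ / 8 := by
      rw [hκ]
      have : (0 : ℝ) < 16 * (K + 1) := by positivity
      have e : (K : ℝ) * (2 * (τ / (16 * (K + 1)))) = 2 * K * τ / (16 * (K + 1)) := by ring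
      rw [e, div_le_iff₀ this]
      nlinarith
    have h6 := (mul_le_mul_of_nonneg_left h4 hK0).trans h5
    have h7 : ((2 ^ (k - C0) : ℕ) : ℝ) / R ≤ τ / 4 := by
      push_cast
      exact (div_le_div_of_nonneg_right hr0 hR0.le).trans hr1
    rw [hx]
    linarith
  have her0 : ∀ t, 0 ≤ erJ (2 ^ (k - C0)) L (κ * nr n) x t := by
    intro t
    unfold erJ
    have := TIP.ind_nonneg (BadC (2 ^ (k - C0)) L (κ * nr n) t)
    linarith
  have her : ∀ m, n ≤ m → m ≤ 2 * n → ∑ t ∈ sawF m, erJ (2 ^ (k - C0)) L (κ * nr n) x t ^ 2 ≤ τ ^ 2 * cS m := by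
    intro m hm1 hm2
    refine (erJ_sq (hL m hm1 hm2)).trans (mul_le_mul_of_nonneg_right ?_ (cS0 m).le)
    nlinarith
  -- the application
  have app : ∀ f : C(unitInterval, ℂ) → ℝ, LipschitzWith K f → (∀ γ, |f γ| ≤ 1) →
      |Eu n (Hc n Q f R true) / 2 - PWN.EA (PWN.tent 0) n (qE Q true) *
        ((Eu n (Hc n Set.univ f R true) + Eu n (Hc n Set.univ f R false)) / 2)| ≤ δ := by
    intro f hK hf
    have h4 := hT k n k n (by omega) le_rfl hN hN (qE Q true) (PhE n f R) (erJ (2 ^ (k - C0)) L (κ * nr n) x)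
      (fun t => Hc n Q f R true t / 2) (fun t => Hc n Set.univ f R true t / 2 + Hc n Set.univ f R false t / 2)
      (qE_abs Q true) (PhE_abs hf R)
      (fun t => by
        have := abs_le.1 (Hc_abs hf R true t (n := n) (Q := Q))
        rw [abs_le]
        constructor <;> linarith [this.1, this.2])
      (fun t => by
        have h5 := abs_le.1 (Hc_abs hf R true t (n := n) (Q := Set.univ))
        have h6 := abs_le.1 (Hc_abs hf R false t (n := n) (Q := Set.univ))
        rw [abs_le]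
        constructor <;> linarith [h5.1, h5.2, h6.1, h6.2])
      (qE_inn hQ (by omega) true)
      (by
        have := PhE_rob hK hf hn1 (r := 2 ^ (k - C0)) (L := L) (η := κ * nr n) (by positivity) hR0
        rw [← hx] at this
        exact this)
      her0 her (fun m => sum_q hQ f (by linarith) true m) (fun m => sum_1 n f (by linarith) m)
      (fun A Y hA hY => by
        have h5 := Hc_end hQ hK hf hn1 (R := R) (τ := τ / 4) (r := 2 ^ (k - c1))
          (by push_cast; linarith) (by push_cast; rw [← div_le_iff₀ hR0]; exact hr1) true hA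
          (fun i hi => by have := hY i hi; push_cast; exact this)
        push_cast at h5
        have e : Hc n Q f R true (A ++ Y) / 2 - Hc n Q f R true A / 2 = (Hc n Q f R true (A ++ Y) - Hc n Q f R true A) / 2 := by
          ring
        rw [e, abs_div, abs_of_pos (two_pos : (0 : ℝ) < 2)]
        linarith)
      (fun A Y hA hY => by
        have h5 := fun c => Hc_end (stE_univ b) hK hf hn1 (R := R) (τ := τ / 4) (r := 2 ^ (k - c1))
          (by push_cast; linarith) (by push_cast; rw [← div_le_iff₀ hR0]; exact hr1) c hA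
          (fun i hi => by have := hY i hi; push_cast; exact this)
        have h6 := abs_le.1 (h5 true)
        have h7 := abs_le.1 (h5 false)
        push_cast at h6 h7
        rw [abs_le]
        constructor <;> linarith [h6.1, h6.2, h7.1, h7.2])
    have e4 : PWN.En n (fun t => Hc n Q f R true t / 2) = Eu n (Hc n Q f R true) / 2 := Eu_half n _
    have e5 : PWN.En n (fun t => Hc n Set.univ f R true t / 2 + Hc n Set.univ f R false t / 2) =
        (Eu n (Hc n Set.univ f R true) + Eu n (Hc n Set.univ f R false)) / 2 := by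
      have e6 : PWN.En n (fun t => Hc n Set.univ f R true t / 2 + Hc n Set.univ f R false t / 2) =
        Eu n (fun t => Hc n Set.univ f R true t / 2 + Hc n Set.univ f R false t / 2) := rfl
      rw [e6, Eu_add, Eu_half, Eu_half]
      ring
    rw [e4, e5] at h4
    exact h4
  have a1 := app f hK hf
  have a2 := app (fun _ => 1) (LipschitzWith.const' 1) (fun _ => by rw [abs_one])
  have u1 : Eu n (Hc n Q (fun _ => 1) R true) = Eu n (fun t => TIP.ind (t ∈ Q) * psi R t) := by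
    congr 1
    funext t
    unfold Hc
    rw [mul_one]
  have u2 : ∀ c, Eu n (Hc n Set.univ (fun _ => 1) R c) = Eu n (psi R) := by
    intro c
    congr 1
    funext t
    rw [Hc_univ, one_mul]
  rw [u1, u2, u2] at a2
  -- the cut-off
  have c3' : 1 - Eu n (psi R) ≤ δ := by
    refine le_trans ?_ (h3 k n (by omega) hN)
    rw [Pn_Eu, ← Eu_one n, ← Eu_sub]
    refine Eu_mono fun t => ?_
    by_cases ht : hn (en t) < 2 ^ (k - c3)
    · rw [TIP.ind_pos (show t ∈ {t | hn (en t) < 2 ^ (k - c3)} from ht)]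
      linarith [psi_nonneg R t]
    · have h5 : 2 * R ≤ hn (en t) := by
        rw [← e1]
        push Not at ht
        exact_mod_cast ht
      rw [psi_one hR0 h5, sub_self]
      exact TIP.ind_nonneg _
  have c4 : Eu n (psi R) ≤ 1 := by
    rw [← Eu_one n]
    exact Eu_mono fun t => psi_le_one R t
  have b1 := cut_cost n Q R
  have b5 := cut_cost' n (g := fun t => TIP.ind (t ∈ Q) * f (pT om t n)) (fun t => by
    rw [abs_mul]
    exact mul_le_one₀ (ind_abs _) (abs_nonneg _) (hf _)) R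
  have b6 := cut_cost' n (g := fun t => f (pT om t n)) (fun t => hf _) R
  have b7 := cut_cost' n (g := fun t => f (pT (om * om) t n)) (fun t => hf _) R
  have v1 : Eu n (Hc n Q f R true) = Eu n (fun t => TIP.ind (t ∈ Q) * f (pT om t n) * psi R t) := by
    congr 1
    funext t
    unfold Hc
    rw [kap_true]
  have v2 : Eu n (Hc n Set.univ f R true) = Eu n (fun t => f (pT om t n) * psi R t) := by
    congr 1
    funext t
    rw [Hc_univ, kap_true]
  have v3 : Eu n (Hc n Set.univ f R false) = Eu n (fun t => f (pT (om * om) t n) * psi R t) := by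
    congr 1
    funext t
    rw [Hc_univ, kap_false]
  rw [v1, v2, v3] at a1
  have hMA : 0 < PWN.MA (PWN.tent 0) n := hM k n (by omega) hN.1
  have b8 := PWN.EA_abs (PWN.tent_bump 0) hMA (qE_abs Q true)
  have b9 := Eu_le (n := n) (F := fun t => f (pT om t n)) (fun t => hf _)
  have b10 := Eu_le (n := n) (F := fun t => f (pT (om * om) t n)) (fun t => hf _)
  have u3 := alg hδ0.le b1 a2 c3' c4 b5 b6 b7 a1 b8 b9 b10
  refine u3.trans ?_
  rw [hδ]
  linarith

/-! ### the rotation -/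

lemma pT_mul (a c : ℂ) (t : List Bool) (n : ℕ) : pT (a * c) t n = a • pT c t n := by
  ext u
  show ((nr n)⁻¹ : ℝ) • Tight.poly (czT (a * c) t) n u = a • (((nr n)⁻¹ : ℝ) • Tight.poly (czT c t) n u)
  have e : Tight.poly (czT (a * c) t) n u = a * Tight.poly (czT c t) n u := by
    have ez : ∀ k, czT (a * c) t k = a * czT c t k := by
      intro k
      unfold czT cz
      ring
    rcases Nat.eq_zero_or_pos n with rfl | hn
    · have e0 : ∀ z : ℕ → ℂ, Tight.poly z 0 u = z 0 := by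
        intro z
        show (z 0 + ∑ i ∈ range 0, _) = z 0
        rw [sum_range_zero, add_zero]
      rw [e0, e0, ez]
    · obtain ⟨i, hi, h1, h2⟩ := Tight.th2_idx hn u
      rw [Tight.poly_apply hi h1 h2, Tight.poly_apply hi h1 h2, ez, ez]
      ring
  rw [e, smul_eq_mul, ← smul_eq_mul a, smul_comm, smul_eq_mul]

lemma lip_rot {f : C(unitInterval, ℂ) → ℝ} {K : NNReal} (hK : LipschitzWith K f) {a : ℂ} (ha : ‖a‖ = 1) :
    LipschitzWith K (fun γ => f (a • γ)) := by
  refine LipschitzWith.of_dist_le_mul fun γ γ' => ?_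
  refine (hK.dist_le_mul _ _).trans (mul_le_mul_of_nonneg_left ?_ K.2)
  rw [ContinuousMap.dist_le dist_nonneg]
  intro u
  have e : dist ((a • γ) u) ((a • γ') u) = dist (γ u) (γ' u) := by
    rw [dist_eq_norm, dist_eq_norm]
    show ‖a * γ u - a * γ' u‖ = _
    rw [← mul_sub, norm_mul, ha, one_mul]
  rw [e]
  exact ContinuousMap.dist_apply_le_dist u

/-- **the joint form on words** -/
theorem jointN : JointN := by
  intro ε K hε
  obtain ⟨C, k0, h⟩ := joint_core (ε / 2) K (by positivity)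
  refine ⟨C, k0, fun b k n hk hb hN Q hQ f hK hf => ?_⟩
  have ho : ‖om * om‖ = 1 := by rw [norm_mul, om_norm, one_mul]
  have hK' := lip_rot hK ho
  have hf' : ∀ γ : C(unitInterval, ℂ), |f ((om * om) • γ)| ≤ 1 := fun γ => hf _
  have key := fun Q hQ => h b k n hk hb hN Q hQ (fun γ => f ((om * om) • γ)) hK' hf'
  have e1 : ∀ t, (om * om) • pT om t n = pT 1 t n := by
    intro t
    rw [← pT_mul, mul_assoc, om_cube]
  have e2 : ∀ t, (om * om) • pT (om * om) t n = pT om t n := by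
    intro t
    rw [← pT_mul]
    congr 1
    calc om * om * (om * om) = om * (om * om) * om := by ring
      _ = om := by rw [om_cube, one_mul]
  simp only [e1, e2] at key
  have k1 := key Q hQ
  have k2 := key Set.univ (stE_univ b)
  have e3 : TOG.Pn n Set.univ = 1 := by
    rw [Pn_Eu, ← Eu_one n]
    congr 1
    funext t
    exact TIP.ind_pos (Set.mem_univ t)
  have e4 : (fun t => TIP.ind (t ∈ (Set.univ : Set (List Bool))) * f (pT 1 t n)) = fun t => f (pT 1 t n) := by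
    funext t
    rw [TIP.ind_pos (Set.mem_univ t), one_mul]
  rw [e3, e4, one_mul] at k2
  have b1 : |Eu n (fun t => f (pT om t n)) - Eu n (fun t => f (pT 1 t n))| ≤ ε := by
    have := abs_le.1 k2
    rw [abs_le]
    constructor <;> linarith [this.1, this.2]
  refine ⟨?_, b1⟩
  obtain ⟨I1, hI1⟩ : ∃ I1, I1 = Eu n (fun t => f (pT 1 t n)) := ⟨_, rfl⟩
  obtain ⟨I2, hI2⟩ : ∃ I2, I2 = Eu n (fun t => f (pT om t n)) := ⟨_, rfl⟩
  obtain ⟨P, hP⟩ : ∃ P, P = TOG.Pn n Q := ⟨_, rfl⟩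
  have p0 : 0 ≤ P := by
    rw [hP, Pn_Eu]
    unfold Eu
    exact div_nonneg (sum_nonneg fun t _ => TIP.ind_nonneg _) (Nat.cast_nonneg _)
  have p1 : P ≤ 1 := by
    rw [hP, Pn_Eu, ← Eu_one n]
    exact Eu_mono fun t => TIP.ind_le_one _
  rw [← hI1, ← hI2, ← hP] at k1
  rw [← hI1, ← hI2] at k2
  rw [← hI1, ← hP]
  have d : |P * ((I1 + I2) / 2 - I1)| ≤ ε / 2 := by
    rw [abs_mul, abs_of_nonneg p0, abs_sub_comm]
    calc _ ≤ 1 * (ε / 2) := mul_le_mul p1 k2 (abs_nonneg _) zero_le_one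
      _ = ε / 2 := one_mul _
  have h1 := abs_le.1 k1
  have h2 := abs_le.1 d
  rw [abs_le]
  constructor <;> linarith [h1.1, h1.2, h2.1, h2.2]

end MCP

end HexObs
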