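import Pool.Agent.MC.Frame
import Pool.Agent.MC.Defs2

/-!
MC, the joint form (helper83): the last letter of a word is fair; the sums of the functionals of the start and of the functionals
of the end.
-/

set_option autoImplicit false

namespace HexObs

namespace MCP

open Finset TS SDN TIW

open NTSF (uE JJ_mulE uE_norm pE om om_cube om_norm om_ne)

open NTSF.Mg (pT czT cz pn)

open NTF (JJ JJ_sub)

open Pool.Agent.IW (rvw rvw_app rvw_mem rvw_rvw split_last DS saw_DS)

/-! ### the last letter -/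

/-- the last letter changed -/
def fl (t : List Bool) : List Bool := t.dropLast ++ (t.getLast?.toList.map not)

lemma fl_app (s : List Bool) (c : Bool) : fl (s ++ [c]) = s ++ [!c] := by
  unfold fl
  rw [List.dropLast_concat, List.getLast?_concat]
  rfl

lemma sum_fl {m : ℕ} (hm : 0 < m) (F : List Bool → ℝ) : ∑ t ∈ sawF m, F (fl t) = ∑ t ∈ sawF m, F t := by
  have h1 : ∀ t ∈ sawF m, fl t ∈ sawF m := by
    intro t ht
    rw [mem_sawF] at ht ⊢
    obtain ⟨s, c, rfl, hs⟩ := split_last hm ht.1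
    rw [fl_app, ← hs]
    rw [← hs] at ht
    exact saw_DS.2 (saw_DS.1 ht)
  have h2 : ∀ t ∈ sawF m, fl (fl t) = t := by
    intro t ht
    rw [mem_sawF] at ht
    obtain ⟨s, c, rfl, -⟩ := split_last hm ht.1
    rw [fl_app, fl_app, Bool.not_not]
  refine sum_nbij' fl fl h1 h1 h2 h2 ?_
  intro t _
  rfl

/-- **the last letter is fair** -/
theorem sum_last {m : ℕ} (hm : 0 < m) {H : List Bool → ℝ} (hH : ∀ s c, s ++ [c] ∈ SA → H (s ++ [c]) = H (s ++ [!c])) (c0 : Bool) :
    ∑ t ∈ sawF m, TIP.ind (t.getLast? = some c0) * H t = (∑ t ∈ sawF m, H t) / 2 := by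
  have e1 : ∑ t ∈ sawF m, TIP.ind (t.getLast? = some c0) * H t =
      ∑ t ∈ sawF m, TIP.ind (¬ t.getLast? = some c0) * H t := by
    rw [← sum_fl hm]
    refine sum_congr rfl fun t ht => ?_
    rw [mem_sawF] at ht
    obtain ⟨s, c, rfl, -⟩ := split_last hm ht.1
    rw [fl_app, ← hH s c ht.2]
    congr 1
    refine TIP.ind_congr ?_
    rw [List.getLast?_concat, List.getLast?_concat, Option.some.injEq, Option.some.injEq]
    cases c <;> cases c0 <;> simp
  have e2 : ∑ t ∈ sawF m, TIP.ind (t.getLast? = some c0) * H t +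
      ∑ t ∈ sawF m, TIP.ind (¬ t.getLast? = some c0) * H t = ∑ t ∈ sawF m, H t := by
    rw [← sum_add_distrib]
    refine sum_congr rfl fun t _ => ?_
    by_cases h : t.getLast? = some c0
    · rw [TIP.ind_pos h, TIP.ind_neg (not_not.2 h)]
      ring
    · rw [TIP.ind_neg h, TIP.ind_pos h]
      ring
  rw [eq_div_iff two_ne_zero]
  linarith

/-! ### the functionals -/

/-- the functional of the start, c = the last letter -/
noncomputable def Hc (n : ℕ) (Q : Set (List Bool)) (f : C(unitInterval, ℂ) → ℝ) (R : ℝ) (c : Bool) (t : List Bool) : ℝ :=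
  TIP.ind (t ∈ Q) * f (pT (kap c) t n) * psi R t

/-- the functional of the end -/
noncomputable def PhE (n : ℕ) (f : C(unitInterval, ℂ) → ℝ) (R : ℝ) (s : List Bool) : ℝ := f (crE n s) * psi R s

/-- the inner functional of the end -/
noncomputable def qE (Q : Set (List Bool)) (c : Bool) (s : List Bool) : ℝ :=
  TIP.ind (rvw s ∈ Q) * TIP.ind (s.getLast? = some c)

lemma psi_rvw (R : ℝ) (t : List Bool) : psi R (rvw t) = psi R t := by
  unfold psi
  rw [hn_rvw]

lemma pT_last (a : ℂ) (s : List Bool) (c c' : Bool) (n : ℕ) : pT a (s ++ [c]) n = pT a (s ++ [c']) n := by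
  unfold pT
  congr 1
  funext k
  unfold czT cz
  have e1 : (s ++ [c]).length = s.length + 1 := by simp
  have e2 : (s ++ [c']).length = s.length + 1 := by simp
  rw [e1, e2, vx_append (min_le_right _ _), vx_append (min_le_right _ _)]

lemma psi_last (R : ℝ) (s : List Bool) (c c' : Bool) : psi R (s ++ [c]) = psi R (s ++ [c']) := by
  unfold psi
  rw [en_snoc, en_snoc]

lemma Hc_last {b n : ℕ} {Q : Set (List Bool)} (hQ : StE b Q) {f : C(unitInterval, ℂ) → ℝ} {R : ℝ} (hR : (2 : ℝ) ^ b + 2 ≤ R)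
    (c0 : Bool) (s : List Bool) (c : Bool) (hs : s ++ [c] ∈ SA) : Hc n Q f R c0 (s ++ [c]) = Hc n Q f R c0 (s ++ [!c]) := by
  have hR0 : 0 < R := lt_of_lt_of_le (by positivity) hR
  have hs' : s ++ [!c] ∈ SA := by
    have h : s ++ [c] ∈ SawN (s.length + 1) := ⟨by simp, hs⟩
    exact (saw_DS.2 (saw_DS.1 h)).2
  unfold Hc
  rw [pT_last (kap c0) s c (!c), psi_last R s c (!c)]
  rcases le_or_gt ((2 : ℤ) ^ b) (hn (en s)) with h | h
  · rw [TIP.ind_congr ((hQ s [c] hs h).trans (hQ s [!c] hs' h).symm)]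
  · have h1 : psi R (s ++ [!c]) = 0 := by
      refine psi_zero hR0 ?_
      rw [en_snoc]
      have e : tip oo up s = en s + de s := rfl
      have h2 := hn_add (en s) (de s)
      rw [hn_dir (de_mem s), ← e] at h2
      have h3 : (hn (tip oo up s) : ℝ) ≤ hn (en s) + 2 := by exact_mod_cast h2
      have h4 : (hn (en s) : ℝ) < 2 ^ b := by exact_mod_cast h
      linarith
    rw [h1, mul_zero, mul_zero]

lemma sawF_zero {t : List Bool} (ht : t ∈ sawF 0) : t = [] := by
  have h := (mem_sawF.1 ht).1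
  rwa [List.length_eq_zero_iff] at h

lemma psi_nil {R : ℝ} (hR : 0 < R) : psi R [] = 0 := by
  refine psi_zero hR ?_
  have e0 : hn (en []) = 0 := by decide
  rw [e0, Int.cast_zero]
  exact hR.le

/-- the sum of the functionals of the end with the inner functional -/
theorem sum_q {b n : ℕ} {Q : Set (List Bool)} (hQ : StE b Q) (f : C(unitInterval, ℂ) → ℝ) {R : ℝ} (hR : (2 : ℝ) ^ b + 2 ≤ R)
    (c0 : Bool) (m : ℕ) : ∑ t ∈ sawF m, Hc n Q f R c0 t / 2 = ∑ t ∈ sawF m, PhE n f R t * qE Q c0 t := by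
  have hR0 : 0 < R := lt_of_lt_of_le (by positivity) hR
  rcases Nat.eq_zero_or_pos m with rfl | hm
  · refine sum_congr rfl fun t ht => ?_
    rw [sawF_zero ht]
    unfold Hc PhE
    rw [psi_nil hR0]
    ring
  · rw [← sum_rvw m (fun t => PhE n f R t * qE Q c0 t), ← sum_div, ← sum_last hm (Hc_last hQ hR c0) c0]
    refine sum_congr rfl fun t ht => ?_
    rw [mem_sawF] at ht
    obtain ⟨s, c, rfl, -⟩ := split_last hm ht.1
    unfold PhE qE
    rw [rvw_rvw hm ht.1, psi_rvw, crE_rvw, rvw_app, List.getLast?_concat, List.getLast?_concat]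
    by_cases h : c = c0
    · rw [h]
      unfold Hc
      ring
    · rw [TIP.ind_neg (fun he => h (Option.some.inj he))]
      ring

lemma Hc_univ (n : ℕ) (f : C(unitInterval, ℂ) → ℝ) (R : ℝ) (c : Bool) (t : List Bool) :
    Hc n Set.univ f R c t = f (pT (kap c) t n) * psi R t := by
  unfold Hc
  rw [TIP.ind_pos (Set.mem_univ t), one_mul]

lemma stE_univ (b : ℕ) : StE b Set.univ := fun _ _ _ _ => ⟨fun _ => Set.mem_univ _, fun _ => Set.mem_univ _⟩

/-- the sum of the functionals of the end -/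
theorem sum_1 (n : ℕ) (f : C(unitInterval, ℂ) → ℝ) {R : ℝ} (hR : 3 ≤ R) (m : ℕ) :
    ∑ t ∈ sawF m, (Hc n Set.univ f R true t / 2 + Hc n Set.univ f R false t / 2) = ∑ t ∈ sawF m, PhE n f R t := by
  have hR0 : 0 < R := by linarith
  have hR' : (2 : ℝ) ^ 0 + 2 ≤ R := by
    rw [pow_zero]
    linarith
  rcases Nat.eq_zero_or_pos m with rfl | hm
  · refine sum_congr rfl fun t ht => ?_
    rw [sawF_zero ht]
    unfold Hc PhE
    rw [psi_nil hR0]
    ring
  · rw [sum_add_distrib, sum_q (stE_univ 0) f hR' true m, sum_q (stE_univ 0) f hR' false m, ← sum_add_distrib]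
    refine sum_congr rfl fun t ht => ?_
    rw [mem_sawF] at ht
    obtain ⟨s, c, rfl, -⟩ := split_last hm ht.1
    unfold qE
    rw [TIP.ind_pos (Set.mem_univ _), List.getLast?_concat]
    cases c
    · rw [TIP.ind_neg (by simp), TIP.ind_pos rfl]
      ring
    · rw [TIP.ind_pos rfl, TIP.ind_neg (by simp)]
      ring

/-! ### the estimates -/

lemma ind_abs (p : Prop) : |TIP.ind p| ≤ 1 := by
  rw [abs_of_nonneg (TIP.ind_nonneg _)]
  exact TIP.ind_le_one _

lemma psi_abs (R : ℝ) (t : List Bool) : |psi R t| ≤ 1 := by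
  rw [abs_of_nonneg (psi_nonneg _ _)]
  exact psi_le_one _ _

lemma Hc_abs {n : ℕ} {Q : Set (List Bool)} {f : C(unitInterval, ℂ) → ℝ} (hf : ∀ γ, |f γ| ≤ 1) (R : ℝ) (c : Bool) (t : List Bool) :
    |Hc n Q f R c t| ≤ 1 := by
  unfold Hc
  rw [abs_mul, abs_mul]
  exact mul_le_one₀ (mul_le_one₀ (ind_abs _) (abs_nonneg _) (hf _)) (abs_nonneg _) (psi_abs _ _)

lemma PhE_abs {n : ℕ} {f : C(unitInterval, ℂ) → ℝ} (hf : ∀ γ, |f γ| ≤ 1) (R : ℝ) (t : List Bool) : |PhE n f R t| ≤ 1 := by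
  unfold PhE
  rw [abs_mul]
  exact mul_le_one₀ (hf _) (abs_nonneg _) (psi_abs _ _)

lemma qE_abs (Q : Set (List Bool)) (c : Bool) (t : List Bool) : |qE Q c t| ≤ 1 := by
  unfold qE
  rw [abs_mul]
  exact mul_le_one₀ (ind_abs _) (abs_nonneg _) (ind_abs _)

/-- the inner functional -/
theorem qE_inn {b b' : ℕ} {Q : Set (List Bool)} (hQ : StE b Q) (hb : b + 2 ≤ b') (c : Bool) : PWN.Inn b' (qE Q c) := by
  intro A E hA hE
  have hE' : (2 : ℤ) ^ (b + 2) ≤ hn (en E) := (pow_le_pow_right₀ (by norm_num) hb).trans hE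
  have h1 := inn_rvw hQ A E hA hE'
  unfold qE
  have hne : E ≠ [] := by
    rintro rfl
    have e0 : hn (en []) = 0 := by decide
    rw [e0] at hE'
    have : (0 : ℤ) < 2 ^ (b + 2) := by positivity
    linarith
  rw [List.getLast?_append_of_ne_nil _ hne]
  have h2 : TIP.ind (rvw (A ++ E) ∈ Q) = TIP.ind (rvw E ∈ Q) := h1
  rw [h2]

/-- a small end, seen from the start -/
theorem Hc_end {b n : ℕ} {Q : Set (List Bool)} (hQ : StE b Q) {f : C(unitInterval, ℂ) → ℝ} {K : NNReal} (hK : LipschitzWith K f)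
    (hf : ∀ γ, |f γ| ≤ 1) (hn1 : 1 ≤ n) {R τ : ℝ} {r : ℕ} (hb : (2 : ℝ) ^ b + r ≤ R) (hr : (r : ℝ) ≤ τ * R) (c : Bool)
    {A Y : List Bool} (hA : A ++ Y ∈ SA) (hY : ∀ i, i ≤ Y.length → hn (vx oo up Y i) < r) :
    |Hc n Q f R c (A ++ Y) - Hc n Q f R c A| ≤ τ + K * (r / NTSF.Mg.nr n) := by
  have h1 := F_rob hQ hb hr hA hY
  have h2 : |f (pT (kap c) (A ++ Y) n) - f (pT (kap c) A n)| ≤ K * (r / NTSF.Mg.nr n) := by
    rw [← Real.dist_eq]
    exact (hK.dist_le_mul _ _).trans (mul_le_mul_of_nonneg_left (NTSF.Mg.pT_end (kap_norm c) hY hn1) K.2)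
  have e : Hc n Q f R c (A ++ Y) - Hc n Q f R c A =
      f (pT (kap c) (A ++ Y) n) * (TIP.ind (A ++ Y ∈ Q) * psi R (A ++ Y) - TIP.ind (A ∈ Q) * psi R A) +
        (f (pT (kap c) (A ++ Y) n) - f (pT (kap c) A n)) * (TIP.ind (A ∈ Q) * psi R A) := by
    unfold Hc
    ring
  rw [e]
  refine (abs_add_le _ _).trans (add_le_add ?_ ?_)
  · rw [abs_mul]
    calc _ ≤ 1 * τ := mul_le_mul (hf _) h1 (abs_nonneg _) zero_le_one
      _ = τ := one_mul _
  · rw [abs_mul]
    calc _ ≤ K * (r / NTSF.Mg.nr n) * 1 := mul_le_mul h2 (F_le Q R A) (abs_nonneg _) ((abs_nonneg _).trans h2)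
      _ = _ := mul_one _

end MCP

end HexObs
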