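import Pool.Agent.MC.Last
import Pool.Agent.IW.Loc

/-!
MC, the zero-one law (helper83): the walk seen from the tip, in the frame of the last direction. `lb t` = the directions of the
word `t`, `wf s` = the directions of the walk seen from the tip of `s`. **`wf_drop`**: a small end of class 0 is a shift.
-/

set_option autoImplicit false

namespace HexObs

namespace MCP

open Finset TS SDN TIW

open NTSF (pE om om_cube om_norm)

open NTF (JJ JJ_sub JJ_add JJ_neg JJ_inj aa aa_de JJ_de)

open Pool.Agent.IW (rvw rvw_app rvw_mem rvw_rvw split_last)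

/-- the directions of the word -/
def lb (t : List Bool) (i : ℕ) : Fin 3 := aa (dx up t i)

/-- the rotation that belongs to the last letter -/
def rho (c : Bool) : Fin 3 := if c then 1 else 2

/-- the last letter -/
def la (t : List Bool) : Bool := t.getLast?.getD true

lemma la_app (s : List Bool) (c : Bool) : la (s ++ [c]) = c := by
  unfold la
  rw [List.getLast?_concat]
  rfl

/-- the walk seen from the tip -/
def wf (s : List Bool) (i : ℕ) : Fin 3 := lb (rvw s) i + rho (la s)

lemma la_rvw (s : List Bool) (c : Bool) : la (rvw (s ++ [c])) = c := by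
  rw [rvw_app, la_app]

lemma wf_rvw {t : List Bool} {m : ℕ} (hm : 0 < m) (ht : t.length = m) : wf (rvw t) = fun i => lb t i + rho (la t) := by
  funext i
  unfold wf
  rw [rvw_rvw hm ht]
  obtain ⟨s, c, rfl, -⟩ := split_last hm ht
  rw [la_rvw, la_app]

open Pool.Agent.IW.Res (step)

/-- a direction as a complex number -/
lemma JJ_dx (t : List Bool) (i : ℕ) : JJ (dx up t i) = step i (lb t i) :=
  (NTF.step_sw (i + 1) t i (Nat.lt_succ_self i)).symm

lemma om_step (i : ℕ) (a : Fin 3) : om * step i a = step i (a + 1) := (NTSF.step_rot i a).symm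

lemma kap_step (c : Bool) (i : ℕ) (a : Fin 3) : kap c * step i a = step i (a + rho c) := by
  cases c
  · have e : a + rho false = a + 1 + 1 := by
      rw [add_assoc]
      rfl
    rw [kap_false, mul_assoc, om_step, om_step, e]
  · rw [kap_true, om_step]
    rfl

lemma step_inj {i : ℕ} {a b : Fin 3} (h : step i a = step i b) : a = b := by
  have h1 : JJ (NTF.de i a) = JJ (NTF.de i b) := by
    rw [JJ_de, JJ_de]
    exact h
  have h2 := congrArg aa (JJ_inj h1)
  rwa [aa_de, aa_de] at h2

lemma step_even {i j : ℕ} (hj : Even j) (a : Fin 3) : step (j + i) a = step i a := by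
  unfold Pool.Agent.IW.Res.step
  rw [pow_add, hj.neg_one_pow, one_mul]

/-- the path from the tip -/
lemma frame_wf (X : List Bool) (c : Bool) {i : ℕ} (hi : i ≤ X.length + 1) :
    fr (X ++ [c]) * pE (X ++ [c]).length (X ++ [c]) i = kap c * JJ (vx oo up (rvw (X ++ [c])) i) := by
  have e1 : rvw (rev X ++ [c]) = X ++ [c] := by rw [rvw_app, rev_rev]
  have h := frame_rvw (rev X) c (i := i) (by rw [rev_length]; exact hi)
  rw [e1, rev_length] at h
  have e2 : (X ++ [c]).length = X.length + 1 := by simp
  rw [e2, h, rvw_app]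

lemma frame_step (X : List Bool) (c : Bool) {i : ℕ} (hi : i < X.length + 1) :
    fr (X ++ [c]) * (pE (X ++ [c]).length (X ++ [c]) (i + 1) - pE (X ++ [c]).length (X ++ [c]) i) = step i (wf (X ++ [c]) i) := by
  rw [mul_sub, frame_wf X c (by omega), frame_wf X c (by omega), ← mul_sub, ← JJ_sub, vx_succ, add_sub_cancel_left, JJ_dx,
    kap_step]
  unfold wf
  rw [la_app]

/-- **a small end of class 0 is a shift** -/
theorem wf_drop {A Y : List Bool} (hde : de Y = up) {i : ℕ} (hi : i < A.length) :
    wf (A ++ Y) (Y.length + i) = wf A i := by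
  rcases Y.eq_nil_or_concat' with rfl | ⟨Y', c, rfl⟩
  · rw [List.append_nil, List.length_nil, zero_add]
  rcases A.eq_nil_or_concat' with rfl | ⟨A', a, rfl⟩
  · exact absurd hi (Nat.not_lt_zero i)
  have hev : Even (Y' ++ [c]).length := PWN.even_of_de hde
  have hfr : fr (A' ++ [a] ++ (Y' ++ [c])) = fr (A' ++ [a]) := by
    unfold fr
    have e : rt (A' ++ [a] ++ (Y' ++ [c])) = rt (A' ++ [a]) := by
      have e1 : de (A' ++ [a] ++ (Y' ++ [c])) = de (A' ++ [a]) := by rw [PWN.de_app, hde, rt_up]
      unfold rt
      rw [e1]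
    rw [e]
  have e0 : A' ++ [a] ++ (Y' ++ [c]) = (A' ++ [a] ++ Y') ++ [c] := by rw [List.append_assoc, List.append_assoc, List.append_assoc]
  have h1 := frame_step A' a (i := i) (by simpa using hi)
  have h2 := frame_step (A' ++ [a] ++ Y') c (i := (Y' ++ [c]).length + i) (by
    simp only [List.length_append, List.length_singleton] at hi ⊢
    omega)
  rw [← e0] at h2
  rw [NTSF.pE_app (A' ++ [a]) (Y' ++ [c]) (i := i) (by omega), NTSF.pE_app (A' ++ [a]) (Y' ++ [c]) (i := i + 1) (by omega),
    sub_sub_sub_cancel_right, ← hfr] at h1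
  rw [add_assoc, h1, step_even hev] at h2
  exact step_inj h2.symm

end MCP

end HexObs
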