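import Pool.Agent.MC.ZoW

/-!
MC, the zero-one law on words (helper83): **`zo_word`**. An event of the first steps, seen from the tip, that hardly sees a shift by
an even number `j ≤ J` of steps, is asymptotically independent of a given event of the start.
-/

set_option autoImplicit false

namespace HexObs

namespace MCP

open Finset TS SDN TIW

open Pool.Agent.IW (Loc)

lemma ind_and (p q : Prop) : TIP.ind (p ∧ q) = TIP.ind p * TIP.ind q := by
  by_cases hp : p
  · by_cases hq : q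
    · rw [TIP.ind_pos ⟨hp, hq⟩, TIP.ind_pos hp, TIP.ind_pos hq, one_mul]
    · rw [TIP.ind_neg (fun h => hq h.2), TIP.ind_neg hq, mul_zero]
  · rw [TIP.ind_neg (fun h => hp h.1), TIP.ind_neg hp, zero_mul]

lemma loc_univ (m : ℕ) : Loc m (Set.univ : Set (ℕ → Fin 3)) := fun _ _ _ _ => Set.mem_univ _

lemma badB_univ (J : ℕ) (w : ℕ → Fin 3) : w ∉ BadB Set.univ J := by
  rintro ⟨j, -, -, h⟩
  exact h ⟨fun _ => Set.mem_univ _, fun _ => Set.mem_univ _⟩

/-- **the core of the zero-one law** -/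
theorem zo_word {ε : ℝ} (hε : 0 < ε) {b : ℕ} {Q : Set (List Bool)} (hQ : StE b Q) : ∃ (e : ℝ) (J : ℕ), 0 < e ∧
    ∀ (m : ℕ) (B : Set (ℕ → Fin 3)), Loc m B → ∃ n0 : ℕ, ∀ n : ℕ, n0 ≤ n →
      (∀ M, n ≤ M → TOG.Pn M {t | (fun i => lb t i + 1) ∈ BadB B J} + TOG.Pn M {t | (fun i => lb t i + 2) ∈ BadB B J} ≤ e) →
      |TOG.Pn n {t | (fun i => lb t i + 1) ∈ B ∧ t ∈ Q} - TOG.Pn n Q *
        ((TOG.Pn n {t | (fun i => lb t i + 1) ∈ B} + TOG.Pn n {t | (fun i => lb t i + 2) ∈ B}) / 2)| ≤ ε := by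
  obtain ⟨δ, hδ⟩ : ∃ δ : ℝ, δ = ε / 16 := ⟨_, rfl⟩
  have hδ0 : 0 < δ := by rw [hδ]; positivity
  obtain ⟨τ, hτ, hT⟩ := PWN.tipN0 δ hδ0
  obtain ⟨c3, k3, h3⟩ := tip_far (e := δ) hδ0
  obtain ⟨j, hj⟩ := pow_unbounded_of_one_lt (1 / τ) (one_lt_two)
  rw [div_lt_iff₀ hτ] at hj
  obtain ⟨c1, hc1⟩ : ∃ c1 : ℕ, c1 = c3 + 2 + j := ⟨_, rfl⟩
  obtain ⟨C1, hT⟩ := hT c1
  obtain ⟨k1, hT⟩ := hT C1 (C1 + C1) le_rfl le_rfl
  obtain ⟨kM, hM⟩ := PWN.MA_pos SLW.aReg (PWN.tent_bump 0) (PWN.tent_one 0)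
  obtain ⟨n', hn'⟩ := TIP.NQ.ex_scale (k1 + kM + b + 2 + (C1 + C1))
  obtain ⟨k', hk', s1', s2'⟩ := hn' n' le_rfl
  obtain ⟨r, hr⟩ : ∃ r : ℕ, r = 2 ^ (k' - C1) := ⟨_, rfl⟩
  refine ⟨τ ^ 2 / 8, (hn_fin r).toFinset.card, by positivity, fun m B hB => ?_⟩
  -- the large scales
  obtain ⟨X, hX⟩ := pow_unbounded_of_one_lt (2 * (m : ℝ) + 2 ^ b + r + 4 + 2 * r / τ) (one_lt_two (α := ℝ))
  obtain ⟨n0, hn0⟩ := TIP.NQ.ex_scale (k3 + k' + c3 + c1 + 2 + X)
  refine ⟨max n0 1, fun n hnn hbad => ?_⟩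
  have hn1 : 1 ≤ n := (le_max_right _ _).trans hnn
  obtain ⟨k, hk, s1, s2⟩ := hn0 n ((le_max_left _ _).trans hnn)
  have hN : TIP.Sc k n := ⟨s1, s2⟩
  obtain ⟨R, hR⟩ : ∃ R : ℝ, R = 2 ^ (k - c3 - 1) := ⟨_, rfl⟩
  have hR0 : 0 < R := by rw [hR]; positivity
  have e1 : (2 : ℝ) ^ (k - c3) = 2 * R := by
    rw [hR, ← pow_succ']
    congr 1
    omega
  have e2 : R = 2 * 2 ^ (k - c3 - 2) := by
    rw [hR, ← pow_succ']
    congr 1
    omega
  have e3 : (2 : ℝ) ^ (k - c3 - 2) = 2 ^ j * 2 ^ (k - c1) := by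
    rw [← pow_add]
    congr 1
    omega
  have hr1 : (2 : ℝ) ^ (k - c1) ≤ τ * R := by
    have h5 : (0 : ℝ) < 2 ^ (k - c1) := by positivity
    rw [e2, e3]
    nlinarith
  have hbX : (2 : ℝ) ^ X ≤ 2 ^ (k - c3 - 2) := pow_le_pow_right₀ (by norm_num) (by omega)
  have hb3 : (2 : ℝ) ^ (k - c1) ≤ 2 ^ (k - c3 - 2) := pow_le_pow_right₀ (by norm_num) (by omega)
  have hm0 : (0 : ℝ) ≤ m := Nat.cast_nonneg m
  have hr0 : (0 : ℝ) ≤ r := Nat.cast_nonneg r
  have h2b : (0 : ℝ) < 2 ^ b := by positivity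
  have hrτ : 0 ≤ 2 * (r : ℝ) / τ := by positivity
  have hR1 : 2 * (m : ℝ) + 2 ^ b + r + 4 + 2 * r / τ ≤ 2 ^ (k - c3 - 2) := hX.le.trans hbX
  obtain ⟨x, hx⟩ : ∃ x : ℝ, x = (r : ℝ) / R := ⟨_, rfl⟩
  have hx0 : 0 ≤ x := by rw [hx]; positivity
  have hx1 : x ≤ τ / 2 := by
    rw [hx, div_le_iff₀ hR0]
    have h5 : 2 * (r : ℝ) / τ ≤ R := by linarith
    rw [div_le_iff₀ hτ] at h5
    linarith
  -- the application
  have app : ∀ B : Set (ℕ → Fin 3), Loc m B →
      (∀ M, n ≤ M → TOG.Pn M {t | (fun i => lb t i + 1) ∈ BadB B (hn_fin r).toFinset.card} +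
        TOG.Pn M {t | (fun i => lb t i + 2) ∈ BadB B (hn_fin r).toFinset.card} ≤ τ ^ 2 / 8) →
      |Eu n (HB Q B R true) / 2 - PWN.EA (PWN.tent 0) n' (qE Q true) *
        ((Eu n (HB Set.univ B R true) + Eu n (HB Set.univ B R false)) / 2)| ≤ δ := by
    intro B hB hbad
    have h4 := hT k n k' n' (by omega) (by omega) hN ⟨s1', s2'⟩ (qE Q true) (PB B R) (erB B (hn_fin r).toFinset.card x)
      (fun t => HB Q B R true t / 2) (fun t => HB Set.univ B R true t / 2 + HB Set.univ B R false t / 2)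
      (qE_abs Q true) (PB_abs B R)
      (fun t => by
        have := abs_le.1 (HB_abs Q B R true t)
        rw [abs_le]
        constructor <;> linarith [this.1, this.2])
      (fun t => by
        have h5 := abs_le.1 (HB_abs Set.univ B R true t)
        have h6 := abs_le.1 (HB_abs Set.univ B R false t)
        rw [abs_le]
        constructor <;> linarith [h5.1, h5.2, h6.1, h6.2])
      (qE_inn hQ (by omega) true)
      (by
        have := PB_rob hB hR0 (r := r) (by linarith)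
        rw [← hx] at this
        rw [← hr]
        exact this)
      (erB_nonneg _ _ hx0)
      (fun M hM1 _ => by
        refine (erB_sq (by omega) (hbad M hM1)).trans (mul_le_mul_of_nonneg_right ?_ (cS0 M).le)
        nlinarith)
      (fun M => sumB_q hQ hB (by linarith) (by linarith) true M) (fun M => sumB_1 hB (by linarith) (by linarith) M)
      (fun A Y hA hY => by
        have h5 := HB_end hQ hB (R := R) (τ := τ) (r := 2 ^ (k - c1))
          (by push_cast; linarith) (by push_cast; exact hr1) (by push_cast; linarith) hτ.le true hA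
          (fun i hi => by have := hY i hi; push_cast; exact this)
        have e : HB Q B R true (A ++ Y) / 2 - HB Q B R true A / 2 = (HB Q B R true (A ++ Y) - HB Q B R true A) / 2 := by
          ring
        rw [e, abs_div, abs_of_pos (two_pos : (0 : ℝ) < 2)]
        linarith)
      (fun A Y hA hY => by
        have h5 := fun c => HB_end (stE_univ b) hB (R := R) (τ := τ) (r := 2 ^ (k - c1))
          (by push_cast; linarith) (by push_cast; exact hr1) (by push_cast; linarith) hτ.le c hA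
          (fun i hi => by have := hY i hi; push_cast; exact this)
        have h6 := abs_le.1 (h5 true)
        have h7 := abs_le.1 (h5 false)
        rw [abs_le]
        constructor <;> linarith [h6.1, h6.2, h7.1, h7.2])
    have e4 : PWN.En n (fun t => HB Q B R true t / 2) = Eu n (HB Q B R true) / 2 := Eu_half n _
    have e5 : PWN.En n (fun t => HB Set.univ B R true t / 2 + HB Set.univ B R false t / 2) =
        (Eu n (HB Set.univ B R true) + Eu n (HB Set.univ B R false)) / 2 := by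
      have e6 : PWN.En n (fun t => HB Set.univ B R true t / 2 + HB Set.univ B R false t / 2) =
        Eu n (fun t => HB Set.univ B R true t / 2 + HB Set.univ B R false t / 2) := rfl
      rw [e6, Eu_add, Eu_half, Eu_half]
      ring
    rw [e4, e5] at h4
    exact h4
  have a1 := app B hB hbad
  have a2 := app Set.univ (loc_univ m) (fun M _ => by
    have e : ∀ r' : Fin 3, TOG.Pn M {t | (fun i => lb t i + r') ∈ BadB Set.univ (hn_fin r).toFinset.card} = 0 := by
      intro r'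
      rw [Pn_Eu]
      unfold Eu
      have e9 : ∑ t ∈ sawF M, TIP.ind (t ∈ {t | (fun i => lb t i + r') ∈ BadB Set.univ (hn_fin r).toFinset.card}) = 0 :=
        sum_eq_zero fun t _ => TIP.ind_neg (badB_univ (hn_fin r).toFinset.card (fun i => lb t i + r'))
      show (∑ t ∈ sawF M, TIP.ind (t ∈ {t | (fun i => lb t i + r') ∈ BadB Set.univ (hn_fin r).toFinset.card})) / _ = 0
      rw [e9, zero_div]
    rw [e, e, add_zero]
    positivity)
  have u1 : Eu n (HB Q Set.univ R true) = Eu n (fun t => TIP.ind (t ∈ Q) * psi R t) := by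
    congr 1
    funext t
    unfold HB
    rw [TIP.ind_pos (Set.mem_univ _), one_mul]
  have u2 : ∀ c, Eu n (HB Set.univ Set.univ R c) = Eu n (psi R) := by
    intro c
    congr 1
    funext t
    unfold HB
    rw [TIP.ind_pos (Set.mem_univ _), TIP.ind_pos (Set.mem_univ _), one_mul, one_mul]
  rw [u1, u2, u2] at a2
  -- the cut-off
  have c3' : 1 - Eu n (psi R) ≤ δ := by
    refine le_trans ?_ (h3 k n (by omega) hN)
    rw [Pn_Eu, ← Eu_one n, ← Eu_sub]
    refine Eu_mono fun t => ?_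
    by_cases ht : hn (en t) < 2 ^ (k - c3)
    · rw [TIP.ind_pos (show t ∈ {t | hn (en t) < 2 ^ (k - c3)} from ht)]
      linarith [psi_nonneg R t]
    · have h5 : 2 * R ≤ hn (en t) := by
        rw [← e1]
        push Not at ht
        exact_mod_cast ht
      rw [psi_one hR0 h5, sub_self]
      exact TIP.ind_nonneg _
  have c4 : Eu n (psi R) ≤ 1 := by
    rw [← Eu_one n]
    exact Eu_mono fun t => psi_le_one R t
  have b1 := cut_cost n Q R
  have b5 := cut_cost' n (g := fun t => TIP.ind (t ∈ {t | (fun i => lb t i + 1) ∈ B ∧ t ∈ Q})) (fun t => ind_abs _) R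
  have b6 := cut_cost' n (g := fun t => TIP.ind (t ∈ {t | (fun i => lb t i + 1) ∈ B})) (fun t => ind_abs _) R
  have b7 := cut_cost' n (g := fun t => TIP.ind (t ∈ {t | (fun i => lb t i + 2) ∈ B})) (fun t => ind_abs _) R
  have v1 : Eu n (HB Q B R true) = Eu n (fun t => TIP.ind (t ∈ {t | (fun i => lb t i + 1) ∈ B ∧ t ∈ Q}) * psi R t) := by
    congr 1
    funext t
    have e : TIP.ind (t ∈ {t | (fun i => lb t i + 1) ∈ B ∧ t ∈ Q}) = TIP.ind ((fun i => lb t i + 1) ∈ B) * TIP.ind (t ∈ Q) :=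
      ind_and _ _
    rw [e]
    unfold HB
    rw [mul_assoc]
    rfl
  have v2 : Eu n (HB Set.univ B R true) = Eu n (fun t => TIP.ind (t ∈ {t | (fun i => lb t i + 1) ∈ B}) * psi R t) := by
    congr 1
    funext t
    unfold HB
    rw [TIP.ind_pos (Set.mem_univ _), one_mul]
    rfl
  have v3 : Eu n (HB Set.univ B R false) = Eu n (fun t => TIP.ind (t ∈ {t | (fun i => lb t i + 2) ∈ B}) * psi R t) := by
    congr 1
    funext t
    unfold HB
    rw [TIP.ind_pos (Set.mem_univ _), one_mul]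
    rfl
  rw [v1, v2, v3] at a1
  rw [← Pn_Eu] at b5 b6 b7
  have hMA : 0 < PWN.MA (PWN.tent 0) n' := hM k' n' (by omega) s1'
  have b8 := PWN.EA_abs (PWN.tent_bump 0) hMA (qE_abs Q true)
  have hP : ∀ W : Set (List Bool), |TOG.Pn n W| ≤ 1 := by
    intro W
    rw [Pn_Eu]
    exact Eu_le fun t => ind_abs _
  have u3 := alg hδ0.le b1 a2 c3' c4 b5 b6 b7 a1 b8 (hP _) (hP _)
  refine u3.trans ?_
  rw [hδ]
  linarith

end MCP

end HexObs
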