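import Pool.Agent.MC.ZoF
import Pool.Agent.MC.Joint
import Pool.Agent.MC.EAQ

/-!
MC, the zero-one law on words (helper83): **`zo_word`**. An event of the first steps, seen from the tip, that hardly sees a shift by
an even number `j ≤ J` of steps, is asymptotically independent of a given event of the start.
-/

set_option autoImplicit false

namespace HexObs

namespace MCP

open Finset TS SDN TIW

open Pool.Agent.IW (rvw rvw_app rvw_mem rvw_rvw split_last DS saw_DS Loc)

/-! ### geometry -/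

lemma hn_vx_le (t : List Bool) (i : ℕ) : hn (vx oo up t i) ≤ 2 * i := by
  induction i with
  | zero =>
    have e : vx oo up t 0 = oo := rfl
    rw [e]
    decide
  | succ i ih =>
    rw [vx_succ]
    have h1 := hn_add (vx oo up t i) (dx up t i)
    rw [hn_dir (dx_mem upd' t i)] at h1
    push_cast
    linarith

lemma hn_en_le (t : List Bool) : hn (en t) ≤ 2 * t.length := hn_vx_le t _

/-- a self-avoiding word in a ball is short -/
lemma len_ball {r : ℕ} {Y : List Bool} (hS : Y ∈ SA) (hY : ∀ i, i ≤ Y.length → hn (vx oo up Y i) < r) :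
    Y.length ≤ (hn_fin r).toFinset.card := by
  have h1 : ((Icc 1 Y.length).image fun i => vx oo up Y i) ⊆ (hn_fin r).toFinset := by
    intro p hp
    obtain ⟨i, hi, rfl⟩ := Finset.mem_image.1 hp
    rw [Finset.mem_Icc] at hi
    rw [Set.Finite.mem_toFinset]
    exact hY i hi.2
  have h2 : ((Icc 1 Y.length).image fun i => vx oo up Y i).card = Y.length := by
    rw [Finset.card_image_of_injOn, Nat.card_Icc]
    · omega
    · intro i hi j hj he
      rw [Finset.coe_Icc, Set.mem_Icc] at hi hj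
      simp only at he
      rcases Nat.lt_trichotomy i j with h | h | h
      · exact absurd he (hS.inj i j h hj.2)
      · exact h
      · exact absurd he.symm (hS.inj j i h hi.2)
  have h3 := Finset.card_le_card h1
  rw [h2] at h3
  exact h3

lemma lb_append {t s : List Bool} {i : ℕ} (h : i ≤ t.length) : lb (t ++ s) i = lb t i := by
  unfold lb
  rw [dx_append h]

/-! ### the functionals -/

/-- the functional of the start -/
noncomputable def HB (Q : Set (List Bool)) (B : Set (ℕ → Fin 3)) (R : ℝ) (c : Bool) (t : List Bool) : ℝ :=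
  TIP.ind ((fun i => lb t i + rho c) ∈ B) * (TIP.ind (t ∈ Q) * psi R t)

/-- the functional of the end -/
noncomputable def PB (B : Set (ℕ → Fin 3)) (R : ℝ) (s : List Bool) : ℝ := TIP.ind (wf s ∈ B) * psi R s

lemma HB_abs (Q : Set (List Bool)) (B : Set (ℕ → Fin 3)) (R : ℝ) (c : Bool) (t : List Bool) : |HB Q B R c t| ≤ 1 := by
  unfold HB
  rw [abs_mul]
  exact mul_le_one₀ (ind_abs _) (abs_nonneg _) (F_le Q R t)

lemma PB_abs (B : Set (ℕ → Fin 3)) (R : ℝ) (t : List Bool) : |PB B R t| ≤ 1 := by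
  unfold PB
  rw [abs_mul]
  exact mul_le_one₀ (ind_abs _) (abs_nonneg _) (psi_abs _ _)

lemma HB_last {b m : ℕ} {Q : Set (List Bool)} (hQ : StE b Q) {B : Set (ℕ → Fin 3)} (hB : Loc m B) {R : ℝ}
    (hR : (2 : ℝ) ^ b + 2 ≤ R) (hm : 2 * (m : ℝ) ≤ R) (c0 : Bool) (s : List Bool) (c : Bool) (hs : s ++ [c] ∈ SA) :
    HB Q B R c0 (s ++ [c]) = HB Q B R c0 (s ++ [!c]) := by
  have hR0 : 0 < R := lt_of_lt_of_le (by positivity) hR
  have hs' : s ++ [!c] ∈ SA := by
    have h : s ++ [c] ∈ SawN (s.length + 1) := ⟨by simp, hs⟩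
    exact (saw_DS.2 (saw_DS.1 h)).2
  unfold HB
  rw [psi_last R s c (!c)]
  rcases le_or_gt ((2 : ℤ) ^ b) (hn (en s)) with h | h
  · rcases le_or_gt m (s.length + 1) with h1 | h1
    · rw [TIP.ind_congr ((hQ s [c] hs h).trans (hQ s [!c] hs' h).symm)]
      congr 1
      refine TIP.ind_congr ⟨hB _ _ fun i hi => ?_, hB _ _ fun i hi => ?_⟩
      · rw [lb_append (by omega), lb_append (by omega)]
      · rw [lb_append (by omega), lb_append (by omega)]
    · have h2 : psi R (s ++ [!c]) = 0 := by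
        refine psi_zero hR0 ?_
        have h3 := hn_en_le (s ++ [!c])
        have h4 : (s ++ [!c]).length = s.length + 1 := by simp
        rw [h4] at h3
        have h5 : (hn (en (s ++ [!c])) : ℝ) ≤ 2 * ((s.length + 1 : ℕ) : ℝ) := by exact_mod_cast h3
        have h6 : ((s.length + 1 : ℕ) : ℝ) ≤ m := by exact_mod_cast h1.le
        linarith
      rw [h2]
      simp only [mul_zero]
  · have h1 : psi R (s ++ [!c]) = 0 := by
      refine psi_zero hR0 ?_
      rw [en_snoc]
      have e : tip oo up s = en s + de s := rfl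
      have h2 := hn_add (en s) (de s)
      rw [hn_dir (de_mem s), ← e] at h2
      have h3 : (hn (tip oo up s) : ℝ) ≤ hn (en s) + 2 := by exact_mod_cast h2
      have h4 : (hn (en s) : ℝ) < 2 ^ b := by exact_mod_cast h
      linarith
    rw [h1]
    simp only [mul_zero]

/-- the sum of the functionals of the end with the inner functional -/
theorem sumB_q {b m : ℕ} {Q : Set (List Bool)} (hQ : StE b Q) {B : Set (ℕ → Fin 3)} (hB : Loc m B) {R : ℝ}
    (hR : (2 : ℝ) ^ b + 2 ≤ R) (hm : 2 * (m : ℝ) ≤ R) (c0 : Bool) (M : ℕ) :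
    ∑ t ∈ sawF M, HB Q B R c0 t / 2 = ∑ t ∈ sawF M, PB B R t * qE Q c0 t := by
  have hR0 : 0 < R := lt_of_lt_of_le (by positivity) hR
  rcases Nat.eq_zero_or_pos M with rfl | hM
  · refine sum_congr rfl fun t ht => ?_
    rw [sawF_zero ht]
    unfold HB PB
    rw [psi_nil hR0]
    ring
  · rw [← sum_rvw M (fun t => PB B R t * qE Q c0 t), ← sum_div, ← sum_last hM (HB_last hQ hB hR hm c0) c0]
    refine sum_congr rfl fun t ht => ?_
    rw [mem_sawF] at ht
    have hw := wf_rvw hM ht.1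
    obtain ⟨s, c, rfl, -⟩ := split_last hM ht.1
    unfold PB qE
    rw [rvw_rvw hM ht.1, psi_rvw, hw, la_app, rvw_app, List.getLast?_concat, List.getLast?_concat]
    by_cases h : c = c0
    · rw [h]
      unfold HB
      ring
    · rw [TIP.ind_neg (fun he => h (Option.some.inj he))]
      ring

/-- the sum of the functionals of the end -/
theorem sumB_1 {m : ℕ} {B : Set (ℕ → Fin 3)} (hB : Loc m B) {R : ℝ} (hR : 3 ≤ R) (hm : 2 * (m : ℝ) ≤ R) (M : ℕ) :
    ∑ t ∈ sawF M, (HB Set.univ B R true t / 2 + HB Set.univ B R false t / 2) = ∑ t ∈ sawF M, PB B R t := by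
  have hR0 : 0 < R := by linarith
  have hR' : (2 : ℝ) ^ 0 + 2 ≤ R := by
    rw [pow_zero]
    linarith
  rcases Nat.eq_zero_or_pos M with rfl | hM
  · refine sum_congr rfl fun t ht => ?_
    rw [sawF_zero ht]
    unfold HB PB
    rw [psi_nil hR0]
    ring
  · rw [sum_add_distrib, sumB_q (stE_univ 0) hB hR' hm true M, sumB_q (stE_univ 0) hB hR' hm false M, ← sum_add_distrib]
    refine sum_congr rfl fun t ht => ?_
    rw [mem_sawF] at ht
    obtain ⟨s, c, rfl, -⟩ := split_last hM ht.1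
    unfold qE
    rw [TIP.ind_pos (Set.mem_univ _), List.getLast?_concat]
    cases c
    · rw [TIP.ind_neg (by simp), TIP.ind_pos rfl]
      ring
    · rw [TIP.ind_pos rfl, TIP.ind_neg (by simp)]
      ring

/-! ### the shifts -/

/-- the walks for which the event sees a shift by an even number of steps -/
def BadB (B : Set (ℕ → Fin 3)) (J : ℕ) : Set (ℕ → Fin 3) :=
  {w | ∃ j, j ≤ J ∧ Even j ∧ ¬ (w ∈ B ↔ (fun i => w (j + i)) ∈ B)}

/-- the error function -/
noncomputable def erB (B : Set (ℕ → Fin 3)) (J : ℕ) (x : ℝ) (s : List Bool) : ℝ := TIP.ind (wf s ∈ BadB B J) + x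

lemma erB_nonneg (B : Set (ℕ → Fin 3)) (J : ℕ) {x : ℝ} (hx : 0 ≤ x) (s : List Bool) : 0 ≤ erB B J x s := by
  unfold erB
  have := TIP.ind_nonneg (wf s ∈ BadB B J)
  linarith

/-- **the functional of the end hardly sees a small end of class 0** -/
theorem PB_rob {m : ℕ} {B : Set (ℕ → Fin 3)} (hB : Loc m B) {R : ℝ} (hR : 0 < R) {r : ℕ} (hm : 2 * (m : ℝ) + r ≤ R) :
    PWN.RM.Rob r (PB B R) (erB B (hn_fin r).toFinset.card (r / R)) := by
  intro A Y hA hde hY
  have h0 : (hn (en Y) : ℝ) ≤ r := by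
    have := (hY Y.length le_rfl).le
    exact_mod_cast this
  have h1 : |psi R (A ++ Y) - psi R A| ≤ r / R := psi_rob hR hY
  have hYS : Y ∈ SA := by
    have := SA_drop hA A.length
    rwa [List.drop_left] at this
  have hlen := len_ball hYS hY
  have hev := PWN.even_of_de hde
  have hr0 : (0 : ℝ) ≤ r := Nat.cast_nonneg r
  have hx : (0 : ℝ) ≤ r / R := by positivity
  rcases le_or_gt m A.length with h2 | h2
  · by_cases hb : wf (A ++ Y) ∈ BadB B (hn_fin r).toFinset.card
    · have h3 := abs_le.1 (PB_abs B R (A ++ Y))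
      have h4 := abs_le.1 (PB_abs B R A)
      have h5 : 0 ≤ PB B R (A ++ Y) := mul_nonneg (TIP.ind_nonneg _) (psi_nonneg _ _)
      have h6 : 0 ≤ PB B R A := mul_nonneg (TIP.ind_nonneg _) (psi_nonneg _ _)
      unfold erB
      rw [TIP.ind_pos hb, abs_le]
      constructor <;> linarith [h3.2, h4.2]
    · have h3 : wf (A ++ Y) ∈ B ↔ wf A ∈ B := by
        unfold BadB at hb
        rw [Set.mem_ofPred_eq] at hb
        push Not at hb
        have h4 := hb Y.length hlen hev
        refine h4.trans ⟨hB _ _ fun i hi => ?_, hB _ _ fun i hi => ?_⟩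
        · exact wf_drop hde (by omega)
        · exact (wf_drop hde (by omega)).symm
      unfold PB erB
      rw [TIP.ind_congr h3, ← mul_sub, abs_mul, abs_of_nonneg (TIP.ind_nonneg _), TIP.ind_neg hb, zero_add]
      calc _ ≤ 1 * (r / R) := mul_le_mul (TIP.ind_le_one _) h1 (abs_nonneg _) zero_le_one
        _ = _ := one_mul _
  · have h3 : (hn (en A) : ℝ) ≤ 2 * m := by
      have h4 : (hn (en A) : ℝ) ≤ 2 * (A.length : ℝ) := by exact_mod_cast hn_en_le A
      have h5 : (A.length : ℝ) ≤ m := by exact_mod_cast h2.le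
      linarith
    have h4 := (abs_le.1 (hn_app A Y)).2
    unfold PB
    rw [psi_zero hR (by linarith), psi_zero hR (by linarith), mul_zero, mul_zero, sub_zero, abs_zero]
    exact erB_nonneg _ _ hx _

/-- a small end, seen from the start -/
theorem HB_end {b m : ℕ} {Q : Set (List Bool)} (hQ : StE b Q) {B : Set (ℕ → Fin 3)} (hB : Loc m B) {R τ : ℝ} {r : ℕ}
    (hb : (2 : ℝ) ^ b + r ≤ R) (hr : (r : ℝ) ≤ τ * R) (hm : 2 * (m : ℝ) + r ≤ R) (hτ : 0 ≤ τ) (c : Bool)
    {A Y : List Bool} (hA : A ++ Y ∈ SA) (hY : ∀ i, i ≤ Y.length → hn (vx oo up Y i) < r) :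
    |HB Q B R c (A ++ Y) - HB Q B R c A| ≤ τ := by
  have hR : 0 < R := lt_of_lt_of_le (by positivity) hb
  rcases le_or_gt m A.length with h2 | h2
  · have h1 := F_rob hQ hb hr hA hY
    have h3 : (fun i => lb (A ++ Y) i + rho c) ∈ B ↔ (fun i => lb A i + rho c) ∈ B := by
      refine ⟨hB _ _ fun i hi => ?_, hB _ _ fun i hi => ?_⟩
      · rw [lb_append (by omega)]
      · rw [lb_append (by omega)]
    unfold HB
    rw [TIP.ind_congr h3, ← mul_sub, abs_mul, abs_of_nonneg (TIP.ind_nonneg _)]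
    calc _ ≤ 1 * τ := mul_le_mul (TIP.ind_le_one _) h1 (abs_nonneg _) zero_le_one
      _ = τ := one_mul _
  · have h0 : (hn (en Y) : ℝ) ≤ r := by
      have := (hY Y.length le_rfl).le
      exact_mod_cast this
    have h3 : (hn (en A) : ℝ) ≤ 2 * m := by
      have h4 : (hn (en A) : ℝ) ≤ 2 * (A.length : ℝ) := by exact_mod_cast hn_en_le A
      have h5 : (A.length : ℝ) ≤ m := by exact_mod_cast h2.le
      linarith
    have h4 := (abs_le.1 (hn_app A Y)).2
    have hr0 : (0 : ℝ) ≤ r := Nat.cast_nonneg r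
    unfold HB
    rw [psi_zero hR (by linarith), psi_zero hR (by linarith)]
    simp only [mul_zero, sub_zero, abs_zero]
    exact hτ

/-- the mean of the error function -/
lemma erB_sq {B : Set (ℕ → Fin 3)} {J M : ℕ} (hM : 0 < M) {x e : ℝ}
    (h : TOG.Pn M {t | (fun i => lb t i + 1) ∈ BadB B J} + TOG.Pn M {t | (fun i => lb t i + 2) ∈ BadB B J} ≤ e) :
    ∑ t ∈ sawF M, erB B J x t ^ 2 ≤ (2 * e + 2 * x ^ 2) * cS M := by
  have h1 : ∑ t ∈ sawF M, TIP.ind (wf t ∈ BadB B J) ≤ e * cS M := by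
    rw [← sum_rvw M (fun t => TIP.ind (wf t ∈ BadB B J))]
    have h2 := h
    rw [Pn_Eu, Pn_Eu, ← Eu_add] at h2
    unfold Eu at h2
    rw [div_le_iff₀ (cS0 M)] at h2
    refine le_trans (sum_le_sum fun t ht => ?_) h2
    rw [mem_sawF] at ht
    rw [wf_rvw hM ht.1]
    have h3 := TIP.ind_nonneg (t ∈ {t | (fun i => lb t i + 1) ∈ BadB B J})
    have h4 := TIP.ind_nonneg (t ∈ {t | (fun i => lb t i + 2) ∈ BadB B J})
    cases la t
    · have e1 : TIP.ind ((fun i => lb t i + rho false) ∈ BadB B J) = TIP.ind (t ∈ {t | (fun i => lb t i + 2) ∈ BadB B J}) := rfl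
      rw [e1]
      linarith
    · have e1 : TIP.ind ((fun i => lb t i + rho true) ∈ BadB B J) = TIP.ind (t ∈ {t | (fun i => lb t i + 1) ∈ BadB B J}) := rfl
      rw [e1]
      linarith
  have h3 : ∑ t ∈ sawF M, erB B J x t ^ 2 ≤ ∑ t ∈ sawF M, (2 * TIP.ind (wf t ∈ BadB B J) + 2 * x ^ 2) := by
    refine sum_le_sum fun t _ => ?_
    unfold erB
    have h4 := TIP.ind_nonneg (wf t ∈ BadB B J)
    have h5 := TIP.ind_le_one (wf t ∈ BadB B J)
    nlinarith [sq_nonneg (TIP.ind (wf t ∈ BadB B J) - x)]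
  refine h3.trans ?_
  rw [sum_add_distrib, ← mul_sum, sum_const, card_sawF, nsmul_eq_mul]
  linarith

end MCP

end HexObs
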